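import Mathlib

/-! Homogenisation of integer polynomials and their roots modulo `p` and `p²`. -/

namespace Pool.Agent.H549.FS

open Polynomial Finset

/-- The binary form `∑ f_k v^k u^(n-k)`, `n` the degree of `f`. -/
noncomputable def hom (f : ℤ[X]) (u v : ℤ) : ℤ := (f.scaleRoots u).eval v

theorem hom_mul (f g : ℤ[X]) (u v : ℤ) : hom (f * g) u v = hom f u v * hom g u v := by
  unfold hom
  rw [mul_scaleRoots_of_noZeroDivisors, eval_mul]

theorem hom_one (u v : ℤ) : hom 1 u v = 1 := by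
  unfold hom
  rw [one_scaleRoots, eval_one]

theorem hom_prod {ι : Type*} (s : Finset ι) (f : ι → ℤ[X]) (u v : ℤ) :
    hom (∏ i ∈ s, f i) u v = ∏ i ∈ s, hom (f i) u v := by
  classical
  induction s using Finset.induction_on with
  | empty => simp [hom_one]
  | insert a s ha ih => rw [prod_insert ha, prod_insert ha, hom_mul, ih]

/-- The congruence `hom f u v ≡ u^n f(r)` if `u r ≡ v`. -/
theorem hom_dvd_sub (f : ℤ[X]) (m u v r : ℤ) (h : m ∣ v - u * r) :
    m ∣ hom f u v - u ^ f.natDegree * f.eval r := by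
  have h1 : (f.scaleRoots u).eval (u * r) = u ^ f.natDegree * f.eval r :=
    scaleRoots_eval_mul f r u
  have h2 : v - u * r ∣ (f.scaleRoots u).eval v - (f.scaleRoots u).eval (u * r) :=
    sub_dvd_eval_sub v (u * r) _
  rw [h1] at h2
  exact h.trans h2

/-- The value at `u ≡ 0`. -/
theorem hom_zero_left (f : ℤ[X]) (p u v : ℤ) (h : p ∣ u) :
    p ∣ hom f u v - f.leadingCoeff * v ^ f.natDegree := by
  unfold hom
  rw [eval_eq_sum_range, natDegree_scaleRoots, Finset.sum_range_succ]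
  have h1 : (f.scaleRoots u).coeff f.natDegree = f.leadingCoeff := by
    rw [coeff_scaleRoots]; simp
  rw [h1]
  have : p ∣ ∑ x ∈ range f.natDegree, (f.scaleRoots u).coeff x * v ^ x := by
    refine Finset.dvd_sum fun i hi => ?_
    rw [mem_range] at hi
    rw [coeff_scaleRoots]
    have : p ∣ u ^ (f.natDegree - i) := dvd_pow h (by omega)
    exact Dvd.dvd.mul_right (Dvd.dvd.mul_left this _) _
  have e : ∑ x ∈ range f.natDegree, (f.scaleRoots u).coeff x * v ^ x +
      f.leadingCoeff * v ^ f.natDegree - f.leadingCoeff * v ^ f.natDegree =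
      ∑ x ∈ range f.natDegree, (f.scaleRoots u).coeff x * v ^ x := by ring
  rw [e]
  exact this

/-- Roots modulo `p²` are determined modulo `p`. -/
theorem root_lift {F A B : ℤ[X]} {D : ℤ} (hAB : A * F + B * derivative F = C D)
    {p : ℕ} (hp : p.Prime) (hpD : ¬ (p : ℤ) ∣ D) {r s : ℤ}
    (hr : ((p:ℤ) ^ 2) ∣ F.eval r) (hs : ((p:ℤ) ^ 2) ∣ F.eval s) (hrs : (p:ℤ) ∣ s - r) :
    ((p:ℤ)^2) ∣ s - r := by
  have hp' : Prime (p:ℤ) := Nat.prime_iff_prime_int.mp hp
  obtain ⟨k, hk⟩ := F.binomExpansion r (s - r)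
  rw [add_sub_cancel] at hk
  -- F'(r) (s - r) ≡ 0 mod p²
  have h1 : ((p:ℤ)^2) ∣ (derivative F).eval r * (s - r) := by
    have h2 : (derivative F).eval r * (s - r) = F.eval s - F.eval r - k * (s - r)^2 := by
      rw [hk]; ring
    rw [h2]
    exact dvd_sub (dvd_sub hs hr) (Dvd.dvd.mul_left (pow_dvd_pow_of_dvd hrs 2) _)
  have hnd : ¬ (p:ℤ) ∣ (derivative F).eval r := by
    intro h
    apply hpD
    have h3 := congrArg (fun q => q.eval r) hAB
    simp only [eval_add, eval_mul, eval_C] at h3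
    rw [← h3]
    have hr' : (p:ℤ) ∣ F.eval r := (dvd_pow_self _ two_ne_zero).trans hr
    exact dvd_add (Dvd.dvd.mul_left hr' _) (Dvd.dvd.mul_left h _)
  exact (hp'.pow_dvd_of_dvd_mul_left 2 hnd h1)

/-- The number of the roots in `ZMod p`. -/
theorem card_roots_zmod (F : ℤ[X]) {p : ℕ} [Fact p.Prime] (hlc : ¬ (p : ℤ) ∣ F.leadingCoeff) :
    ((univ : Finset (ZMod p)).filter
      (fun r => (F.map (Int.castRingHom (ZMod p))).eval r = 0)).card ≤ F.natDegree := by
  classical
  have hne : F.map (Int.castRingHom (ZMod p)) ≠ 0 := by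
    intro h
    have := congrArg (fun q => q.coeff F.natDegree) h
    simp only [coeff_map, coeff_zero] at this
    apply hlc
    rw [← ZMod.intCast_zmod_eq_zero_iff_dvd (F.leadingCoeff) p]
    simpa using this
  have h1 : ((univ : Finset (ZMod p)).filter
      (fun r => (F.map (Int.castRingHom (ZMod p))).eval r = 0)) ⊆
      (F.map (Int.castRingHom (ZMod p))).roots.toFinset := by
    intro r hr
    rw [mem_filter] at hr
    rw [Multiset.mem_toFinset, mem_roots hne]
    exact hr.2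
  calc _ ≤ (F.map (Int.castRingHom (ZMod p))).roots.toFinset.card := card_le_card h1
    _ ≤ Multiset.card (F.map (Int.castRingHom (ZMod p))).roots := Multiset.toFinset_card_le _
    _ ≤ (F.map (Int.castRingHom (ZMod p))).natDegree := card_roots' _
    _ ≤ F.natDegree := natDegree_map_le

/-- A finite set with a map to `ZMod p`, injective, whose values are roots modulo `p`. -/
theorem card_le_of_roots {α : Type*} (S : Finset α) (F : ℤ[X]) {p : ℕ} (hp : p.Prime)
    (hlc : ¬ (p : ℤ) ∣ F.leadingCoeff) (r : α → ℤ)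
    (hr : ∀ a ∈ S, (p:ℤ) ∣ F.eval (r a))
    (hinj : ∀ a ∈ S, ∀ b ∈ S, (p:ℤ) ∣ r b - r a → a = b) : S.card ≤ F.natDegree := by
  classical
  have : Fact p.Prime := ⟨hp⟩
  refine le_trans ?_ (card_roots_zmod F hlc)
  refine card_le_card_of_injOn (fun a => ((r a : ℤ) : ZMod p)) ?_ ?_
  · intro a ha
    have ha' : a ∈ S := ha
    simp only [coe_filter, mem_univ, true_and, Set.mem_ofPred_eq]
    have h1 : (F.map (Int.castRingHom (ZMod p))).eval ((r a : ℤ) : ZMod p)
        = ((F.eval (r a) : ℤ) : ZMod p) := by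
      rw [eval_map]
      have := Polynomial.eval₂_at_apply (p := F) (Int.castRingHom (ZMod p)) (r a)
      simpa using this
    rw [h1, ZMod.intCast_zmod_eq_zero_iff_dvd]
    exact hr a ha'
  · intro a ha b hb hab
    have ha' : a ∈ S := ha
    have hb' : b ∈ S := hb
    apply hinj a ha' b hb'
    rw [← ZMod.intCast_zmod_eq_zero_iff_dvd]
    push_cast
    rw [sub_eq_zero]
    exact hab.symm

/-- The inverse of `u` modulo a power of `p`. -/
theorem exists_ratio (p : ℕ) (hp : p.Prime) (k : ℕ) (u v : ℤ) (hu : ¬ (p:ℤ) ∣ u) :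
    ∃ r : ℤ, ((p:ℤ)^k) ∣ v - u * r := by
  have hp' : Prime (p:ℤ) := Nat.prime_iff_prime_int.mp hp
  have hc : IsCoprime ((p:ℤ)^k) u := by
    refine IsCoprime.pow_left ?_
    exact (Prime.coprime_iff_not_dvd hp').2 hu
  obtain ⟨a, b, hab⟩ := hc
  refine ⟨b * v, ⟨a * v, ?_⟩⟩
  have : v = (a * (p:ℤ)^k + b * u) * v := by rw [hab]; ring
  linear_combination this

open Classical in
/-- The ratio `v / u` modulo `p^k`. -/
noncomputable def ratio (p k : ℕ) (u v : ℤ) : ℤ :=
  if h : ∃ r : ℤ, ((p:ℤ)^k) ∣ v - u * r then h.choose else 0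

theorem ratio_spec {p : ℕ} (hp : p.Prime) (k : ℕ) (u v : ℤ) (hu : ¬ (p:ℤ) ∣ u) :
    ((p:ℤ)^k) ∣ v - u * ratio p k u v := by
  unfold ratio
  rw [dif_pos (exists_ratio p hp k u v hu)]
  exact (exists_ratio p hp k u v hu).choose_spec

theorem ratio_root {p : ℕ} (hp : p.Prime) (k : ℕ) (f : ℤ[X]) (u v : ℤ) (hu : ¬ (p:ℤ) ∣ u)
    (h : ((p:ℤ)^k) ∣ hom f u v) : ((p:ℤ)^k) ∣ f.eval (ratio p k u v) := by
  have hp' : Prime (p:ℤ) := Nat.prime_iff_prime_int.mp hp
  have h1 := hom_dvd_sub f ((p:ℤ)^k) u v (ratio p k u v) (ratio_spec hp k u v hu)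
  have h2 : ((p:ℤ)^k) ∣ u ^ f.natDegree * f.eval (ratio p k u v) := by
    have := dvd_sub h h1
    simpa using this
  have hc : IsCoprime ((p:ℤ)^k) (u ^ f.natDegree) := by
    refine IsCoprime.pow ?_
    exact (Prime.coprime_iff_not_dvd hp').2 hu
  exact hc.dvd_of_dvd_mul_left h2

/-- Equal ratios modulo `p^k`. -/
theorem ratio_eq {p : ℕ} (hp : p.Prime) (k : ℕ) (u v u' v' : ℤ) (hu : ¬ (p:ℤ) ∣ u)
    (hu' : ¬ (p:ℤ) ∣ u') (h : ((p:ℤ)^k) ∣ ratio p k u' v' - ratio p k u v) :
    ((p:ℤ)^k) ∣ v * u' - v' * u := by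
  have h1 := ratio_spec hp k u v hu
  have h2 := ratio_spec hp k u' v' hu'
  have e : v * u' - v' * u = u' * (v - u * ratio p k u v) - u * (v' - u' * ratio p k u' v')
      - u * u' * (ratio p k u' v' - ratio p k u v) := by ring
  rw [e]
  exact dvd_sub (dvd_sub (Dvd.dvd.mul_left h1 _) (Dvd.dvd.mul_left h2 _)) (Dvd.dvd.mul_left h _)

/-- Two primitive positive vectors which are proportional are equal. -/
theorem eq_of_det_zero {u v u' v' : ℤ} (hu : 0 < u) (hu' : 0 < u')
    (h1 : IsCoprime u v) (h2 : IsCoprime u' v') (h : v * u' = v' * u) : u = u' ∧ v = v' := by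
  have a : u ∣ u' := by
    have : u ∣ v * u' := by rw [h]; exact dvd_mul_left _ _
    exact h1.dvd_of_dvd_mul_left this
  have b : u' ∣ u := by
    have : u' ∣ v' * u := by rw [← h]; exact dvd_mul_left _ _
    exact h2.dvd_of_dvd_mul_left this
  have hu1 : u = u' := Int.dvd_antisymm hu.le hu'.le a b
  refine ⟨hu1, ?_⟩
  subst hu1
  exact mul_right_cancel₀ hu.ne' h

end Pool.Agent.H549.FS
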