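import Pool.Agent.H549.FS.Prime
import Pool.Agent.H549.FS.Hom

/-! Counting lemmas for the two-variable squarefree sieve. -/

namespace Pool.Agent.H549.FS

open Polynomial Finset

/-- A set of natural numbers below `N` with gaps at least `m`. -/
theorem card_sep {S : Finset ℕ} {N m : ℕ} (hm : 0 < m) (hS : ∀ s ∈ S, s < N)
    (h : ∀ s ∈ S, ∀ s' ∈ S, s < s' → m ≤ s' - s) : S.card ≤ N / m + 1 := by
  have key : S.card ≤ (range (N / m + 1)).card := by
    refine card_le_card_of_injOn (fun s => s / m) ?_ ?_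
    · intro s hs
      have hs' : s ∈ S := hs
      have h1 : s / m ≤ N / m := Nat.div_le_div_right (hS s hs').le
      have : s / m ∈ range (N / m + 1) := by rw [mem_range]; omega
      exact this
    · intro s hs s' hs' hss
      have a : s ∈ S := hs
      have b : s' ∈ S := hs'
      have hss' : s / m = s' / m := hss
      by_contra hne
      have h3 := Nat.div_add_mod s m
      have h4 := Nat.div_add_mod s' m
      have h5 := Nat.mod_lt s hm
      have h6 := Nat.mod_lt s' hm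
      rw [hss'] at h3
      rcases lt_or_gt_of_ne hne with hlt | hgt
      · have := h s a s' b hlt
        omega
      · have := h s' b s a hgt
        omega
  simpa using key

/-- The points of the box. -/
def pt (Q a b N s : ℕ) : ℕ := a + Q * (b * N + s)

theorem pt_sub {Q a b N s s' : ℕ} (h : s ≤ s') :
    pt Q a b N s' - pt Q a b N s = Q * (s' - s) := by
  unfold pt
  obtain ⟨k, rfl⟩ := Nat.exists_eq_add_of_le h
  have : a + Q * (b * N + (s + k)) = a + Q * (b * N + s) + Q * k := by ring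
  rw [this]
  simp

theorem pt_modEq (Q a b N s : ℕ) : pt Q a b N s ≡ a [MOD Q] := by
  unfold pt
  exact Nat.add_modulus_mul_modEq_iff.2 (Nat.ModEq.refl a) |>.trans (Nat.ModEq.refl a)

theorem pt_pos {Q a b N s : ℕ} (hQ : 0 < Q) (hb : 1 ≤ b) (hN : 1 ≤ N) : 0 < pt Q a b N s := by
  unfold pt
  have : 0 < b * N + s := by
    have : 0 < b * N := Nat.mul_pos (by omega) (by omega)
    omega
  have := Nat.mul_pos hQ this
  omega

theorem pt_le {Q a b N s : ℕ} (ha : a ≤ Q) (hs : s < N) : pt Q a b N s ≤ Q * (b + 2) * N := by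
  unfold pt
  have hN : 1 ≤ N := by omega
  have h1 : a ≤ Q * N := ha.trans (Nat.le_mul_of_pos_right Q (by omega))
  have h2 : Q * s ≤ Q * N := Nat.mul_le_mul_left Q hs.le
  nlinarith

theorem pt_inj {Q a b N s s' : ℕ} (hQ : 0 < Q) (h : pt Q a b N s = pt Q a b N s') : s = s' := by
  unfold pt at h
  have h1 : Q * (b * N + s) = Q * (b * N + s') := by omega
  have h2 := Nat.eq_of_mul_eq_mul_left hQ h1
  omega

theorem le_of_dvd_pts {Q a b N s s' m : ℕ} (hQ : Nat.Coprime m Q) (h : s < s')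
    (h1 : m ∣ pt Q a b N s) (h2 : m ∣ pt Q a b N s') : m ≤ s' - s := by
  have h3 : m ∣ Q * (s' - s) := by
    rw [← pt_sub h.le]
    exact Nat.dvd_sub h2 h1
  exact Nat.le_of_dvd (by omega) (hQ.dvd_of_dvd_mul_left h3)

theorem card_dvd_pt {Q a b N m : ℕ} (hm : 0 < m) (hQ : Nat.Coprime m Q) :
    ((range N).filter (fun s => m ∣ pt Q a b N s)).card ≤ N / m + 1 := by
  refine card_sep hm (fun s hs => ?_) (fun s hs s' hs' hss => ?_)
  · rw [mem_filter, mem_range] at hs; exact hs.1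
  · rw [mem_filter] at hs hs'
    exact le_of_dvd_pts hQ hss hs.2 hs'.2

/-- The number of `t < N` with `p^k ∣ hom F u v`, `v = v' + Q t`, for `u` prime to `p`. -/
theorem card_fiber (F : ℤ[X]) {p k : ℕ} (hp : p.Prime) (hk : 1 ≤ k) {Q : ℕ} (hpQ : ¬ p ∣ Q)
    (hlc : ¬ (p:ℤ) ∣ F.leadingCoeff)
    (hlift : ∀ r s : ℤ, ((p:ℤ)^k) ∣ F.eval r → ((p:ℤ)^k) ∣ F.eval s → (p:ℤ) ∣ s - r →
      ((p:ℤ)^k) ∣ s - r) (u : ℤ) (hu : ¬ (p:ℤ) ∣ u) (v' : ℤ) (N : ℕ) :
    ((range N).filter (fun t : ℕ => ((p:ℤ)^k) ∣ hom F u (v' + Q * t))).card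
      ≤ F.natDegree * (N / p ^ k + 1) := by
  classical
  have hp' : Prime (p:ℤ) := Nat.prime_iff_prime_int.mp hp
  have hpk : 0 < p ^ k := pow_pos hp.pos k
  have hcu : IsCoprime ((p:ℤ)^k) u := IsCoprime.pow_left ((Prime.coprime_iff_not_dvd hp').2 hu)
  have hcQ : IsCoprime ((p:ℤ)^k) (Q:ℤ) := by
    refine IsCoprime.pow_left ((Prime.coprime_iff_not_dvd hp').2 ?_)
    rwa [Int.natCast_dvd_natCast]
  -- the classes
  set S' := (range (p ^ k)).filter (fun a : ℕ => ((p:ℤ)^k) ∣ hom F u (v' + Q * a)) with hS'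
  have h1 : S'.card ≤ F.natDegree := by
    refine card_le_of_roots S' F hp hlc (fun a => ratio p k u (v' + Q * a)) ?_ ?_
    · intro a ha
      rw [hS', mem_filter] at ha
      exact (dvd_pow_self _ (by omega)).trans (ratio_root hp k F u _ hu ha.2)
    · intro a ha b hb hab
      rw [hS', mem_filter, mem_range] at ha hb
      have h2 := hlift _ _ (ratio_root hp k F u _ hu ha.2) (ratio_root hp k F u _ hu hb.2) hab
      have h3 := ratio_eq hp k u _ u _ hu hu h2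
      have h4 : ((p:ℤ)^k) ∣ u * (Q * ((a:ℤ) - b)) := by
        have e : u * (Q * ((a:ℤ) - b)) = (v' + Q * a) * u - (v' + Q * b) * u := by ring
        rw [e]; exact h3
      have h5 := hcQ.dvd_of_dvd_mul_left (hcu.dvd_of_dvd_mul_left h4)
      have h6 : ((p ^ k : ℕ) : ℤ) ∣ (a:ℤ) - b := by exact_mod_cast h5
      have h7 := (Nat.modEq_iff_dvd.2 h6).symm
      have h8 : a % (p^k) = b % (p^k) := h7
      rwa [Nat.mod_eq_of_lt ha.1, Nat.mod_eq_of_lt hb.1] at h8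
  have h2 : ((range N).filter (fun t : ℕ => ((p:ℤ)^k) ∣ hom F u (v' + Q * t))).card
      ≤ (N / p ^ k + 1) * S'.card := by
    refine card_le_mul_card_image_of_maps_to (f := fun t => t % (p ^ k)) ?_ _ ?_
    · intro t ht
      rw [mem_filter] at ht
      rw [hS', mem_filter, mem_range]
      refine ⟨Nat.mod_lt _ hpk, ?_⟩
      have h3 : ((p:ℤ)^k) ∣ hom F u (v' + Q * t) - hom F u (v' + Q * ((t % p ^ k : ℕ) : ℤ)) := by
        unfold hom
        refine dvd_trans ?_ (sub_dvd_eval_sub _ _ _)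
        have h4 : ((p:ℤ)^k) ∣ (t:ℤ) - ((t % p ^ k : ℕ) : ℤ) := by
          have := Nat.modEq_iff_dvd.1 (Nat.mod_modEq t (p ^ k))
          exact_mod_cast this
        have e : v' + Q * (t:ℤ) - (v' + Q * ((t % p ^ k : ℕ) : ℤ))
            = Q * ((t:ℤ) - ((t % p ^ k : ℕ) : ℤ)) := by ring
        rw [e]
        exact Dvd.dvd.mul_left h4 _
      have := dvd_sub ht.2 h3
      simpa using this
    · intro b _
      refine card_sep hpk (fun s hs => ?_) (fun s hs s' hs' hss => ?_)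
      · rw [mem_filter, mem_filter, mem_range] at hs; exact hs.1.1
      · rw [mem_filter] at hs hs'
        have h3 : s % p ^ k = s' % p ^ k := hs.2.trans hs'.2.symm
        have h4 : p ^ k ∣ s' - s := (Nat.modEq_iff_dvd' hss.le).1 h3
        exact Nat.le_of_dvd (by omega) h4
  calc _ ≤ (N / p ^ k + 1) * S'.card := h2
    _ ≤ (N / p ^ k + 1) * F.natDegree := Nat.mul_le_mul_left _ h1
    _ = _ := Nat.mul_comm _ _

/-- If `p` divides `hom F u v`, `u`, `v` coprime, then `p` does not divide `u`. -/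
theorem not_dvd_left (F : ℤ[X]) {p : ℕ} (hp : p.Prime) (hlc : ¬ (p:ℤ) ∣ F.leadingCoeff)
    {u v : ℕ} (huv : Nat.Coprime u v) (h : (p:ℤ) ∣ hom F u v) : ¬ (p:ℤ) ∣ u := by
  intro hu
  have hp' : Prime (p:ℤ) := Nat.prime_iff_prime_int.mp hp
  have h1 := hom_zero_left F p u v hu
  have h2 : (p:ℤ) ∣ F.leadingCoeff * (v:ℤ) ^ F.natDegree := by
    have := dvd_sub h h1
    simpa using this
  rcases hp'.dvd_or_dvd h2 with h3 | h3
  · exact hlc h3
  · have h4 := hp'.dvd_of_dvd_pow h3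
    have h5 : p ∣ v := by exact_mod_cast h4
    have h6 : p ∣ u := by exact_mod_cast hu
    exact Nat.not_coprime_of_dvd_of_dvd hp.one_lt h6 h5 huv

/-- For a large prime at most `deg F` primitive points. -/
theorem card_big (F A B : ℤ[X]) (D : ℤ) (hAB : A * F + B * derivative F = C D)
    {p : ℕ} (hp : p.Prime) (hpD : ¬ (p:ℤ) ∣ D) (hlc : ¬ (p:ℤ) ∣ F.leadingCoeff)
    {Q a b a' b' N : ℕ} (hQ : 0 < Q) (ha : a ≤ Q) (hb : 1 ≤ b) (ha' : a' ≤ Q) (hb' : 1 ≤ b')
    (hbig : Q * (b + 2) * (Q * (b' + 2)) * N ^ 2 ≤ p ^ 2) :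
    ((range N ×ˢ range N).filter (fun st : ℕ × ℕ =>
      Nat.Coprime (pt Q a b N st.1) (pt Q a' b' N st.2) ∧
      ((p:ℤ)^2) ∣ hom F (pt Q a b N st.1 : ℕ) (pt Q a' b' N st.2 : ℕ))).card ≤ F.natDegree := by
  classical
  refine card_le_of_roots _ F hp hlc (fun st => ratio p 2 (pt Q a b N st.1 : ℕ)
    (pt Q a' b' N st.2 : ℕ)) ?_ ?_
  · intro st hst
    rw [mem_filter] at hst
    have h0 : (p:ℤ) ∣ hom F (pt Q a b N st.1 : ℕ) (pt Q a' b' N st.2 : ℕ) :=
      (dvd_pow_self _ two_ne_zero).trans hst.2.2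
    have hu := not_dvd_left F hp hlc hst.2.1 h0
    exact (dvd_pow_self _ two_ne_zero).trans (ratio_root hp 2 F _ _ hu hst.2.2)
  · intro x hx y hy hxy
    rw [mem_filter, mem_product, mem_range, mem_range] at hx hy
    have hx0 : (p:ℤ) ∣ hom F (pt Q a b N x.1 : ℕ) (pt Q a' b' N x.2 : ℕ) :=
      (dvd_pow_self _ two_ne_zero).trans hx.2.2
    have hy0 : (p:ℤ) ∣ hom F (pt Q a b N y.1 : ℕ) (pt Q a' b' N y.2 : ℕ) :=
      (dvd_pow_self _ two_ne_zero).trans hy.2.2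
    have hux := not_dvd_left F hp hlc hx.2.1 hx0
    have huy := not_dvd_left F hp hlc hy.2.1 hy0
    have h1 := root_lift hAB hp hpD (ratio_root hp 2 F _ _ hux hx.2.2)
      (ratio_root hp 2 F _ _ huy hy.2.2) hxy
    have h2 := ratio_eq hp 2 _ _ _ _ hux huy h1
    have hN : 1 ≤ N := by omega
    have p1 : 0 < pt Q a b N x.1 := pt_pos hQ hb hN
    have p2 : 0 < pt Q a' b' N x.2 := pt_pos hQ hb' hN
    have p3 : 0 < pt Q a b N y.1 := pt_pos hQ hb hN
    have p4 : 0 < pt Q a' b' N y.2 := pt_pos hQ hb' hN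
    have q1 : pt Q a b N x.1 ≤ Q * (b + 2) * N := pt_le ha hx.1.1
    have q2 : pt Q a' b' N x.2 ≤ Q * (b' + 2) * N := pt_le ha' hx.1.2
    have q3 : pt Q a b N y.1 ≤ Q * (b + 2) * N := pt_le ha hy.1.1
    have q4 : pt Q a' b' N y.2 ≤ Q * (b' + 2) * N := pt_le ha' hy.1.2
    have r1 : pt Q a' b' N x.2 * pt Q a b N y.1 ≤ p ^ 2 := by
      calc _ ≤ (Q * (b' + 2) * N) * (Q * (b + 2) * N) := Nat.mul_le_mul q2 q3
        _ = Q * (b + 2) * (Q * (b' + 2)) * N ^ 2 := by ring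
        _ ≤ p ^ 2 := hbig
    have r2 : pt Q a' b' N y.2 * pt Q a b N x.1 ≤ p ^ 2 := by
      calc _ ≤ (Q * (b' + 2) * N) * (Q * (b + 2) * N) := Nat.mul_le_mul q4 q1
        _ = Q * (b + 2) * (Q * (b' + 2)) * N ^ 2 := by ring
        _ ≤ p ^ 2 := hbig
    have s1 : 0 < pt Q a' b' N x.2 * pt Q a b N y.1 := Nat.mul_pos p2 p3
    have s2 : 0 < pt Q a' b' N y.2 * pt Q a b N x.1 := Nat.mul_pos p4 p1
    have h3 : ((pt Q a' b' N x.2 : ℕ) : ℤ) * (pt Q a b N y.1 : ℕ) =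
        ((pt Q a' b' N y.2 : ℕ) : ℤ) * (pt Q a b N x.1 : ℕ) := by
      have h4 : |((pt Q a' b' N x.2 : ℕ) : ℤ) * (pt Q a b N y.1 : ℕ) -
        ((pt Q a' b' N y.2 : ℕ) : ℤ) * (pt Q a b N x.1 : ℕ)| < (p:ℤ)^2 := by
        rw [abs_lt]
        have r1' : ((pt Q a' b' N x.2 : ℕ) : ℤ) * (pt Q a b N y.1 : ℕ) ≤ (p:ℤ)^2 := by
          exact_mod_cast r1
        have r2' : ((pt Q a' b' N y.2 : ℕ) : ℤ) * (pt Q a b N x.1 : ℕ) ≤ (p:ℤ)^2 := by
          exact_mod_cast r2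
        have s1' : 0 < ((pt Q a' b' N x.2 : ℕ) : ℤ) * (pt Q a b N y.1 : ℕ) := by
          exact_mod_cast s1
        have s2' : 0 < ((pt Q a' b' N y.2 : ℕ) : ℤ) * (pt Q a b N x.1 : ℕ) := by
          exact_mod_cast s2
        constructor <;> linarith
      have h5 := Int.eq_zero_of_abs_lt_dvd h2 h4
      linarith
    have h6 := eq_of_det_zero (u := ((pt Q a b N x.1 : ℕ) : ℤ)) (v := ((pt Q a' b' N x.2 : ℕ) : ℤ))
      (u' := ((pt Q a b N y.1 : ℕ) : ℤ)) (v' := ((pt Q a' b' N y.2 : ℕ) : ℤ))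
      (by exact_mod_cast p1) (by exact_mod_cast p3)
      (Nat.isCoprime_iff_coprime.2 hx.2.1) (Nat.isCoprime_iff_coprime.2 hy.2.1) h3
    have h7 : x.1 = y.1 := pt_inj hQ (by exact_mod_cast h6.1)
    have h8 : x.2 = y.2 := pt_inj hQ (by exact_mod_cast h6.2)
    exact Prod.ext h7 h8

/-- A prime square divides one of the factors. -/
theorem sq_dvd_factor {ι : Type*} [Fintype ι] [DecidableEq ι] (f : ι → ℤ[X]) (A B : ℤ[X]) (D : ℤ)
    (hAB : A * (∏ i, f i) + B * derivative (∏ i, f i) = C D)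
    {p : ℕ} (hp : p.Prime) (hpD : ¬ (p:ℤ) ∣ D) (hlc : ¬ (p:ℤ) ∣ (∏ i, f i).leadingCoeff)
    {u v : ℕ} (huv : Nat.Coprime u v) (h : ((p:ℤ)^2) ∣ hom (∏ i, f i) u v) :
    ∃ i, ((p:ℤ)^2) ∣ hom (f i) u v := by
  have hp' : Prime (p:ℤ) := Nat.prime_iff_prime_int.mp hp
  have h0 : (p:ℤ) ∣ hom (∏ i, f i) u v := (dvd_pow_self _ two_ne_zero).trans h
  have hu := not_dvd_left _ hp hlc huv h0
  have h1 : (p:ℤ) ∣ ∏ i, hom (f i) u v := by rw [← hom_prod]; exact h0
  obtain ⟨i, _, hi⟩ := (hp'.dvd_finsetProd_iff _).1 h1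
  refine ⟨i, ?_⟩
  set g := ∏ j ∈ univ.erase i, f j with hg
  have hF : (∏ i, f i) = f i * g := (mul_prod_erase univ f (mem_univ i)).symm
  rw [hF, hom_mul] at h
  have hng : ¬ (p:ℤ) ∣ hom g u v := by
    intro hgd
    apply hpD
    have e1 := ratio_root hp 1 (f i) u v hu (by simpa using hi)
    have e2 := ratio_root hp 1 g u v hu (by simpa using hgd)
    rw [pow_one] at e1 e2
    rw [hF] at hAB
    have h3 := congrArg (fun q => q.eval (ratio p 1 u v)) hAB
    simp only [eval_add, eval_mul, eval_C, derivative_mul] at h3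
    rw [← h3]
    refine dvd_add ?_ ?_
    · exact Dvd.dvd.mul_left (Dvd.dvd.mul_right e1 _) _
    · refine Dvd.dvd.mul_left (dvd_add ?_ ?_) _
      · exact Dvd.dvd.mul_left e2 _
      · exact Dvd.dvd.mul_right e1 _
  exact hp'.pow_dvd_of_dvd_mul_right 2 hng h

end Pool.Agent.H549.FS
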