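import Mathlib

/-! Congruent numbers. -/

namespace Pool.Agent.H549.FS

/-- `n` is a congruent number: a positive integer which is the area of a right triangle with
rational sides. -/
def IsCongruent (n : ℕ) : Prop :=
  0 < n ∧ ∃ a b c : ℚ, 0 < a ∧ 0 < b ∧ 0 < c ∧ a ^ 2 + b ^ 2 = c ^ 2 ∧ (n : ℚ) = a * b / 2

end Pool.Agent.H549.FS
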