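import Pool.Agent.H549.FS.Sieve

/-! Distinct squarefree values of binary forms. -/

namespace Pool.Agent.H549.FS

open Polynomial Finset

/-- The roots of `F` modulo `p`. -/
noncomputable def rootset (F : ℤ[X]) (p : ℕ) : Finset ℕ :=
  (range p).filter (fun a : ℕ => (p:ℤ) ∣ F.eval (a:ℤ))

theorem card_rootset (F : ℤ[X]) {p : ℕ} (hp : p.Prime) (hlc : ¬ (p:ℤ) ∣ F.leadingCoeff) :
    (rootset F p).card ≤ F.natDegree := by
  refine card_le_of_roots _ F hp hlc (fun a : ℕ => (a:ℤ)) ?_ ?_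
  · intro a ha
    rw [rootset, mem_filter] at ha
    exact ha.2
  · intro a ha b hb hab
    rw [rootset, mem_filter, mem_range] at ha hb
    have h7 : a % p = b % p := Nat.modEq_iff_dvd.2 hab
    rwa [Nat.mod_eq_of_lt ha.1, Nat.mod_eq_of_lt hb.1] at h7

theorem ratio_mod_mem (F : ℤ[X]) {p : ℕ} (hp : p.Prime) {u v : ℤ} (hu : ¬ (p:ℤ) ∣ u)
    (h : (p:ℤ) ∣ hom F u v) : (ratio p 1 u v % (p:ℤ)).toNat ∈ rootset F p := by
  have hp0 : (0:ℤ) < p := by exact_mod_cast hp.pos
  have h1 : 0 ≤ ratio p 1 u v % (p:ℤ) := Int.emod_nonneg _ hp0.ne'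
  have h2 : ratio p 1 u v % (p:ℤ) < p := Int.emod_lt_of_pos _ hp0
  have h3 : (((ratio p 1 u v % (p:ℤ)).toNat : ℕ) : ℤ) = ratio p 1 u v % (p:ℤ) :=
    Int.toNat_of_nonneg h1
  rw [rootset, mem_filter, mem_range]
  constructor
  · have : (((ratio p 1 u v % (p:ℤ)).toNat : ℕ) : ℤ) < p := by rw [h3]; exact h2
    exact_mod_cast this
  · rw [h3]
    have h4 := ratio_root hp 1 F u v hu (by simpa using h)
    rw [pow_one] at h4
    have h5 : (p:ℤ) ∣ F.eval (ratio p 1 u v) - F.eval (ratio p 1 u v % (p:ℤ)) := by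
      refine dvd_trans ?_ (sub_dvd_eval_sub _ _ _)
      exact Int.dvd_self_sub_emod
    have := dvd_sub h4 h5
    simpa using this

namespace Sys

variable {ι : Type} [Fintype ι] (S : Sys ι)

/-- The logarithm of the smooth part. -/
noncomputable def sl (y N : ℕ) (st : ℕ × ℕ) : ℝ :=
  ∑ p ∈ (S.val N st).primeFactors.filter (fun p => p ≤ y), Real.log p

theorem val_pos {N : ℕ} {st : ℕ × ℕ} (h : st ∈ range N ×ˢ range N) : 0 < S.val N st := by
  have h1 := (S.val_spec h).2.2
  rw [mem_product, mem_range, mem_range] at h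
  have : 0 < N ^ 3 := pow_pos (by omega) 3
  omega

theorem dvd_hom_of_dvd_val {N p : ℕ} {st : ℕ × ℕ} (h : st ∈ range N ×ˢ range N)
    (hp : p ∣ S.val N st) : (p:ℤ) ∣ hom (∏ i, S.f i) (S.uu N st.1 : ℕ) (S.vv N st.2 : ℕ) := by
  obtain ⟨hv1, _, _⟩ := S.val_spec h
  have h2 : hom (∏ i, S.f i) (S.uu N st.1 : ℕ) (S.vv N st.2 : ℕ) = S.w * (S.val N st : ℤ) := hv1
  rw [h2]
  exact Dvd.dvd.mul_left (by exact_mod_cast hp) _

theorem good_facts {N p : ℕ} {st : ℕ × ℕ} (h : st ∈ S.good N) (hp : p.Prime)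
    (hpv : p ∣ S.val N st) : ¬ p ∣ S.Q ∧ ¬ (p:ℤ) ∣ (S.uu N st.1 : ℕ) ∧
      (p:ℤ) ∣ hom (∏ i, S.f i) (S.uu N st.1 : ℕ) (S.vv N st.2 : ℕ) := by
  rw [mem_good] at h
  obtain ⟨hb, hc, hs⟩ := h
  have hpQ : ¬ p ∣ S.Q := fun h =>
    Nat.not_coprime_of_dvd_of_dvd hp.one_lt hpv h (S.val_spec hb).2.1
  have h1 := S.dvd_hom_of_dvd_val hb hpv
  exact ⟨hpQ, not_dvd_left _ hp (S.hD p hp hpQ).2 hc h1, h1⟩

theorem sum_sl_le (y N : ℕ) (hy : 1 ≤ y) (hyN : y ≤ N) :
    ∑ st ∈ S.good N, S.sl y N st ≤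
      S.d * (N:ℝ)^2 * (Real.log y + 2 * Real.log 4) := by
  classical
  have h1 : ∑ st ∈ S.good N, S.sl y N st =
      ∑ p ∈ (range (y + 1)).filter Nat.Prime, ∑ st ∈ (S.good N).filter
        (fun st => p ∣ S.val N st), Real.log p := by
    unfold sl
    refine sum_comm' ?_
    intro st p
    constructor
    · rintro ⟨ha, hb⟩
      rw [mem_filter, Nat.mem_primeFactors] at hb
      rw [mem_filter, mem_filter, mem_range]
      exact ⟨⟨ha, hb.1.2.1⟩, by omega, hb.1.1⟩
    · rintro ⟨ha, hb⟩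
      rw [mem_filter] at ha
      rw [mem_filter, mem_range] at hb
      rw [mem_filter, Nat.mem_primeFactors]
      refine ⟨ha.1, ⟨hb.2, ha.2, ?_⟩, by omega⟩
      exact (S.val_pos ((S.mem_good).1 ha.1).1).ne'
  rw [h1]
  have h2 : ∀ p ∈ (range (y + 1)).filter Nat.Prime,
      ∑ st ∈ (S.good N).filter (fun st => p ∣ S.val N st), Real.log p ≤
      S.d * (N:ℝ)^2 * (Real.log p / p) + S.d * N * Real.log p := by
    intro p hp
    rw [mem_filter, mem_range] at hp
    have hpp := hp.2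
    have hp0 : (0:ℝ) < p := by exact_mod_cast hpp.pos
    have hlogp : 0 ≤ Real.log p := Real.log_natCast_nonneg p
    rw [sum_const, nsmul_eq_mul]
    by_cases hpQ : p ∣ S.Q
    · have : (S.good N).filter (fun st => p ∣ S.val N st) = ∅ := by
        rw [filter_eq_empty_iff]
        intro st hst hpv
        exact (S.good_facts hst hpp hpv).1 hpQ
      rw [this]
      simp only [card_empty, Nat.cast_zero, zero_mul]
      positivity
    · have h3 : ((S.good N).filter (fun st => p ∣ S.val N st)).card ≤ N * (S.d * (N / p + 1)) := by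
        have h4 := S.card_B4 (N := N) hpp hpQ
        rw [pow_one] at h4
        refine le_trans (card_le_card ?_) h4
        intro st hst
        rw [mem_filter] at hst
        obtain ⟨_, hf2, hf3⟩ := S.good_facts hst.1 hpp hst.2
        rw [B4, mem_filter]
        exact ⟨((S.mem_good).1 hst.1).1, hf2, by simpa using hf3⟩
      have h5 : ((((S.good N).filter (fun st => p ∣ S.val N st)).card : ℕ) : ℝ) ≤
          N * (S.d * ((N:ℝ) / p + 1)) := by
        have h6 : ((((S.good N).filter (fun st => p ∣ S.val N st)).card : ℕ) : ℝ) ≤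
          ((N * (S.d * (N / p + 1)) : ℕ) : ℝ) := by exact_mod_cast h3
        refine h6.trans ?_
        push_cast
        have h7 : ((N / p : ℕ) : ℝ) ≤ (N:ℝ) / p := Nat.cast_div_le
        gcongr
      calc _ ≤ (N * (S.d * ((N:ℝ) / p + 1))) * Real.log p :=
            mul_le_mul_of_nonneg_right h5 hlogp
        _ = _ := by field_simp
  refine (sum_le_sum h2).trans ?_
  rw [sum_add_distrib, ← mul_sum, ← mul_sum]
  have h3 := sum_log_div_le y hy
  have h4 := sum_log_le y
  have hd : (0:ℝ) ≤ S.d := by positivity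
  have h5 : S.d * (N:ℝ)^2 * ∑ p ∈ (range (y + 1)).filter Nat.Prime, Real.log p / p ≤
      S.d * (N:ℝ)^2 * (Real.log y + Real.log 4) := mul_le_mul_of_nonneg_left h3 (by positivity)
  have h6 : S.d * (N:ℝ) * ∑ p ∈ (range (y + 1)).filter Nat.Prime, Real.log p ≤
      S.d * (N:ℝ) * (Real.log 4 * N) := by
    refine mul_le_mul_of_nonneg_left (h4.trans ?_) (by positivity)
    have : (y:ℝ) ≤ N := by exact_mod_cast hyN
    have h7 : 0 ≤ Real.log 4 := Real.log_nonneg (by norm_num)
    exact mul_le_mul_of_nonneg_left this h7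
  nlinarith

/-- The rough part. -/
noncomputable def rough (y n : ℕ) : ℕ := ∏ p ∈ n.primeFactors.filter (fun p => ¬ p ≤ y), p

theorem log_rough (y : ℕ) {N : ℕ} {st : ℕ × ℕ} (h : st ∈ S.good N) :
    Real.log (rough y (S.val N st)) = Real.log (S.val N st) - S.sl y N st := by
  have hsq := ((S.mem_good).1 h).2.2
  have h1 : ∏ p ∈ (S.val N st).primeFactors, p = S.val N st := Nat.prod_primeFactors_of_squarefree hsq
  have h2 : Real.log (S.val N st) = ∑ p ∈ (S.val N st).primeFactors, Real.log p := by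
    conv_lhs => rw [← h1]
    rw [Nat.cast_prod, Real.log_prod]
    intro p hp
    have := (Nat.prime_of_mem_primeFactors hp).pos
    positivity
  have h3 : Real.log (rough y (S.val N st)) =
      ∑ p ∈ (S.val N st).primeFactors.filter (fun p => ¬ p ≤ y), Real.log p := by
    unfold rough
    rw [Nat.cast_prod, Real.log_prod]
    intro p hp
    rw [mem_filter] at hp
    have := (Nat.prime_of_mem_primeFactors hp.1).pos
    positivity
  rw [h3, h2, sl]
  have := sum_filter_add_sum_filter_not (S.val N st).primeFactors (fun p => p ≤ y)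
    (fun p => Real.log p)
  linarith

theorem val_le {N : ℕ} {st : ℕ × ℕ} (h : st ∈ range N ×ˢ range N) (hNK : S.K ^ 2 ≤ N) :
    S.val N st ≤ N ^ (5 * Fintype.card ι) := by
  obtain ⟨hv1, _, _⟩ := S.val_spec h
  rw [mem_product, mem_range, mem_range] at h
  have hN : 1 ≤ N := by omega
  have h1 : hom (∏ i, S.f i) (S.uu N st.1 : ℕ) (S.vv N st.2 : ℕ) ≤ ((N:ℤ) ^ 5) ^ (Fintype.card ι) := by
    rw [hom_prod]
    have h2 : ∏ i, hom (S.f i) (S.uu N st.1 : ℕ) (S.vv N st.2 : ℕ) ≤
        ∏ _i : ι, ((N:ℤ) ^ 5) := by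
      refine prod_le_prod (fun i _ => (S.hsize N st.1 st.2 hN h.1 h.2 i).1.le) fun i _ => ?_
      refine (S.hsize N st.1 st.2 hN h.1 h.2 i).2.trans ?_
      have : ((S.K:ℤ))^2 ≤ N := by exact_mod_cast hNK
      calc (S.K:ℤ)^2 * (N:ℤ)^4 ≤ N * (N:ℤ)^4 := mul_le_mul_of_nonneg_right this (by positivity)
        _ = (N:ℤ)^5 := by ring
    refine h2.trans (le_of_eq ?_)
    rw [prod_const, card_univ]
  have h3 : hom (∏ i, S.f i) (S.uu N st.1 : ℕ) (S.vv N st.2 : ℕ) = S.w * (S.val N st : ℤ) := hv1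
  rw [h3, ← pow_mul] at h1
  have hw : (1:ℤ) ≤ S.w := by exact_mod_cast S.hw
  have h4 : ((S.val N st : ℕ) : ℤ) ≤ (N:ℤ) ^ (5 * Fintype.card ι) := by
    refine le_trans ?_ h1
    have : (0:ℤ) ≤ (S.val N st : ℕ) := by positivity
    nlinarith
  exact_mod_cast h4

/-- The points with a given value whose rough part is large. -/
theorem fiber_le {y N n : ℕ} (G : Finset (ℕ × ℕ)) (hG : G ⊆ S.good N)
    (hn : ∀ st ∈ G, S.val N st = n) (hbig : S.E2 * N ^ 2 < rough y n) :
    G.card ≤ (S.d + 1) ^ (n.primeFactors.filter (fun p => ¬ p ≤ y)).card := by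
  classical
  set P := n.primeFactors.filter (fun p => ¬ p ≤ y) with hP
  by_cases hGe : G = ∅
  · rw [hGe]; simp
  obtain ⟨st0, hst0⟩ := Finset.nonempty_iff_ne_empty.2 hGe
  have hlcP : ∀ p ∈ P, p.Prime ∧ ¬ (p:ℤ) ∣ (∏ i, S.f i).leadingCoeff := by
    intro p hp
    rw [hP, mem_filter, Nat.mem_primeFactors] at hp
    have h1 := (S.good_facts (hG hst0) hp.1.1 (by rw [hn st0 hst0]; exact hp.1.2.1)).1
    exact ⟨hp.1.1, (S.hD p hp.1.1 h1).2⟩
  have h1 : G.card ≤ (P.pi (fun p => rootset (∏ i, S.f i) p)).card := by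
    refine card_le_card_of_injOn (fun st => fun p _ =>
      (ratio p 1 (S.uu N st.1 : ℕ) (S.vv N st.2 : ℕ) % (p:ℤ)).toNat) ?_ ?_
    · intro st hst
      have hst' : st ∈ G := hst
      have : (fun p (_ : p ∈ P) => (ratio p 1 (S.uu N st.1 : ℕ) (S.vv N st.2 : ℕ) % (p:ℤ)).toNat) ∈
        P.pi (fun p => rootset (∏ i, S.f i) p) := by
        rw [Finset.mem_pi]
        intro p hp
        rw [hP, mem_filter, Nat.mem_primeFactors] at hp
        obtain ⟨_, hf2, hf3⟩ := S.good_facts (hG hst') hp.1.1 (by rw [hn st hst']; exact hp.1.2.1)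
        exact ratio_mod_mem _ hp.1.1 hf2 hf3
      exact this
    · intro x hx z hz hxz
      have hx' : x ∈ G := hx
      have hz' : z ∈ G := hz
      have hxg := hG hx'
      have hzg := hG hz'
      have hxb := ((S.mem_good).1 hxg)
      have hzb := ((S.mem_good).1 hzg)
      have hdiv : ∀ p ∈ P, p ∣ (((S.vv N x.2 : ℕ) : ℤ) * (S.uu N z.1 : ℕ) -
          ((S.vv N z.2 : ℕ) : ℤ) * (S.uu N x.1 : ℕ)).natAbs := by
        intro p hp
        have hpv := hp
        rw [hP, mem_filter, Nat.mem_primeFactors] at hpv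
        obtain ⟨_, hx2, hx3⟩ := S.good_facts hxg hpv.1.1 (by rw [hn x hx']; exact hpv.1.2.1)
        obtain ⟨_, hz2, hz3⟩ := S.good_facts hzg hpv.1.1 (by rw [hn z hz']; exact hpv.1.2.1)
        have h2 := congrFun (congrFun hxz p) hp
        simp only at h2
        have hp0 : (0:ℤ) < p := by exact_mod_cast hpv.1.1.pos
        have h3 : ratio p 1 (S.uu N x.1 : ℕ) (S.vv N x.2 : ℕ) % (p:ℤ) =
            ratio p 1 (S.uu N z.1 : ℕ) (S.vv N z.2 : ℕ) % (p:ℤ) := by
          have e1 := Int.toNat_of_nonneg (Int.emod_nonneg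
            (ratio p 1 (S.uu N x.1 : ℕ) (S.vv N x.2 : ℕ)) hp0.ne')
          have e2 := Int.toNat_of_nonneg (Int.emod_nonneg
            (ratio p 1 (S.uu N z.1 : ℕ) (S.vv N z.2 : ℕ)) hp0.ne')
          rw [← e1, ← e2, h2]
        have h4 : ((p:ℤ)^1) ∣ ratio p 1 (S.uu N z.1 : ℕ) (S.vv N z.2 : ℕ) -
            ratio p 1 (S.uu N x.1 : ℕ) (S.vv N x.2 : ℕ) := by
          rw [pow_one]
          exact (Int.ModEq.dvd h3)
        have h5 := ratio_eq hpv.1.1 1 _ _ _ _ hx2 hz2 h4
        rw [pow_one] at h5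
        exact Int.natCast_dvd.1 h5
      have hprod : rough y n ∣ (((S.vv N x.2 : ℕ) : ℤ) * (S.uu N z.1 : ℕ) -
          ((S.vv N z.2 : ℕ) : ℤ) * (S.uu N x.1 : ℕ)).natAbs := by
        unfold rough
        refine Finset.prod_primes_dvd _ (fun p hp => ?_) hdiv
        exact (hlcP p hp).1.prime
      have hxr := hxb.1
      have hzr := hzb.1
      rw [mem_product, mem_range, mem_range] at hxr hzr
      have hN : 1 ≤ N := by omega
      have p1 : 0 < S.uu N x.1 := pt_pos S.hQ S.hU0 hN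
      have p2 : 0 < S.vv N x.2 := pt_pos S.hQ S.hV0 hN
      have p3 : 0 < S.uu N z.1 := pt_pos S.hQ S.hU0 hN
      have p4 : 0 < S.vv N z.2 := pt_pos S.hQ S.hV0 hN
      have q1 : S.uu N x.1 ≤ S.Q * (S.U0 + 2) * N := pt_le S.hu0 hxr.1
      have q2 : S.vv N x.2 ≤ S.Q * (S.V0 + 2) * N := pt_le S.hv0 hxr.2
      have q3 : S.uu N z.1 ≤ S.Q * (S.U0 + 2) * N := pt_le S.hu0 hzr.1
      have q4 : S.vv N z.2 ≤ S.Q * (S.V0 + 2) * N := pt_le S.hv0 hzr.2
      have r1 : S.vv N x.2 * S.uu N z.1 ≤ S.E2 * N ^ 2 := by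
        calc _ ≤ (S.Q * (S.V0 + 2) * N) * (S.Q * (S.U0 + 2) * N) := Nat.mul_le_mul q2 q3
          _ = S.E2 * N ^ 2 := by unfold E2; ring
      have r2 : S.vv N z.2 * S.uu N x.1 ≤ S.E2 * N ^ 2 := by
        calc _ ≤ (S.Q * (S.V0 + 2) * N) * (S.Q * (S.U0 + 2) * N) := Nat.mul_le_mul q4 q1
          _ = S.E2 * N ^ 2 := by unfold E2; ring
      have hzero : (((S.vv N x.2 : ℕ) : ℤ) * (S.uu N z.1 : ℕ) -
          ((S.vv N z.2 : ℕ) : ℤ) * (S.uu N x.1 : ℕ)).natAbs = 0 := by
        refine Nat.eq_zero_of_dvd_of_lt hprod (lt_of_le_of_lt ?_ hbig)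
        have r1' : ((S.vv N x.2 : ℕ) : ℤ) * (S.uu N z.1 : ℕ) ≤ ((S.E2 * N ^ 2 : ℕ) : ℤ) := by
          exact_mod_cast r1
        have r2' : ((S.vv N z.2 : ℕ) : ℤ) * (S.uu N x.1 : ℕ) ≤ ((S.E2 * N ^ 2 : ℕ) : ℤ) := by
          exact_mod_cast r2
        have s1' : 0 ≤ ((S.vv N x.2 : ℕ) : ℤ) * (S.uu N z.1 : ℕ) := by positivity
        have s2' : 0 ≤ ((S.vv N z.2 : ℕ) : ℤ) * (S.uu N x.1 : ℕ) := by positivity
        have : |((S.vv N x.2 : ℕ) : ℤ) * (S.uu N z.1 : ℕ) -
          ((S.vv N z.2 : ℕ) : ℤ) * (S.uu N x.1 : ℕ)| ≤ ((S.E2 * N ^ 2 : ℕ) : ℤ) := by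
          rw [abs_le]
          constructor <;> linarith
        rw [Int.abs_eq_natAbs] at this
        exact_mod_cast this
      have h3 : ((S.vv N x.2 : ℕ) : ℤ) * (S.uu N z.1 : ℕ) =
          ((S.vv N z.2 : ℕ) : ℤ) * (S.uu N x.1 : ℕ) := by
        have := Int.natAbs_eq_zero.1 hzero
        linarith
      have h6 := eq_of_det_zero (u := ((S.uu N x.1 : ℕ) : ℤ)) (v := ((S.vv N x.2 : ℕ) : ℤ))
        (u' := ((S.uu N z.1 : ℕ) : ℤ)) (v' := ((S.vv N z.2 : ℕ) : ℤ))
        (by exact_mod_cast p1) (by exact_mod_cast p3)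
        (Nat.isCoprime_iff_coprime.2 hxb.2.1) (Nat.isCoprime_iff_coprime.2 hzb.2.1) h3
      have h7 : x.1 = z.1 := pt_inj S.hQ (by exact_mod_cast h6.1)
      have h8 : x.2 = z.2 := pt_inj S.hQ (by exact_mod_cast h6.2)
      exact Prod.ext h7 h8
  refine h1.trans ?_
  rw [card_pi]
  calc ∏ p ∈ P, (rootset (∏ i, S.f i) p).card ≤ ∏ _p ∈ P, (S.d + 1) := by
        refine prod_le_prod' fun p hp => ?_
        have := card_rootset (∏ i, S.f i) (hlcP p hp).1 (hlcP p hp).2
        exact this.trans (Nat.le_succ _)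
    _ = (S.d + 1) ^ P.card := by rw [prod_const]

/-- **Distinct squarefree values.** -/
theorem distinct : ∃ c : ℝ, 0 < c ∧ ∃ N₀ : ℕ, ∀ N : ℕ, N₀ ≤ N → ∃ T : Finset ℕ,
    c * (N:ℝ) ^ 2 ≤ T.card ∧ ∀ n ∈ T, ∃ st ∈ S.good N, S.val N st = n := by
  classical
  obtain ⟨N₁, hN₁⟩ := S.card_good
  set K1 : ℕ := 16 * (S.d + 1) with hK1
  have hK1pos : 0 < K1 := by omega
  set L : ℕ := 5 * Fintype.card ι * K1 with hL
  have hlog4 : 0 < Real.log 4 := Real.log_pos (by norm_num)
  -- large `N`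
  obtain ⟨N₂, hN₂⟩ : ∃ N₂ : ℕ, ∀ N : ℕ, N₂ ≤ N → 32 * S.d * Real.log 4 + 1 ≤ Real.log N := by
    have h := (Real.tendsto_log_atTop.comp tendsto_natCast_atTop_atTop).eventually_ge_atTop
      (32 * S.d * Real.log 4 + 1)
    obtain ⟨a, ha⟩ := h.exists_forall_of_atTop
    exact ⟨a, fun N hN => ha N hN⟩
  refine ⟨1 / (2 * ((S.d + 1) ^ L : ℕ)), by positivity,
    max (max N₁ N₂) (max (S.K ^ 2) (S.E2 ^ 2 + 2)), fun N hN => ?_⟩
  have hNa : N₁ ≤ N := by omega
  have hNb : N₂ ≤ N := by omega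
  have hNc : S.K ^ 2 ≤ N := by omega
  have hNd : S.E2 ^ 2 + 2 ≤ N := by omega
  have hN1 : 1 ≤ N := by omega
  have hNr : (1:ℝ) ≤ N := by exact_mod_cast hN1
  have hN0 : (0:ℝ) < N := by linarith
  have hlogN := hN₂ N hNb
  have hd0 : (0:ℝ) ≤ S.d := by positivity
  have hlogN1 : 1 ≤ Real.log N := by nlinarith [mul_nonneg hd0 hlog4.le]
  have hg := hN₁ N hNa
  -- the threshold `y`
  set y : ℕ := ⌊(N:ℝ) ^ ((1:ℝ) / K1)⌋₊ with hy
  have hK1r : (0:ℝ) < K1 := by exact_mod_cast hK1pos
  have hrp1 : (1:ℝ) ≤ (N:ℝ) ^ ((1:ℝ) / K1) := Real.one_le_rpow hNr (by positivity)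
  have hy1 : 1 ≤ y := by
    rw [hy, Nat.one_le_floor_iff]
    exact hrp1
  have hyr : (y:ℝ) ≤ (N:ℝ) ^ ((1:ℝ) / K1) := Nat.floor_le (by linarith)
  have hyr2 : (N:ℝ) ^ ((1:ℝ) / K1) < y + 1 := Nat.lt_floor_add_one _
  have hlogrp : Real.log ((N:ℝ) ^ ((1:ℝ) / K1)) = Real.log N / K1 := by
    rw [Real.log_rpow hN0]; ring
  have hlogy : Real.log y ≤ Real.log N / K1 := by
    rw [← hlogrp]
    exact Real.log_le_log (by exact_mod_cast hy1) hyr
  have hlogy2 : Real.log N / K1 ≤ Real.log ((y:ℝ) + 1) := by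
    rw [← hlogrp]
    exact Real.log_le_log (by linarith) hyr2.le
  have hyN : y ≤ N := by
    have h1 : (N:ℝ) ^ ((1:ℝ) / K1) ≤ (N:ℝ) ^ (1:ℝ) := by
      refine Real.rpow_le_rpow_of_exponent_le hNr ?_
      rw [div_le_one hK1r]
      have : 1 ≤ K1 := hK1pos
      exact_mod_cast this
    rw [Real.rpow_one] at h1
    have := hyr.trans h1
    exact_mod_cast this
  -- good points with a small smooth part
  set G := (S.good N).filter (fun st => S.sl y N st ≤ (1 / 2) * Real.log N) with hG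
  have hGs : G ⊆ S.good N := filter_subset _ _
  have hslnn : ∀ st, 0 ≤ S.sl y N st := fun st => by
    unfold sl
    exact sum_nonneg fun p _ => Real.log_natCast_nonneg p
  have hbad : (((S.good N).filter (fun st => ¬ S.sl y N st ≤ (1 / 2) * Real.log N)).card : ℝ)
      ≤ (N:ℝ)^2 / 4 := by
    set Bd := (S.good N).filter (fun st => ¬ S.sl y N st ≤ (1 / 2) * Real.log N) with hBd
    have h1 : (Bd.card : ℝ) * ((1 / 2) * Real.log N) ≤ ∑ st ∈ S.good N, S.sl y N st := by
      calc (Bd.card : ℝ) * ((1 / 2) * Real.log N) = ∑ _st ∈ Bd, (1 / 2) * Real.log N := by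
            rw [sum_const, nsmul_eq_mul]
        _ ≤ ∑ st ∈ Bd, S.sl y N st := by
            refine sum_le_sum fun st hst => ?_
            rw [hBd, mem_filter] at hst
            exact (not_le.1 hst.2).le
        _ ≤ _ := sum_le_sum_of_subset_of_nonneg (filter_subset _ _) fun st _ _ => hslnn st
    have h2 := S.sum_sl_le y N hy1 hyN
    have h3 : (Bd.card : ℝ) * ((1 / 2) * Real.log N) ≤
        S.d * (N:ℝ)^2 * (Real.log N / K1 + 2 * Real.log 4) := by
      refine h1.trans (h2.trans ?_)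
      refine mul_le_mul_of_nonneg_left (by linarith) (by positivity)
    have hK1d : (K1:ℝ) = 16 * (S.d + 1) := by rw [hK1]; push_cast; ring
    have h4 : S.d * (N:ℝ)^2 * (Real.log N / K1 + 2 * Real.log 4) ≤
        (N:ℝ)^2 / 4 * ((1 / 2) * Real.log N) := by
      have h5 : S.d * (Real.log N / K1) ≤ Real.log N / 16 := by
        rw [hK1d]
        have : (0:ℝ) < 16 * (S.d + 1) := by positivity
        rw [← mul_div_assoc, div_le_div_iff₀ this (by norm_num)]
        nlinarith [mul_nonneg hd0 (by linarith : (0:ℝ) ≤ Real.log N)]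
      have h6 : S.d * (2 * Real.log 4) ≤ Real.log N / 16 := by linarith
      have h7 : S.d * (Real.log N / K1 + 2 * Real.log 4) ≤ Real.log N / 8 := by linarith
      have h8 : (0:ℝ) ≤ (N:ℝ)^2 := by positivity
      have := mul_le_mul_of_nonneg_left h7 h8
      nlinarith
    have h9 : (0:ℝ) < (1 / 2) * Real.log N := by linarith
    exact le_of_mul_le_mul_right (h3.trans h4) h9
  have hGcard : (N:ℝ)^2 / 2 ≤ G.card := by
    have h1 := card_filter_add_card_filter_not (s := S.good N)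
      (fun st => S.sl y N st ≤ (1 / 2) * Real.log N)
    have h2 : ((G.card : ℝ)) + (((S.good N).filter
      (fun st => ¬ S.sl y N st ≤ (1 / 2) * Real.log N)).card : ℝ) = ((S.good N).card : ℝ) := by
      exact_mod_cast h1
    nlinarith
  -- fibers
  have hfib : ∀ n ∈ G.image (S.val N), (G.filter (fun st => S.val N st = n)).card ≤ (S.d + 1) ^ L := by
    intro n hn
    rw [mem_image] at hn
    obtain ⟨st, hst, rfl⟩ := hn
    have hstg := hGs hst
    have hstb := ((S.mem_good).1 hstg).1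
    have hsl : S.sl y N st ≤ (1 / 2) * Real.log N := by
      rw [hG, mem_filter] at hst; exact hst.2
    have hlr := S.log_rough y hstg
    have hvp := S.val_pos hstb
    have hv3 := (S.val_spec hstb).2.2
    have hlv : 3 * Real.log N ≤ Real.log (S.val N st) := by
      have : Real.log ((N:ℝ)^3) ≤ Real.log (S.val N st) :=
        Real.log_le_log (by positivity) (by exact_mod_cast hv3)
      rw [Real.log_pow] at this
      push_cast at this
      exact this
    have hrpos : 0 < rough y (S.val N st) := by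
      unfold rough
      refine prod_pos fun p hp => ?_
      rw [mem_filter] at hp
      exact (Nat.prime_of_mem_primeFactors hp.1).pos
    -- rough part is large
    have hbig : S.E2 * N ^ 2 < rough y (S.val N st) := by
      have h1 : Real.log ((S.E2 * N ^ 2 : ℕ) : ℝ) < Real.log (rough y (S.val N st)) := by
        rw [hlr]
        have h2 : Real.log ((S.E2 * N ^ 2 : ℕ) : ℝ) = Real.log S.E2 + 2 * Real.log N := by
          have hE : (0:ℝ) < S.E2 := by exact_mod_cast S.E2_pos
          push_cast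
          rw [Real.log_mul hE.ne' (by positivity), Real.log_pow]
          push_cast
          ring
        have h3 : 2 * Real.log S.E2 < Real.log N := by
          have hE : (0:ℝ) < S.E2 := by exact_mod_cast S.E2_pos
          have h4 : Real.log ((S.E2:ℝ)^2) < Real.log N := by
            refine Real.log_lt_log (by positivity) ?_
            have : S.E2 ^ 2 < N := by omega
            exact_mod_cast this
          rw [Real.log_pow] at h4
          push_cast at h4
          exact h4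
        rw [h2]
        linarith
      have hE0 : (0:ℝ) < ((S.E2 * N ^ 2 : ℕ) : ℝ) := by
        have := Nat.mul_pos S.E2_pos (pow_pos (show 0 < N by omega) 2)
        exact_mod_cast this
      have := (Real.log_lt_log_iff hE0 (by exact_mod_cast hrpos)).1 h1
      exact_mod_cast this
    -- number of prime factors
    have hcnt : ((S.val N st).primeFactors.filter (fun p => ¬ p ≤ y)).card ≤ L := by
      set P := (S.val N st).primeFactors.filter (fun p => ¬ p ≤ y) with hP
      have h1 : (P.card : ℝ) * Real.log ((y:ℝ) + 1) ≤ Real.log (rough y (S.val N st)) := by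
        have h2 : Real.log (rough y (S.val N st)) = ∑ p ∈ P, Real.log p := by
          unfold rough
          rw [Nat.cast_prod, Real.log_prod]
          intro p hp
          rw [mem_filter] at hp
          have := (Nat.prime_of_mem_primeFactors hp.1).pos
          positivity
        rw [h2]
        calc (P.card : ℝ) * Real.log ((y:ℝ) + 1) = ∑ _p ∈ P, Real.log ((y:ℝ) + 1) := by
              rw [sum_const, nsmul_eq_mul]
          _ ≤ _ := by
              refine sum_le_sum fun p hp => ?_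
              rw [hP, mem_filter] at hp
              refine Real.log_le_log (by positivity) ?_
              have : y + 1 ≤ p := by omega
              exact_mod_cast this
      have h2 : Real.log (rough y (S.val N st)) ≤ 5 * Fintype.card ι * Real.log N := by
        have h3 : Real.log (S.val N st) ≤ 5 * Fintype.card ι * Real.log N := by
          have h4 := S.val_le hstb hNc
          have h5 : Real.log (S.val N st) ≤ Real.log ((N:ℝ) ^ (5 * Fintype.card ι)) :=
            Real.log_le_log (by exact_mod_cast hvp) (by exact_mod_cast h4)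
          rw [Real.log_pow] at h5
          push_cast at h5
          exact h5
        rw [hlr]
        linarith [hslnn st]
      have h3 : (P.card : ℝ) * (Real.log N / K1) ≤ 5 * Fintype.card ι * Real.log N :=
        (mul_le_mul_of_nonneg_left hlogy2 (by positivity)).trans (h1.trans h2)
      have h4 : (P.card : ℝ) ≤ 5 * Fintype.card ι * K1 := by
        have h5 : (P.card : ℝ) * Real.log N ≤ (5 * Fintype.card ι * K1) * Real.log N := by
          have h6 : (P.card : ℝ) * (Real.log N / K1) * K1 ≤ 5 * Fintype.card ι * Real.log N * K1 :=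
            mul_le_mul_of_nonneg_right h3 hK1r.le
          have e : (P.card : ℝ) * (Real.log N / K1) * K1 = (P.card : ℝ) * Real.log N := by
            field_simp
          rw [e] at h6
          linarith
        exact le_of_mul_le_mul_right h5 (by linarith)
      have h5 : (P.card : ℝ) ≤ (L : ℝ) := by
        refine h4.trans (le_of_eq ?_)
        rw [hL]; push_cast; ring
      exact_mod_cast h5
    have h1 := S.fiber_le (y := y) (n := S.val N st) (G.filter (fun st' => S.val N st' = S.val N st))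
      ((filter_subset _ _).trans hGs) (fun st' hst' => by rw [mem_filter] at hst'; exact hst'.2) hbig
    exact h1.trans (Nat.pow_le_pow_right (by omega) hcnt)
  refine ⟨G.image (S.val N), ?_, ?_⟩
  · have h1 := card_le_mul_card_image (f := S.val N) G ((S.d + 1) ^ L) hfib
    have h2 : (G.card : ℝ) ≤ ((S.d + 1) ^ L : ℕ) * ((G.image (S.val N)).card : ℝ) := by
      exact_mod_cast h1
    have hpos : (0:ℝ) < ((S.d + 1) ^ L : ℕ) := by positivity
    rw [div_mul_eq_mul_div, one_mul, div_le_iff₀ (by positivity)]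
    nlinarith
  · intro n hn
    rw [mem_image] at hn
    obtain ⟨st, hst, rfl⟩ := hn
    exact ⟨st, hGs hst, rfl⟩

end Sys

end Pool.Agent.H549.FS
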