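import Pool.Agent.H549.FS.Pairs

/-! The values of `GG a b` at the prime `2`. -/

namespace Pool.Agent.H549.FS

/-- The condition at `2`. -/
def Loc (a b : ℤ) (w us vs : ℕ) (ρ : ℤ) : Prop :=
  ∀ u v : ℕ, u ≡ us [MOD 128] → v ≡ vs [MOD 128] →
    ∃ h : ℤ, GG a b u v = w * h ∧ h ≡ ρ [ZMOD 8]

theorem sq_modEq_one {x : ℤ} (hx : ¬ (2:ℤ) ∣ x) : x ^ 2 ≡ 1 [ZMOD 8] := by
  have h1 : x % 8 = 1 ∨ x % 8 = 3 ∨ x % 8 = 5 ∨ x % 8 = 7 := by omega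
  have h2 : x ≡ x % 8 [ZMOD 8] := (Int.mod_modEq x 8).symm
  rcases h1 with h | h | h | h <;> rw [h] at h2 <;> have := h2.pow 2 <;> norm_num at this <;>
    exact this.trans (by decide)

/-- Squares modulo `128`. -/
theorem exists_sq {c : ℤ} (hc : c ≡ 1 [ZMOD 8]) :
    ∃ v : ℕ, ¬ 2 ∣ v ∧ ((v:ℤ)) ^ 2 ≡ c [ZMOD 128] := by
  have key : ∀ i : Fin 16, ∃ v : Fin 128, ¬ 2 ∣ (v : ℕ) ∧ ((v : ℕ) ^ 2) % 128 = 1 + 8 * (i : ℕ) := by
    decide +kernel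
  have h1 : 0 ≤ (c % 128) := Int.emod_nonneg _ (by norm_num)
  have h2 : c % 128 < 128 := Int.emod_lt_of_pos _ (by norm_num)
  have h3 : (c % 128) % 8 = 1 := by
    have : c % 8 = 1 := hc
    omega
  obtain ⟨v, hv1, hv2⟩ := key ⟨((c % 128) / 8).toNat, by omega⟩
  refine ⟨v, hv1, ?_⟩
  simp only at hv2
  have h4 : (((v : ℕ) : ℤ)) ^ 2 % 128 = c % 128 := by
    have h5 : ((((v : ℕ) ^ 2) % 128 : ℕ) : ℤ) = ((1 + 8 * ((c % 128) / 8).toNat : ℕ) : ℤ) := by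
      rw [hv2]
    push_cast at h5
    omega
  exact h4

/-- The inverse of an odd number. -/
theorem exists_inv {a : ℤ} (ha : ¬ (2:ℤ) ∣ a) : ∃ a' : ℤ, a * a' ≡ 1 [ZMOD 128] := by
  have h1 : IsCoprime (2:ℤ) a := (Prime.coprime_iff_not_dvd Int.prime_two).2 ha
  have h2 : IsCoprime ((2:ℤ) ^ 7) a := h1.pow_left
  obtain ⟨x, y, hxy⟩ := h2
  refine ⟨y, ?_⟩
  rw [Int.modEq_iff_dvd]
  refine ⟨x, ?_⟩
  have : (2:ℤ)^7 = 128 := by norm_num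
  rw [this] at hxy
  linear_combination -hxy

/-- Odd arguments. -/
theorem loc_odd {a b : ℤ} {w vs : ℕ} {τ : ℤ} (hw : 8 * w ∣ 128) (hvs : ¬ 2 ∣ vs)
    (h : a * (vs:ℤ) ^ 2 - b ≡ w * τ [ZMOD (8 * w : ℕ)]) :
    Loc a b w 1 vs (τ * ((2 * a + b) * (a + 2 * b))) := by
  intro u v hu hv
  have hu1 : (u:ℤ) ≡ 1 [ZMOD 128] := by
    have := (Int.natCast_modEq_iff).2 hu
    exact_mod_cast this
  have hv1 : (v:ℤ) ≡ vs [ZMOD 128] := by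
    have := (Int.natCast_modEq_iff).2 hv
    exact_mod_cast this
  have hw' : ((8 * w : ℕ) : ℤ) ∣ 128 := by exact_mod_cast hw
  have h1 : a * (v:ℤ)^2 - b * (u:ℤ)^2 ≡ w * τ [ZMOD (8 * w : ℕ)] := by
    have e1 := ((hv1.pow 2).mul_left a).sub ((hu1.pow 2).mul_left b)
    have e2 : a * (v:ℤ)^2 - b * (u:ℤ)^2 ≡ a * (vs:ℤ)^2 - b * 1 ^ 2 [ZMOD (8 * w : ℕ)] :=
      e1.of_dvd hw'
    rw [one_pow, mul_one] at e2
    exact e2.trans h
  obtain ⟨k, hk⟩ := (Int.modEq_iff_dvd.1 h1.symm)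
  have hu2 : ¬ (2:ℤ) ∣ (u:ℤ) := by
    intro h
    have := (hu1.of_dvd (show (2:ℤ) ∣ 128 by norm_num)).dvd_iff.1 h
    omega
  have hv2 : ¬ (2:ℤ) ∣ (v:ℤ) := by
    intro h
    have h2 := (hv1.of_dvd (show (2:ℤ) ∣ 128 by norm_num)).dvd_iff.1 h
    exact hvs (by exact_mod_cast h2)
  have su := sq_modEq_one hu2
  have sv := sq_modEq_one hv2
  refine ⟨(τ + 8 * k) * ((2 * a * (v:ℤ)^2 + b * (u:ℤ)^2) * (a * (v:ℤ)^2 + 2 * b * (u:ℤ)^2)), ?_, ?_⟩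
  · have e : a * (v:ℤ)^2 - b * (u:ℤ)^2 = w * (τ + 8 * k) := by
      push_cast at hk
      linear_combination hk
    unfold GG
    rw [e]
    ring
  · have e1 : τ + 8 * k ≡ τ [ZMOD 8] := by
      rw [Int.modEq_iff_dvd]; exact ⟨-k, by ring⟩
    have e2 := ((sv.mul_left (2 * a)).add (su.mul_left b))
    have e3 := ((sv.mul_left a).add (su.mul_left (2 * b)))
    simp only [mul_one] at e2 e3
    exact e1.mul (e2.mul e3)

/-- `b ≡ a + 4 mod 8`. -/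
theorem loc_A1 {a b ρ : ℤ} (ha : ¬ (2:ℤ) ∣ a) (hb : b ≡ a + 4 [ZMOD 8]) (hρ : ¬ (2:ℤ) ∣ ρ) :
    ∃ vs : ℕ, Loc a b 4 1 vs ρ := by
  obtain ⟨a', ha'⟩ := exists_inv ha
  have h8 : a * a' ≡ 1 [ZMOD 8] := ha'.of_dvd (by norm_num)
  have hc : (b + 20 * ρ) * a' ≡ 1 [ZMOD 8] := by
    have h1 : b + 20 * ρ ≡ a [ZMOD 8] := by
      have h2 : b + 20 * ρ ≡ a + 4 + 20 * ρ [ZMOD 8] := hb.add_right _
      refine h2.trans ?_
      rw [Int.modEq_iff_dvd]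
      have : (2:ℤ) ∣ ρ + 1 := by omega
      obtain ⟨k, hk⟩ := this
      exact ⟨-5 * k + 2, by linear_combination - 20 * hk⟩
    exact (h1.mul_right a').trans h8
  obtain ⟨vs, hvs, hsq⟩ := exists_sq hc
  refine ⟨vs, ?_⟩
  have h1 : a * (vs:ℤ)^2 - b ≡ (4:ℕ) * (5 * ρ) [ZMOD (8 * 4 : ℕ)] := by
    have e1 : a * (vs:ℤ)^2 ≡ a * ((b + 20 * ρ) * a') [ZMOD 128] := hsq.mul_left a
    have e2 : a * ((b + 20 * ρ) * a') ≡ (b + 20 * ρ) [ZMOD 128] := by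
      have := ha'.mul_right (b + 20 * ρ)
      rw [one_mul] at this
      refine Int.ModEq.trans ?_ this
      rw [show a * ((b + 20 * ρ) * a') = a * a' * (b + 20 * ρ) by ring]
    have e3 := (e1.trans e2).sub_right b
    have e4 : a * (vs:ℤ)^2 - b ≡ (b + 20 * ρ) - b [ZMOD (8 * 4 : ℕ)] := e3.of_dvd (by norm_num)
    refine e4.trans ?_
    rw [show (b + 20 * ρ) - b = ((4:ℕ):ℤ) * (5 * ρ) by push_cast; ring]
  have h2 := loc_odd (by norm_num) hvs h1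
  intro u v hu hv
  obtain ⟨h, hh1, hh2⟩ := h2 u v hu hv
  refine ⟨h, hh1, hh2.trans ?_⟩
  have sa := sq_modEq_one ha
  have e1 : (2 * a + b) * (a + 2 * b) ≡ (2 * a + (a + 4)) * (a + 2 * (a + 4)) [ZMOD 8] :=
    ((hb.add_left (2 * a))).mul ((hb.mul_left 2).add_left a)
  have e2 : (2 * a + (a + 4)) * (a + 2 * (a + 4)) ≡ 5 [ZMOD 8] := by
    have : (2 * a + (a + 4)) * (a + 2 * (a + 4)) = 9 * a ^ 2 + 36 * a + 32 := by ring
    rw [this]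
    have h3 : 9 * a ^ 2 + 36 * a + 32 ≡ 9 * 1 + 36 * a + 32 [ZMOD 8] :=
      (((sa.mul_left 9).add_right _).add_right _)
    refine h3.trans ?_
    rw [Int.modEq_iff_dvd]
    have : (2:ℤ) ∣ a + 1 := by omega
    obtain ⟨k, hk⟩ := this
    exact ⟨-9 * k, by linear_combination -36 * hk⟩
  have e3 := (e1.trans e2).mul_left (5 * ρ)
  refine e3.trans ?_
  rw [Int.modEq_iff_dvd]
  exact ⟨-3 * ρ, by ring⟩

/-- `b ≡ a mod 8`. -/
theorem loc_A2 {a b ρ : ℤ} {w : ℕ} (hw : w = 8 ∨ w = 16) (ha : ¬ (2:ℤ) ∣ a)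
    (hb : b ≡ a [ZMOD 8]) : ∃ vs : ℕ, Loc a b w 1 vs ρ := by
  obtain ⟨a', ha'⟩ := exists_inv ha
  have h8 : a * a' ≡ 1 [ZMOD 8] := ha'.of_dvd (by norm_num)
  have hw8 : (8:ℤ) ∣ w := by rcases hw with h | h <;> rw [h] <;> norm_num
  have hw128 : 8 * w ∣ 128 := by rcases hw with h | h <;> rw [h] <;> norm_num
  have hc : (b + w * ρ) * a' ≡ 1 [ZMOD 8] := by
    have h1 : b + w * ρ ≡ a [ZMOD 8] := by
      obtain ⟨k, hk⟩ := hw8
      rw [hk]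
      refine Int.ModEq.trans ?_ hb
      rw [Int.modEq_iff_dvd]
      exact ⟨-(k * ρ), by ring⟩
    exact (h1.mul_right a').trans h8
  obtain ⟨vs, hvs, hsq⟩ := exists_sq hc
  refine ⟨vs, ?_⟩
  have h1 : a * (vs:ℤ)^2 - b ≡ w * ρ [ZMOD (8 * w : ℕ)] := by
    have e1 : a * (vs:ℤ)^2 ≡ a * ((b + w * ρ) * a') [ZMOD 128] := hsq.mul_left a
    have e2 : a * ((b + w * ρ) * a') ≡ (b + w * ρ) [ZMOD 128] := by
      have := ha'.mul_right (b + w * ρ)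
      rw [one_mul] at this
      refine Int.ModEq.trans ?_ this
      rw [show a * ((b + w * ρ) * a') = a * a' * (b + w * ρ) by ring]
    have e3 := (e1.trans e2).sub_right b
    have e4 : a * (vs:ℤ)^2 - b ≡ (b + w * ρ) - b [ZMOD (8 * w : ℕ)] :=
      e3.of_dvd (by exact_mod_cast hw128)
    refine e4.trans ?_
    rw [show (b + w * ρ) - b = (w:ℤ) * ρ by ring]
  have h2 := loc_odd hw128 hvs h1
  intro u v hu hv
  obtain ⟨h, hh1, hh2⟩ := h2 u v hu hv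
  refine ⟨h, hh1, hh2.trans ?_⟩
  have sa := sq_modEq_one ha
  have e1 : (2 * a + b) * (a + 2 * b) ≡ (2 * a + a) * (a + 2 * a) [ZMOD 8] :=
    ((hb.add_left (2 * a))).mul ((hb.mul_left 2).add_left a)
  have e2 : (2 * a + a) * (a + 2 * a) ≡ 1 [ZMOD 8] := by
    have : (2 * a + a) * (a + 2 * a) = 9 * a ^ 2 := by ring
    rw [this]
    exact (sa.mul_left 9).trans (by decide)
  have e3 := (e1.trans e2).mul_left ρ
  rw [mul_one] at e3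
  exact e3

/-- `b = 2 b'`, `v ≡ 0 mod 4`. -/
theorem loc_B {a b' : ℤ} (ha : ¬ (2:ℤ) ∣ a) (hb : ¬ (2:ℤ) ∣ b') (e : ℕ) :
    Loc a (2 * b') 16 1 (4 * e) (-(b' + 4 * e ^ 2)) := by
  intro u v hu hv
  have hu1 : (u:ℤ) ≡ 1 [ZMOD 128] := by
    have := (Int.natCast_modEq_iff).2 hu
    exact_mod_cast this
  have hv1 : (v:ℤ) ≡ 4 * e [ZMOD 128] := by
    have := (Int.natCast_modEq_iff).2 hv
    push_cast at this
    exact this
  have hu2 : ¬ (2:ℤ) ∣ (u:ℤ) := by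
    intro h
    have := (hu1.of_dvd (show (2:ℤ) ∣ 128 by norm_num)).dvd_iff.1 h
    omega
  obtain ⟨k, hk⟩ := Int.modEq_iff_dvd.1 hv1.symm
  set y : ℤ := e + 32 * k with hy
  have hv3 : (v:ℤ) = 4 * y := by rw [hy]; linear_combination hk
  have su := sq_modEq_one hu2
  have sb := sq_modEq_one hb
  refine ⟨(8 * a * y ^ 2 - b' * (u:ℤ)^2) * (16 * a * y ^ 2 + b' * (u:ℤ)^2) *
    (4 * a * y ^ 2 + b' * (u:ℤ)^2), ?_, ?_⟩
  · unfold GG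
    rw [hv3]
    push_cast
    ring
  · have e1 : 8 * a * y ^ 2 - b' * (u:ℤ)^2 ≡ 0 - b' * 1 [ZMOD 8] := by
      refine Int.ModEq.sub ?_ (su.mul_left b')
      rw [Int.modEq_iff_dvd]; exact ⟨-(a * y ^ 2), by ring⟩
    have e2 : 16 * a * y ^ 2 + b' * (u:ℤ)^2 ≡ 0 + b' * 1 [ZMOD 8] := by
      refine Int.ModEq.add ?_ (su.mul_left b')
      rw [Int.modEq_iff_dvd]; exact ⟨-(2 * a * y ^ 2), by ring⟩
    have e3 : 4 * a * y ^ 2 + b' * (u:ℤ)^2 ≡ 4 * (e:ℤ) ^ 2 + b' * 1 [ZMOD 8] := by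
      refine Int.ModEq.add ?_ (su.mul_left b')
      rw [Int.modEq_iff_dvd]
      obtain ⟨l, hl⟩ : (2:ℤ) ∣ 1 - a := by omega
      have : 4 * (e:ℤ) ^ 2 - 4 * a * y ^ 2 = 8 * (l * (e:ℤ)^2 - a * (32 * k * e + 16 * k * (32 * k))) := by
        rw [hy]
        linear_combination 4 * (e:ℤ)^2 * hl
      rw [this]
      exact Dvd.intro _ rfl
    refine ((e1.mul e2).mul e3).trans ?_
    have e4 : (0 - b' * 1) * (0 + b' * 1) * (4 * (e:ℤ) ^ 2 + b' * 1) =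
      b' ^ 2 * (-(b' + 4 * (e:ℤ) ^ 2)) := by ring
    rw [e4]
    have := sb.mul_right (-(b' + 4 * (e:ℤ) ^ 2))
    rwa [one_mul] at this

/-- `v` even, `u` odd, `a`, `b` odd. -/
theorem loc_C1 {a b : ℤ} (ha : ¬ (2:ℤ) ∣ a) (hb : ¬ (2:ℤ) ∣ b) (e : ℕ) (he : e = 0 ∨ e = 1) :
    Loc a b 2 1 (2 * e) (2 * a * e - b) := by
  intro u v hu hv
  have hu1 : (u:ℤ) ≡ 1 [ZMOD 128] := by
    have := (Int.natCast_modEq_iff).2 hu
    exact_mod_cast this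
  have hv1 : (v:ℤ) ≡ 2 * e [ZMOD 128] := by
    have := (Int.natCast_modEq_iff).2 hv
    push_cast at this
    exact this
  have hu2 : ¬ (2:ℤ) ∣ (u:ℤ) := by
    intro h
    have := (hu1.of_dvd (show (2:ℤ) ∣ 128 by norm_num)).dvd_iff.1 h
    omega
  obtain ⟨k, hk⟩ := Int.modEq_iff_dvd.1 hv1.symm
  set y : ℤ := e + 64 * k with hy
  have hv3 : (v:ℤ) = 2 * y := by rw [hy]; linear_combination hk
  have su := sq_modEq_one hu2
  have sa := sq_modEq_one ha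
  have sb := sq_modEq_one hb
  have hy8 : y ≡ e [ZMOD 8] := by
    rw [hy, Int.modEq_iff_dvd]; exact ⟨-8 * k, by ring⟩
  have hy2 : y ^ 2 ≡ e [ZMOD 8] := by
    refine (hy8.pow 2).trans ?_
    rcases he with h | h <;> rw [h] <;> norm_num
  refine ⟨(4 * a * y ^ 2 - b * (u:ℤ)^2) * (8 * a * y ^ 2 + b * (u:ℤ)^2) *
    (2 * a * y ^ 2 + b * (u:ℤ)^2), ?_, ?_⟩
  · unfold GG
    rw [hv3]
    push_cast
    ring
  · have e1 := ((hy2.mul_left (4 * a)).sub (su.mul_left b))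
    have e2 := ((hy2.mul_left (8 * a)).add (su.mul_left b))
    have e3 := ((hy2.mul_left (2 * a)).add (su.mul_left b))
    refine ((e1.mul e2).mul e3).trans ?_
    simp only [mul_one]
    have hee : ((e:ℤ)) ^ 2 = e := by rcases he with h | h <;> rw [h] <;> norm_num
    -- (4ae - b)(8ae + b)(2ae + b) ≡ 2ae - b
    have e5 : (4 * a * (e:ℤ) - b) * (8 * a * e + b) * (2 * a * e + b) =
        b ^ 2 * (2 * a * e - b) + 8 * (8 * (a * e) ^ 3 + 3 * (a * e) ^ 2 * b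
          - (a * e) * b ^ 2) := by ring
    rw [e5]
    have e6 := (sb.mul_right (2 * a * (e:ℤ) - b)).add_right
      (8 * (8 * (a * e) ^ 3 + 3 * (a * e) ^ 2 * b - (a * e) * b ^ 2))
    refine e6.trans ?_
    rw [Int.modEq_iff_dvd]
    exact ⟨-(8 * (a * e) ^ 3 + 3 * (a * e) ^ 2 * b - (a * e) * b ^ 2), by ring⟩

/-- `u ≡ 0 mod 4`, `v` odd, `a`, `b` odd. -/
theorem loc_C2 {a b : ℤ} (ha : ¬ (2:ℤ) ∣ a) : Loc a b 2 4 1 a := by
  intro u v hu hv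
  have hu1 : (u:ℤ) ≡ 4 [ZMOD 128] := by
    have := (Int.natCast_modEq_iff).2 hu
    exact_mod_cast this
  have hv1 : (v:ℤ) ≡ 1 [ZMOD 128] := by
    have := (Int.natCast_modEq_iff).2 hv
    exact_mod_cast this
  have hv2 : ¬ (2:ℤ) ∣ (v:ℤ) := by
    intro h
    have := (hv1.of_dvd (show (2:ℤ) ∣ 128 by norm_num)).dvd_iff.1 h
    omega
  obtain ⟨k, hk⟩ := Int.modEq_iff_dvd.1 hu1.symm
  set y : ℤ := 1 + 32 * k with hy
  have hu3 : (u:ℤ) = 4 * y := by rw [hy]; linear_combination hk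
  have sv := sq_modEq_one hv2
  have sa := sq_modEq_one ha
  refine ⟨(a * (v:ℤ)^2 - 16 * b * y ^ 2) * (a * (v:ℤ)^2 + 8 * b * y ^ 2) *
    (a * (v:ℤ)^2 + 32 * b * y ^ 2), ?_, ?_⟩
  · unfold GG
    rw [hu3]
    push_cast
    ring
  · have e1 : a * (v:ℤ)^2 - 16 * b * y ^ 2 ≡ a * 1 - 0 [ZMOD 8] := by
      refine Int.ModEq.sub (sv.mul_left a) ?_
      rw [Int.modEq_iff_dvd]; exact ⟨-(2 * b * y ^ 2), by ring⟩
    have e2 : a * (v:ℤ)^2 + 8 * b * y ^ 2 ≡ a * 1 + 0 [ZMOD 8] := by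
      refine Int.ModEq.add (sv.mul_left a) ?_
      rw [Int.modEq_iff_dvd]; exact ⟨-(b * y ^ 2), by ring⟩
    have e3 : a * (v:ℤ)^2 + 32 * b * y ^ 2 ≡ a * 1 + 0 [ZMOD 8] := by
      refine Int.ModEq.add (sv.mul_left a) ?_
      rw [Int.modEq_iff_dvd]; exact ⟨-(4 * b * y ^ 2), by ring⟩
    refine ((e1.mul e2).mul e3).trans ?_
    have e4 : (a * 1 - 0) * (a * 1 + 0) * (a * 1 + 0) = a ^ 2 * a := by ring
    rw [e4]
    have := sa.mul_right a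
    rwa [one_mul] at this

end Pool.Agent.H549.FS
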