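import Pool.Agent.H549.FS.Rep

/-! Pairs `k₁ m`, `k₂ m` of squarefree congruent numbers. -/

namespace Pool.Agent.H549.FS

open Finset

theorem pick8 : ∀ a b ρ : ZMod 8, a * 4 = 4 → b * 4 = 4 → ρ * 4 = 4 → b ≠ a → -b ≠ a → ρ ≠ a →
    (ρ = b ∨ ρ = -b ∨ ρ = 2 * a - b ∨ ρ = 2 * a + b) := by decide

theorem four_mul_odd {x : ℤ} (hx : ¬ (2:ℤ) ∣ x) : (x : ZMod 8) * 4 = 4 := by
  have h1 : (8:ℤ) ∣ x * 4 - 4 := by omega
  have h2 := (ZMod.intCast_zmod_eq_zero_iff_dvd (x * 4 - 4) 8).2 h1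
  push_cast at h2
  exact sub_eq_zero.1 h2

theorem pick {a b ρ : ℤ} (ha : ¬ (2:ℤ) ∣ a) (hb : ¬ (2:ℤ) ∣ b) (hρ : ¬ (2:ℤ) ∣ ρ)
    (h1 : ¬ (8:ℤ) ∣ b - a) (h2 : ¬ (8:ℤ) ∣ -b - a) (h3 : ¬ (8:ℤ) ∣ ρ - a) :
    (8:ℤ) ∣ ρ - b ∨ (8:ℤ) ∣ ρ + b ∨ (8:ℤ) ∣ ρ - (2 * a - b) ∨ (8:ℤ) ∣ ρ - (2 * a + b) := by
  have c : ∀ x : ℤ, (8:ℤ) ∣ x ↔ (x : ZMod 8) = 0 := fun x =>
    (ZMod.intCast_zmod_eq_zero_iff_dvd x 8).symm
  rw [c] at h1 h2 h3
  rw [c, c, c, c]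
  push_cast at h1 h2 h3 ⊢
  have := pick8 a b ρ (four_mul_odd ha) (four_mul_odd hb) (four_mul_odd hρ)
    (fun h => h1 (by rw [h]; ring)) (fun h => h2 (by rw [← h]; ring)) (fun h => h3 (by rw [h]; ring))
  rcases this with h | h | h | h
  · left; rw [h]; ring
  · right; left; rw [h]; ring
  · right; right; left; rw [h]; ring
  · right; right; right; rw [h]; ring

/-- The behaviour at `3`. -/
theorem split3 {k₁ k₂ : ℕ} (h₁ : Squarefree k₁) (h₂ : Squarefree k₂) (h : Nat.Coprime k₁ k₂) :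
    ∃ a b e s₁ s₂ : ℕ, 0 < a ∧ 0 < b ∧ Nat.Coprime a b ∧ (e = 1 ∨ e = 3) ∧
      (s₁ = 1 ∨ s₁ = 3) ∧ (s₂ = 1 ∨ s₂ = 3) ∧ 3 * a = k₁ * e * s₁ ^ 2 ∧ 3 * b = k₂ * e * s₂ ^ 2 ∧
      ∀ n : ℕ, Nat.Coprime n (a * b) → Nat.Coprime n 3 → Nat.Coprime (e * n) (k₁ * k₂) := by
  have p1 : 0 < k₁ := Nat.pos_of_ne_zero h₁.ne_zero
  have p2 : 0 < k₂ := Nat.pos_of_ne_zero h₂.ne_zero
  have cp3 : ∀ x : ℕ, ¬ 3 ∣ x → Nat.Coprime 3 x := fun x hx =>
    (Nat.Prime.coprime_iff_not_dvd Nat.prime_three).2 hx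
  by_cases c1 : 3 ∣ k₁
  · obtain ⟨a, ha⟩ := c1
    have hna : ¬ 3 ∣ a := by
      rintro ⟨x, hx⟩
      have : 3 * 3 ∣ k₁ := ⟨x, by rw [ha, hx]; ring⟩
      have := h₁ 3 this
      norm_num at this
    have hck : Nat.Coprime a k₂ := Nat.Coprime.coprime_dvd_left ⟨3, by rw [ha]; ring⟩ h
    refine ⟨a, 3 * k₂, 1, 1, 3, by omega, by omega, ?_, Or.inl rfl, Or.inl rfl, Or.inr rfl,
      by rw [ha]; ring, by ring, ?_⟩
    · exact Nat.Coprime.mul_right (cp3 a hna).symm hck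
    · intro n hn _
      rw [one_mul, ha]
      rwa [show 3 * a * k₂ = a * (3 * k₂) by ring]
  · by_cases c2 : 3 ∣ k₂
    · obtain ⟨b, hb⟩ := c2
      have hnb : ¬ 3 ∣ b := by
        rintro ⟨x, hx⟩
        have : 3 * 3 ∣ k₂ := ⟨x, by rw [hb, hx]; ring⟩
        have := h₂ 3 this
        norm_num at this
      have hck : Nat.Coprime k₁ b := Nat.Coprime.coprime_dvd_right ⟨3, by rw [hb]; ring⟩ h
      refine ⟨3 * k₁, b, 1, 3, 1, by omega, by omega, ?_, Or.inl rfl, Or.inr rfl, Or.inl rfl,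
        by ring, by rw [hb]; ring, ?_⟩
      · exact Nat.Coprime.mul_left (cp3 b hnb) hck
      · intro n hn _
        rw [one_mul, hb]
        rwa [show k₁ * (3 * b) = 3 * k₁ * b by ring]
    · refine ⟨k₁, k₂, 3, 1, 1, p1, p2, h, Or.inr rfl, Or.inl rfl, Or.inl rfl, by ring, by ring, ?_⟩
      intro n hn _
      refine Nat.Coprime.mul_left ?_ hn
      exact Nat.Coprime.mul_right (cp3 _ c1) (cp3 _ c2)

/-- From the count of the values to the count of the pairs: `m = g e n`, `w = g q²`. -/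
theorem pairs_of_loc {k₁ k₂ a b e s₁ s₂ g q : ℕ} (ha : 0 < a) (hb : 0 < b) (hab : Nat.Coprime a b)
    (hg : g = 1 ∨ g = 2) (hq : 0 < q) (hwle : g * q ^ 2 ≤ 128)
    (he : e = 1 ∨ e = 3) (hs₁ : s₁ = 1 ∨ s₁ = 3) (hs₂ : s₂ = 1 ∨ s₂ = 3)
    (h1 : 3 * a = k₁ * e * s₁ ^ 2) (h2 : 3 * b = k₂ * e * s₂ ^ 2)
    (hgk : Nat.Coprime g (k₁ * k₂)) (hk₁ : Squarefree k₁) (hk₂ : Squarefree k₂)
    (hcop : ∀ n : ℕ, Nat.Coprime n (a * b) → Nat.Coprime n 3 → Nat.Coprime (e * n) (k₁ * k₂))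
    {B : ℤ} (hB : B = b ∨ B = -b) {us vs : ℕ} (hodd : ¬ (2 ∣ us ∧ 2 ∣ vs)) {ρ : ℤ}
    (hρ : ¬ (2:ℤ) ∣ ρ) (hL : Loc a B (g * q ^ 2) us vs ρ) {r : ℤ}
    (hr : g * e * ρ ≡ r [ZMOD (8 * g : ℕ)]) :
    ∃ c : ℝ, 0 < c ∧ ∃ X₀ : ℝ, ∀ X : ℝ, X₀ ≤ X →
      c * X ^ (1 / 3 : ℝ) ≤ (Set.ncard {m : ℕ | (m : ℝ) ≤ X ∧ (m : ℤ) ≡ r [ZMOD (8 * g : ℕ)] ∧
        Squarefree (k₁ * m) ∧ Squarefree (k₂ * m) ∧ Nat.Coprime m (k₁ * k₂) ∧
        IsCongruent (k₁ * m) ∧ IsCongruent (k₂ * m)} : ℝ) := by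
  classical
  have haz : (0:ℤ) < a := by exact_mod_cast ha
  have hbz : (0:ℤ) < b := by exact_mod_cast hb
  have hBz : B ≠ 0 := by rcases hB with h | h <;> rw [h] <;> omega
  have hBabs : |B| = b := by
    rcases hB with h | h <;> rw [h]
    · exact abs_of_pos hbz
    · rw [abs_neg]; exact abs_of_pos hbz
  have hBn : B.natAbs = b := by
    have := Int.abs_eq_natAbs B
    rw [hBabs] at this
    exact_mod_cast this.symm
  have hcz : IsCoprime (a:ℤ) B := by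
    have : IsCoprime (a:ℤ) (b:ℤ) := Nat.isCoprime_iff_coprime.2 hab
    rcases hB with h | h <;> rw [h]
    · exact this
    · exact this.neg_right
  have hw : 0 < g * q ^ 2 := by
    have : 0 < g := by omega
    positivity
  obtain ⟨c, hc, X₀, hX₀⟩ := count_rep haz hBz hcz hw hwle hodd hρ hL
  have hg0 : 0 < g := by omega
  have he0 : 0 < e := by omega
  refine ⟨c * (1 / (6:ℝ)) ^ (1 / 3 : ℝ), by positivity, max (6 * X₀) 0, fun X hX => ?_⟩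
  have hX1 : 6 * X₀ ≤ X := (le_max_left _ _).trans hX
  have hX2 : 0 ≤ X := (le_max_right _ _).trans hX
  obtain ⟨T, hT1, hT2⟩ := hX₀ (X / 6) (by linarith)
  have hfin : {m : ℕ | (m : ℝ) ≤ X ∧ (m : ℤ) ≡ r [ZMOD (8 * g : ℕ)] ∧
        Squarefree (k₁ * m) ∧ Squarefree (k₂ * m) ∧ Nat.Coprime m (k₁ * k₂) ∧
        IsCongruent (k₁ * m) ∧ IsCongruent (k₂ * m)}.Finite := by
    refine (Set.finite_Iic ⌊X⌋₊).subset ?_
    intro m hm
    exact Nat.le_floor hm.1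
  have hinj : Function.Injective (fun n : ℕ => g * e * n) := by
    intro x y hxy
    exact Nat.eq_of_mul_eq_mul_left (Nat.mul_pos hg0 he0) hxy
  have hsub : ((T.image (fun n => g * e * n) : Finset ℕ) : Set ℕ) ⊆
      {m : ℕ | (m : ℝ) ≤ X ∧ (m : ℤ) ≡ r [ZMOD (8 * g : ℕ)] ∧
        Squarefree (k₁ * m) ∧ Squarefree (k₂ * m) ∧ Nat.Coprime m (k₁ * k₂) ∧
        IsCongruent (k₁ * m) ∧ IsCongruent (k₂ * m)} := by
    intro m hm
    rw [Finset.mem_coe, mem_image] at hm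
    obtain ⟨n, hn, rfl⟩ := hm
    obtain ⟨n1, n2, n3, n4, n5, n6⟩ := hT2 n hn
    have hnpos : 0 < n := Nat.pos_of_ne_zero n2.ne_zero
    rw [Int.natAbs_mul, hBn, Int.natAbs_natCast] at n4
    have c1 : Nat.Coprime (e * n) (k₁ * k₂) := hcop n n4 n5
    have c2 : Nat.Coprime (g * (e * n)) (k₁ * k₂) := Nat.Coprime.mul_left hgk c1
    have hnodd : ¬ 2 ∣ n := by
      intro h
      apply hρ
      have h3 : (n:ℤ) ≡ ρ [ZMOD 2] := n3.of_dvd (by norm_num)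
      exact h3.dvd_iff.1 (by exact_mod_cast h)
    have sq1 : Squarefree (e * n) := by
      rcases he with h | h
      · rw [h, one_mul]; exact n2
      · rw [h]
        exact (Nat.squarefree_mul n5.symm).2 ⟨Nat.prime_three.squarefree, n2⟩
    have sq2 : Squarefree (g * (e * n)) := by
      rcases hg with h | h
      · rw [h, one_mul]; exact sq1
      · rw [h]
        have : Nat.Coprime 2 (e * n) := by
          refine Nat.Coprime.mul_right ?_ ((Nat.Prime.coprime_iff_not_dvd Nat.prime_two).2 hnodd)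
          rcases he with h | h <;> rw [h] <;> norm_num
        exact (Nat.squarefree_mul this).2 ⟨Nat.prime_two.squarefree, sq1⟩
    have em : g * e * n = g * (e * n) := by ring
    show ((g * e * n : ℕ) : ℝ) ≤ X ∧ ((g * e * n : ℕ) : ℤ) ≡ r [ZMOD (8 * g : ℕ)] ∧
        Squarefree (k₁ * (g * e * n)) ∧ Squarefree (k₂ * (g * e * n)) ∧
        Nat.Coprime (g * e * n) (k₁ * k₂) ∧
        IsCongruent (k₁ * (g * e * n)) ∧ IsCongruent (k₂ * (g * e * n))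
    rw [em]
    refine ⟨?_, ?_, ?_, ?_, c2, ?_, ?_⟩
    · push_cast
      have hn0 : (0:ℝ) ≤ n := by positivity
      have : (g:ℝ) * (e * n) ≤ 6 * n := by
        have h3 : (g:ℝ) * e ≤ 6 := by
          rcases hg with h | h <;> rcases he with h' | h' <;> rw [h, h'] <;> norm_num
        calc (g:ℝ) * (e * n) = (g * e) * n := by ring
          _ ≤ 6 * n := mul_le_mul_of_nonneg_right h3 hn0
      linarith
    · refine Int.ModEq.trans ?_ hr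
      have h3 : ((g * (e * n) : ℕ) : ℤ) = (g:ℤ) * (e * n) := by push_cast; ring
      rw [h3, show (g:ℤ) * e * ρ = (g:ℤ) * (e * ρ) by ring]
      have h4 := (n3.mul_left (e:ℤ)).mul_left' (c := (g:ℤ))
      have h5 : ((8 * g : ℕ) : ℤ) = (g:ℤ) * 8 := by push_cast; ring
      rw [h5]
      exact h4
    · refine (Nat.squarefree_mul ?_).2 ⟨hk₁, sq2⟩
      exact (c2.coprime_dvd_right (Dvd.intro _ rfl)).symm
    · refine (Nat.squarefree_mul ?_).2 ⟨hk₂, sq2⟩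
      exact (c2.coprime_dvd_right (Dvd.intro_left _ rfl)).symm
    · refine n6.congr_left (s := (s₁:ℤ) * q) ?_ ?_
      · refine mul_ne_zero ?_ (by exact_mod_cast hq.ne')
        rcases hs₁ with h | h <;> rw [h] <;> norm_num
      · have h3 : (3:ℤ) * a = k₁ * e * s₁ ^ 2 := by exact_mod_cast h1
        rw [h3]
        push_cast
        ring
    · refine n6.congr_right hBz (s := (s₂:ℤ) * q) ?_ ?_
      · refine mul_ne_zero ?_ (by exact_mod_cast hq.ne')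
        rcases hs₂ with h | h <;> rw [h] <;> norm_num
      · have h3 : (3:ℤ) * b = k₂ * e * s₂ ^ 2 := by exact_mod_cast h2
        rw [hBabs, h3]
        push_cast
        ring
  have hcard : (T.card : ℝ) ≤ (Set.ncard {m : ℕ | (m : ℝ) ≤ X ∧ (m : ℤ) ≡ r [ZMOD (8 * g : ℕ)] ∧
        Squarefree (k₁ * m) ∧ Squarefree (k₂ * m) ∧ Nat.Coprime m (k₁ * k₂) ∧
        IsCongruent (k₁ * m) ∧ IsCongruent (k₂ * m)} : ℝ) := by
    have h3 := Set.ncard_le_ncard hsub hfin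
    rw [Set.ncard_coe_finset, card_image_of_injective _ hinj] at h3
    exact_mod_cast h3
  refine le_trans ?_ (hT1.trans hcard)
  rw [show X / 6 = (1/6:ℝ) * X by ring, Real.mul_rpow (by norm_num) hX2]
  exact le_of_eq (by ring)

/-- Both odd, or the second even. -/
theorem pairs_odd_aux {k₁ k₂ : ℕ} (h₁ : Squarefree k₁) (h₂ : Squarefree k₂) (h : Nat.Coprime k₁ k₂)
    (hodd : ¬ 2 ∣ k₁) {r : ℕ} (hr : ¬ 2 ∣ r) :
    ∃ c : ℝ, 0 < c ∧ ∃ X₀ : ℝ, ∀ X : ℝ, X₀ ≤ X →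
      c * X ^ (1 / 3 : ℝ) ≤ (Set.ncard {m : ℕ | (m : ℝ) ≤ X ∧ (m : ℤ) ≡ r [ZMOD (8 * 1 : ℕ)] ∧
        Squarefree (k₁ * m) ∧ Squarefree (k₂ * m) ∧ Nat.Coprime m (k₁ * k₂) ∧
        IsCongruent (k₁ * m) ∧ IsCongruent (k₂ * m)} : ℝ) := by
  obtain ⟨a, b, e, s₁, s₂, ha, hb, hab, he, hs₁, hs₂, h3a, h3b, hcop⟩ := split3 h₁ h₂ h
  have heo : ¬ 2 ∣ e := by rcases he with h | h <;> rw [h] <;> norm_num
  have hs1o : ¬ 2 ∣ s₁ := by rcases hs₁ with h | h <;> rw [h] <;> norm_num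
  have hao : ¬ 2 ∣ a := by
    intro h2a
    have h3 : 2 ∣ k₁ * e * s₁ ^ 2 := by rw [← h3a]; exact h2a.mul_left 3
    rcases (Nat.prime_two.dvd_mul).1 h3 with h4 | h4
    · rcases (Nat.prime_two.dvd_mul).1 h4 with h5 | h5
      · exact hodd h5
      · exact heo h5
    · exact hs1o (Nat.prime_two.dvd_of_dvd_pow h4)
  have haz : ¬ (2:ℤ) ∣ (a:ℤ) := by intro h; exact hao (by exact_mod_cast h)
  -- the target class
  set ρ : ℤ := (r:ℤ) * e with hρd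
  have hρ : ¬ (2:ℤ) ∣ ρ := by
    intro hd
    have hd' : 2 ∣ r * e := by rw [hρd] at hd; exact_mod_cast hd
    rcases (Nat.prime_two.dvd_mul).1 hd' with h5 | h5
    · exact hr h5
    · exact heo h5
  have hrr : (((1:ℕ):ℤ)) * e * ρ ≡ (r:ℤ) [ZMOD (8 * 1 : ℕ)] := by
    rw [hρd]
    rcases he with h | h <;> rw [h]
    · rw [Int.modEq_iff_dvd]
      exact ⟨0, by push_cast; ring⟩
    · rw [Int.modEq_iff_dvd]
      exact ⟨-r, by push_cast; ring⟩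
  by_cases hbo : 2 ∣ b
  · -- `b = 2 b''`
    obtain ⟨b'', hb''⟩ := hbo
    have hk2 : 2 ∣ k₂ := by
      have h3 : 2 ∣ k₂ * e * s₂ ^ 2 := by rw [← h3b, hb'']; exact ⟨3 * b'', by ring⟩
      have hs2o : ¬ 2 ∣ s₂ := by rcases hs₂ with h | h <;> rw [h] <;> norm_num
      rcases (Nat.prime_two.dvd_mul).1 h3 with h4 | h4
      · rcases (Nat.prime_two.dvd_mul).1 h4 with h5 | h5
        · exact h5
        · exact absurd h5 heo
      · exact absurd (Nat.prime_two.dvd_of_dvd_pow h4) hs2o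
    have hb''o : ¬ 2 ∣ b'' := by
      rintro ⟨x, hx⟩
      -- then `4 ∣ k₂`
      have h4 : 4 ∣ k₂ * (e * s₂ ^ 2) := ⟨3 * x, by
        have : k₂ * (e * s₂ ^ 2) = 3 * b := by rw [h3b]; ring
        rw [this, hb'', hx]; ring⟩
      have hc4 : Nat.Coprime 4 (e * s₂ ^ 2) := by
        rcases he with h | h <;> rcases hs₂ with h' | h' <;> rw [h, h'] <;> norm_num
      have h5 : 2 * 2 ∣ k₂ := hc4.dvd_of_dvd_mul_right h4
      have := h₂ 2 h5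
      norm_num at this
    -- sign
    obtain ⟨b', hb', hbm⟩ : ∃ b' : ℤ, (b' = b'' ∨ b' = -b'') ∧ (4:ℤ) ∣ b' + ρ := by
      have h2b : ¬ (2:ℤ) ∣ (b'':ℤ) := by intro h; exact hb''o (by exact_mod_cast h)
      by_cases hm : (4:ℤ) ∣ (b'':ℤ) + ρ
      · exact ⟨b'', Or.inl rfl, hm⟩
      · refine ⟨-b'', Or.inr rfl, ?_⟩
        omega
    have hb'o : ¬ (2:ℤ) ∣ b' := by
      have h2b : ¬ (2:ℤ) ∣ (b'':ℤ) := by intro h; exact hb''o (by exact_mod_cast h)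
      rcases hb' with h | h <;> rw [h] <;> omega
    obtain ⟨ee, hee⟩ : ∃ ee : ℕ, -(b' + 4 * (ee:ℤ) ^ 2) ≡ ρ [ZMOD 8] := by
      by_cases hm : (8:ℤ) ∣ b' + ρ
      · refine ⟨0, ?_⟩
        rw [Int.modEq_iff_dvd]
        obtain ⟨k, hk⟩ := hm
        exact ⟨k, by push_cast; linear_combination hk⟩
      · refine ⟨1, ?_⟩
        rw [Int.modEq_iff_dvd]
        have : (8:ℤ) ∣ b' + ρ + 4 := by omega
        obtain ⟨k, hk⟩ := this
        exact ⟨k, by push_cast; linear_combination hk⟩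
    have hL := loc_B haz hb'o ee
    have hL' : Loc a (2 * b') (1 * 4 ^ 2) 1 (4 * ee) ρ := by
      intro u v hu hv
      obtain ⟨x, hx1, hx2⟩ := hL u v hu hv
      exact ⟨x, by rw [hx1]; norm_num, hx2.trans hee⟩
    have hB : (2 * b' = (b:ℤ) ∨ 2 * b' = -(b:ℤ)) := by
      rw [hb'']
      push_cast
      rcases hb' with h | h <;> rw [h]
      · left; ring
      · right; ring
    exact pairs_of_loc ha hb hab (Or.inl rfl) (by norm_num) (by norm_num) he hs₁ hs₂ h3a h3b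
      (Nat.coprime_one_left _) h₁ h₂ hcop hB (by omega) hρ hL' hrr
  · -- `b` odd
    have hbz : ¬ (2:ℤ) ∣ (b:ℤ) := by intro h; exact hbo (by exact_mod_cast h)
    obtain ⟨B, hB, hBm⟩ : ∃ B : ℤ, (B = b ∨ B = -b) ∧ (4:ℤ) ∣ B - a := by
      by_cases hm : (4:ℤ) ∣ (b:ℤ) - a
      · exact ⟨b, Or.inl rfl, hm⟩
      · exact ⟨-b, Or.inr rfl, by omega⟩
    by_cases h8 : (8:ℤ) ∣ B - a
    · have hBa : B ≡ (a:ℤ) [ZMOD 8] := (Int.modEq_iff_dvd.2 h8).symm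
      obtain ⟨vs, hL⟩ := loc_A2 (w := 16) (ρ := ρ) (Or.inr rfl) haz hBa
      exact pairs_of_loc (g := 1) (q := 4) ha hb hab (Or.inl rfl) (by norm_num) (by norm_num) he
        hs₁ hs₂ h3a h3b (Nat.coprime_one_left _) h₁ h₂ hcop hB (us := 1) (by omega) hρ hL hrr
    · have hBa : B ≡ (a:ℤ) + 4 [ZMOD 8] := by
        refine (Int.modEq_iff_dvd.2 ?_).symm
        omega
      obtain ⟨vs, hL⟩ := loc_A1 haz hBa hρ
      exact pairs_of_loc (g := 1) (q := 2) ha hb hab (Or.inl rfl) (by norm_num) (by norm_num) he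
        hs₁ hs₂ h3a h3b (Nat.coprime_one_left _) h₁ h₂ hcop hB (us := 1) (by omega) hρ hL hrr

/-- **Pairs, `m` odd.** -/
theorem pairs_odd {k₁ k₂ : ℕ} (h₁ : Squarefree k₁) (h₂ : Squarefree k₂) (h : Nat.Coprime k₁ k₂)
    {r : ℕ} (hr : Odd r) :
    ∃ c : ℝ, 0 < c ∧ ∃ X₀ : ℝ, ∀ X : ℝ, X₀ ≤ X →
      c * X ^ (1 / 3 : ℝ) ≤ (Set.ncard {m : ℕ | (m : ℝ) ≤ X ∧ m ≡ r [MOD 8] ∧
        Squarefree (k₁ * m) ∧ Squarefree (k₂ * m) ∧ Nat.Coprime m (k₁ * k₂) ∧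
        IsCongruent (k₁ * m) ∧ IsCongruent (k₂ * m)} : ℝ) := by
  have hr' : ¬ 2 ∣ r := by
    rw [← even_iff_two_dvd]
    exact Nat.not_even_iff_odd.2 hr
  have hmod : ∀ m : ℕ, ((m : ℤ) ≡ r [ZMOD (8 * 1 : ℕ)]) ↔ m ≡ r [MOD 8] := by
    intro m
    exact Int.natCast_modEq_iff
  by_cases hk : 2 ∣ k₁
  · have hk2 : ¬ 2 ∣ k₂ := fun h2 => Nat.not_coprime_of_dvd_of_dvd (by norm_num) hk h2 h
    obtain ⟨c, hc, X₀, hX₀⟩ := pairs_odd_aux h₂ h₁ h.symm hk2 hr'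
    refine ⟨c, hc, X₀, fun X hX => (hX₀ X hX).trans (le_of_eq ?_)⟩
    congr 2
    ext m
    simp only [Set.mem_ofPred_eq]
    rw [hmod, mul_comm k₂ k₁]
    tauto
  · obtain ⟨c, hc, X₀, hX₀⟩ := pairs_odd_aux h₁ h₂ h hk hr'
    refine ⟨c, hc, X₀, fun X hX => (hX₀ X hX).trans (le_of_eq ?_)⟩
    congr 2
    ext m
    simp only [Set.mem_ofPred_eq]
    rw [hmod]

/-- **Pairs, `m` even.** -/
theorem pairs_even {k₁ k₂ : ℕ} (h₁ : Squarefree k₁) (h₂ : Squarefree k₂) (h : Nat.Coprime k₁ k₂)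
    (ho₁ : Odd k₁) (ho₂ : Odd k₂) {r : ℕ} (hr : Odd r) :
    ∃ c : ℝ, 0 < c ∧ ∃ X₀ : ℝ, ∀ X : ℝ, X₀ ≤ X →
      c * X ^ (1 / 3 : ℝ) ≤ (Set.ncard {m : ℕ | (m : ℝ) ≤ X ∧ m ≡ 2 * r [MOD 16] ∧
        Squarefree (k₁ * m) ∧ Squarefree (k₂ * m) ∧ Nat.Coprime m (k₁ * k₂) ∧
        IsCongruent (k₁ * m) ∧ IsCongruent (k₂ * m)} : ℝ) := by
  have hodd1 : ¬ 2 ∣ k₁ := by rw [← even_iff_two_dvd]; exact Nat.not_even_iff_odd.2 ho₁
  have hodd2 : ¬ 2 ∣ k₂ := by rw [← even_iff_two_dvd]; exact Nat.not_even_iff_odd.2 ho₂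
  have hr' : ¬ 2 ∣ r := by rw [← even_iff_two_dvd]; exact Nat.not_even_iff_odd.2 hr
  have hmod : ∀ m : ℕ, ((m : ℤ) ≡ ((2 * r : ℕ) : ℤ) [ZMOD (8 * 2 : ℕ)]) ↔ m ≡ 2 * r [MOD 16] := by
    intro m
    exact Int.natCast_modEq_iff
  have key : ∃ c : ℝ, 0 < c ∧ ∃ X₀ : ℝ, ∀ X : ℝ, X₀ ≤ X →
      c * X ^ (1 / 3 : ℝ) ≤ (Set.ncard {m : ℕ | (m : ℝ) ≤ X ∧
        (m : ℤ) ≡ ((2 * r : ℕ) : ℤ) [ZMOD (8 * 2 : ℕ)] ∧
        Squarefree (k₁ * m) ∧ Squarefree (k₂ * m) ∧ Nat.Coprime m (k₁ * k₂) ∧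
        IsCongruent (k₁ * m) ∧ IsCongruent (k₂ * m)} : ℝ) := by
    obtain ⟨a, b, e, s₁, s₂, ha, hb, hab, he, hs₁, hs₂, h3a, h3b, hcop⟩ := split3 h₁ h₂ h
    have heo : ¬ 2 ∣ e := by rcases he with h | h <;> rw [h] <;> norm_num
    have hs1o : ¬ 2 ∣ s₁ := by rcases hs₁ with h | h <;> rw [h] <;> norm_num
    have hs2o : ¬ 2 ∣ s₂ := by rcases hs₂ with h | h <;> rw [h] <;> norm_num
    have hodd3 : ∀ x k s : ℕ, ¬ 2 ∣ k → ¬ 2 ∣ s → 3 * x = k * e * s ^ 2 → ¬ 2 ∣ x := by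
      intro x k s hk hs hx h2x
      have h3 : 2 ∣ k * e * s ^ 2 := by rw [← hx]; exact h2x.mul_left 3
      rcases (Nat.prime_two.dvd_mul).1 h3 with h4 | h4
      · rcases (Nat.prime_two.dvd_mul).1 h4 with h5 | h5
        · exact hk h5
        · exact heo h5
      · exact hs (Nat.prime_two.dvd_of_dvd_pow h4)
    have hao := hodd3 a k₁ s₁ hodd1 hs1o h3a
    have hbo := hodd3 b k₂ s₂ hodd2 hs2o h3b
    have haz : ¬ (2:ℤ) ∣ (a:ℤ) := by intro h; exact hao (by exact_mod_cast h)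
    have hbz : ¬ (2:ℤ) ∣ (b:ℤ) := by intro h; exact hbo (by exact_mod_cast h)
    set ρ : ℤ := (r:ℤ) * e with hρd
    have hρ : ¬ (2:ℤ) ∣ ρ := by
      intro hd
      have hd' : 2 ∣ r * e := by rw [hρd] at hd; exact_mod_cast hd
      rcases (Nat.prime_two.dvd_mul).1 hd' with h5 | h5
      · exact hr' h5
      · exact heo h5
    have hrr : (((2:ℕ):ℤ)) * e * ρ ≡ ((2 * r : ℕ) : ℤ) [ZMOD (8 * 2 : ℕ)] := by
      rw [hρd, Int.modEq_iff_dvd]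
      rcases he with h | h <;> rw [h]
      · exact ⟨0, by push_cast; ring⟩
      · exact ⟨-r, by push_cast; ring⟩
    have hgk : Nat.Coprime 2 (k₁ * k₂) :=
      Nat.Coprime.mul_right ((Nat.Prime.coprime_iff_not_dvd Nat.prime_two).2 hodd1)
        ((Nat.Prime.coprime_iff_not_dvd Nat.prime_two).2 hodd2)
    by_cases hcase : ∃ B : ℤ, (B = b ∨ B = -b) ∧ (8:ℤ) ∣ B - a
    · obtain ⟨B, hB, h8⟩ := hcase
      have hBa : B ≡ (a:ℤ) [ZMOD 8] := (Int.modEq_iff_dvd.2 h8).symm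
      obtain ⟨vs, hL⟩ := loc_A2 (w := 8) (ρ := ρ) (Or.inl rfl) haz hBa
      exact pairs_of_loc (g := 2) (q := 2) ha hb hab (Or.inr rfl) (by norm_num) (by norm_num) he
        hs₁ hs₂ h3a h3b hgk h₁ h₂ hcop hB (us := 1) (by omega) hρ hL hrr
    · have hn1 : ¬ (8:ℤ) ∣ (b:ℤ) - a := fun h => hcase ⟨b, Or.inl rfl, h⟩
      have hn2 : ¬ (8:ℤ) ∣ -(b:ℤ) - a := fun h => hcase ⟨-b, Or.inr rfl, h⟩
      by_cases hρa : (8:ℤ) ∣ ρ - a
      · have hL := loc_C2 (b := (b:ℤ)) haz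
        have hL' : Loc a b (2 * 1 ^ 2) 4 1 ρ := by
          intro u v hu hv
          obtain ⟨x, hx1, hx2⟩ := hL u v hu hv
          exact ⟨x, by rw [hx1]; norm_num, hx2.trans (Int.modEq_iff_dvd.2 hρa)⟩
        exact pairs_of_loc (g := 2) (q := 1) ha hb hab (Or.inr rfl) (by norm_num) (by norm_num) he
          hs₁ hs₂ h3a h3b hgk h₁ h₂ hcop (Or.inl rfl) (us := 4) (vs := 1) (by omega) hρ hL' hrr
      · -- `ρ = -B` or `ρ = 2 a - B`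
        obtain ⟨B, ee, hB, hee, h8⟩ : ∃ B : ℤ, ∃ ee : ℕ, (B = b ∨ B = -b) ∧ (ee = 0 ∨ ee = 1) ∧
            (8:ℤ) ∣ ρ - (2 * a * ee - B) := by
          rcases pick haz hbz hρ hn1 hn2 hρa with e1 | e1 | e1 | e1
          · refine ⟨-b, 0, Or.inr rfl, Or.inl rfl, ?_⟩
            have : ρ - (2 * (a:ℤ) * ((0:ℕ):ℤ) - -(b:ℤ)) = ρ - b := by push_cast; ring
            rw [this]; exact e1
          · refine ⟨b, 0, Or.inl rfl, Or.inl rfl, ?_⟩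
            have : ρ - (2 * (a:ℤ) * ((0:ℕ):ℤ) - (b:ℤ)) = ρ + b := by push_cast; ring
            rw [this]; exact e1
          · refine ⟨b, 1, Or.inl rfl, Or.inr rfl, ?_⟩
            have : ρ - (2 * (a:ℤ) * ((1:ℕ):ℤ) - (b:ℤ)) = ρ - (2 * a - b) := by push_cast; ring
            rw [this]; exact e1
          · refine ⟨-b, 1, Or.inr rfl, Or.inr rfl, ?_⟩
            have : ρ - (2 * (a:ℤ) * ((1:ℕ):ℤ) - -(b:ℤ)) = ρ - (2 * a + b) := by push_cast; ring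
            rw [this]; exact e1
        have hBo : ¬ (2:ℤ) ∣ B := by rcases hB with h | h <;> rw [h] <;> omega
        have hL := loc_C1 haz hBo ee hee
        have hL' : Loc a B (2 * 1 ^ 2) 1 (2 * ee) ρ := by
          intro u v hu hv
          obtain ⟨x, hx1, hx2⟩ := hL u v hu hv
          exact ⟨x, by rw [hx1]; norm_num, hx2.trans (Int.modEq_iff_dvd.2 h8)⟩
        exact pairs_of_loc (g := 2) (q := 1) ha hb hab (Or.inr rfl) (by norm_num) (by norm_num) he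
          hs₁ hs₂ h3a h3b hgk h₁ h₂ hcop hB (us := 1) (by omega) hρ hL' hrr
  obtain ⟨c, hc, X₀, hX₀⟩ := key
  refine ⟨c, hc, X₀, fun X hX => (hX₀ X hX).trans (le_of_eq ?_)⟩
  congr 2
  ext m
  simp only [Set.mem_ofPred_eq]
  rw [hmod]

end Pool.Agent.H549.FS
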