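import Pool.Agent.H549.FS.Pairs

/-! The sieve system of the form `GG a b`. -/

namespace Pool.Agent.H549.FS

open Polynomial Finset

theorem size_bounds {a b : ℤ} (ha : 0 < a) {Q u0 v0 N s t : ℕ} (hQ : 0 < Q) (hu0 : u0 ≤ Q)
    (hv0 : v0 ≤ Q) (hs : s < N) (ht : t < N) (α β : ℤ) (hα : a ≤ α) (hα2 : α ≤ 2 * a)
    (hβ : |β| ≤ 2 * |b|) :
    ((Q:ℤ)^2 * (N:ℤ)^2) ≤ α * ((pt Q v0 (18 * b.natAbs + 1) N t : ℕ):ℤ) ^ 2 +
        β * ((pt Q u0 1 N s : ℕ) : ℤ) ^ 2 ∧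
    α * ((pt Q v0 (18 * b.natAbs + 1) N t : ℕ):ℤ) ^ 2 + β * ((pt Q u0 1 N s : ℕ) : ℤ) ^ 2 ≤
      (((2 * a.natAbs + 2 * b.natAbs) * (Q * (18 * b.natAbs + 3)) : ℕ) : ℤ) ^ 2 * (N:ℤ)^4 := by
  have hN : 1 ≤ N := by omega
  have hq1 : (1:ℤ) ≤ Q := by exact_mod_cast hQ
  have hn1 : (1:ℤ) ≤ N := by exact_mod_cast hN
  set m : ℤ := |b| with hm
  have hm0 : 0 ≤ m := abs_nonneg b
  have hbn : (b.natAbs : ℤ) = m := Int.natCast_natAbs b
  have han : (a.natAbs : ℤ) = a := Int.natAbs_of_nonneg ha.le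
  set u : ℤ := ((pt Q u0 1 N s : ℕ) : ℤ) with hu
  set v : ℤ := ((pt Q v0 (18 * b.natAbs + 1) N t : ℕ) : ℤ) with hv
  have hu1 : 0 ≤ u := by positivity
  have hv1 : 0 ≤ v := by positivity
  have hu2 : u ≤ 3 * (Q * N) := by
    have := pt_le (b := 1) hu0 hs
    have h2 : u ≤ ((Q * (1 + 2) * N : ℕ) : ℤ) := by rw [hu]; exact_mod_cast this
    push_cast at h2
    linarith
  have hv2 : v ≤ (18 * m + 3) * (Q * N) := by
    have := pt_le (b := 18 * b.natAbs + 1) hv0 ht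
    have h2 : v ≤ ((Q * (18 * b.natAbs + 1 + 2) * N : ℕ) : ℤ) := by rw [hv]; exact_mod_cast this
    push_cast at h2
    rw [← hm] at h2
    linarith
  have hv3 : (18 * m + 1) * (Q * N) ≤ v := by
    have h1 : Q * ((18 * b.natAbs + 1) * N) ≤ pt Q v0 (18 * b.natAbs + 1) N t := by
      unfold pt
      have : Q * ((18 * b.natAbs + 1) * N) ≤ Q * ((18 * b.natAbs + 1) * N + t) :=
        Nat.mul_le_mul_left _ (by omega)
      omega
    have h2 : ((Q * ((18 * b.natAbs + 1) * N) : ℕ) : ℤ) ≤ v := by rw [hv]; exact_mod_cast h1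
    push_cast at h2
    rw [← hm] at h2
    linarith
  set T : ℤ := (Q:ℤ) * N with hT
  have hT1 : 1 ≤ T := by nlinarith
  have husq : u ^ 2 ≤ 9 * T ^ 2 := by nlinarith
  have hvsq : (18 * m + 1) * T ^ 2 ≤ v ^ 2 := by
    have h1 : ((18 * m + 1) * T) ^ 2 ≤ v ^ 2 := pow_le_pow_left₀ (by positivity) hv3 2
    have h2 : (18 * m + 1) * T ^ 2 ≤ ((18 * m + 1) * T) ^ 2 := by
      have : 0 ≤ (18 * m + 1) * (18 * m) * T ^ 2 := by positivity
      nlinarith
    exact h2.trans h1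
  have hvsq2 : v ^ 2 ≤ ((18 * m + 3) * T) ^ 2 := pow_le_pow_left₀ hv1 hv2 2
  have hβu : |β * u ^ 2| ≤ 18 * m * T ^ 2 := by
    rw [abs_mul, abs_of_nonneg (sq_nonneg u)]
    calc |β| * u ^ 2 ≤ (2 * m) * (9 * T ^ 2) :=
          mul_le_mul hβ husq (sq_nonneg u) (by positivity)
      _ = _ := by ring
  rw [abs_le] at hβu
  have ha1 : 1 ≤ a := ha
  constructor
  · have h1 : (18 * m + 1) * T ^ 2 ≤ α * v ^ 2 := by
      have : v ^ 2 ≤ α * v ^ 2 := by nlinarith [sq_nonneg v]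
      exact hvsq.trans this
    have : (Q:ℤ)^2 * (N:ℤ)^2 = T ^ 2 := by rw [hT]; ring
    rw [this]
    nlinarith [hβu.1]
  · have h1 : α * v ^ 2 ≤ 2 * a * ((18 * m + 3) * T) ^ 2 :=
      mul_le_mul hα2 hvsq2 (sq_nonneg v) (by positivity)
    have h2 : 18 * m * T ^ 2 ≤ 2 * m * ((18 * m + 3) * T) ^ 2 := by
      have : 0 ≤ m * T ^ 2 * ((18 * m + 3) ^ 2 - 9) := by
        refine mul_nonneg (by positivity) ?_
        nlinarith
      nlinarith
    have h3 : α * v ^ 2 + β * u ^ 2 ≤ (2 * a + 2 * m) * ((18 * m + 3) * T) ^ 2 := by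
      nlinarith [hβu.2]
    refine h3.trans ?_
    push_cast
    rw [← hm, abs_of_pos ha]
    have h4 : (2 * a + 2 * m) ≤ (2 * a + 2 * m) ^ 2 := by nlinarith
    have h5 : (N:ℤ)^2 ≤ (N:ℤ)^4 := pow_le_pow_right₀ hn1 (by norm_num)
    calc (2 * a + 2 * m) * ((18 * m + 3) * T) ^ 2
        ≤ (2 * a + 2 * m) ^ 2 * ((18 * m + 3) * T) ^ 2 :=
          mul_le_mul_of_nonneg_right h4 (sq_nonneg _)
      _ = ((2 * a + 2 * m) * (Q * (18 * m + 3))) ^ 2 * (N:ℤ)^2 := by rw [hT]; ring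
      _ ≤ ((2 * a + 2 * m) * (Q * (18 * m + 3))) ^ 2 * (N:ℤ)^4 :=
          mul_le_mul_of_nonneg_left h5 (sq_nonneg _)

/-- The sieve system. -/
theorem exists_sys (a b : ℤ) (ha : 0 < a) (hb : b ≠ 0) (hab : IsCoprime a b) (w us vs : ℕ)
    (hw : 0 < w) (hw2 : w ≤ 128) (hodd : ¬ (2 ∣ us ∧ 2 ∣ vs)) (ρ : ℤ) (hρ : ¬ (2:ℤ) ∣ ρ)
    (h2 : ∀ u v : ℕ, u ≡ us [MOD 128] → v ≡ vs [MOD 128] →
      ∃ h : ℤ, GG a b u v = w * h ∧ h ≡ ρ [ZMOD 8]) :
    ∃ S : Sys (Fin 3), S.f = ff a b ∧ S.w = w ∧ 128 ∣ S.Q ∧ S.u0 ≡ us [MOD 128] ∧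
      S.v0 ≡ vs [MOD 128] := by
  classical
  obtain ⟨A, B, D, hD0, hAB⟩ := exists_bezout (∏ i, ff a b i) (separable_ff ha.ne' hb)
  have hne : (∏ i, ff a b i) ≠ 0 := by
    intro h
    have := natDegree_prod_ff b ha.ne'
    rw [h] at this
    simp at this
  have hlc : (∏ i, ff a b i).leadingCoeff ≠ 0 := leadingCoeff_ne_zero.2 hne
  set lc := (∏ i, ff a b i).leadingCoeff with hlcd
  set P : Finset ℕ := ((D * lc).natAbs.primeFactors ∪ (range 129).filter Nat.Prime).filter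
    (fun p => p ≠ 2) with hP
  have hPp : ∀ p ∈ P, p.Prime ∧ p ≠ 2 := by
    intro p hp
    rw [hP, mem_filter, mem_union, mem_filter] at hp
    refine ⟨?_, hp.2⟩
    rcases hp.1 with h | h
    · exact Nat.prime_of_mem_primeFactors h
    · exact h.2
  obtain ⟨u0, v0, hu0, hv0, hus, hvs, hcl⟩ := exists_class a b hab P hPp us vs
  set Q := 128 * ∏ p ∈ P, p with hQd
  have hQ : 0 < Q := Nat.mul_pos (by norm_num) (prod_pos fun p hp => (hPp p hp).1.pos)
  have hpQ : ∀ p : ℕ, p.Prime → (p ∣ Q ↔ p = 2 ∨ p ∈ P) := by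
    intro p hp
    rw [hQd, hp.dvd_mul, Prime.dvd_finsetProd_iff hp.prime]
    constructor
    · rintro (h | ⟨q, hq, h⟩)
      · left
        have : p ∣ 2 ^ 7 := h
        exact (Nat.prime_dvd_prime_iff_eq hp Nat.prime_two).1 (hp.dvd_of_dvd_pow this)
      · right
        rw [(Nat.prime_dvd_prime_iff_eq hp (hPp q hq).1).1 h]
        exact hq
    · rintro (h | h)
      · left; rw [h]; norm_num
      · right; exact ⟨p, h, dvd_refl p⟩
  have hdeg := natDegree_prod_ff b ha.ne'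
  have h128 : 128 ∣ Q := Dvd.intro _ rfl
  refine ⟨{
    f := ff a b
    A := A
    B := B
    D := D
    Q := Q
    u0 := u0
    v0 := v0
    U0 := 1
    V0 := 18 * b.natAbs + 1
    w := w
    K := (2 * a.natAbs + 2 * b.natAbs) * (Q * (18 * b.natAbs + 3))
    hQ := hQ
    hu0 := hu0
    hv0 := hv0
    hU0 := le_rfl
    hV0 := by omega
    hw := hw
    hK := ?_
    hAB := hAB
    hD := ?_
    hz := ?_
    hcop := ?_
    hdiv := ?_
    hsize := ?_
    hlow := ?_ }, rfl, rfl, h128, hus, hvs⟩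
  · have h1 : 0 < a.natAbs := Int.natAbs_pos.2 ha.ne'
    exact Nat.mul_pos (by omega) (Nat.mul_pos hQ (by omega))
  · intro p hp hnQ
    rw [hpQ p hp] at hnQ
    push Not at hnQ
    have h1 : p ∉ (D * lc).natAbs.primeFactors := by
      intro h
      exact hnQ.2 (by rw [hP, mem_filter, mem_union]; exact ⟨Or.inl h, hnQ.1⟩)
    have h2 : ¬ p ∣ (D * lc).natAbs := by
      intro h
      exact h1 (Nat.mem_primeFactors.2 ⟨hp, h, Int.natAbs_ne_zero.2 (mul_ne_zero hD0 hlc)⟩)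
    constructor
    · intro h
      exact h2 (Int.natCast_dvd.1 (h.mul_right _))
    · intro h
      exact h2 (Int.natCast_dvd.1 (h.mul_left _))
  · intro p hp hle
    rw [hdeg] at hle
    rw [hpQ p hp]
    by_cases h : p = 2
    · exact Or.inl h
    · right
      rw [hP, mem_filter, mem_union, mem_filter, mem_range]
      exact ⟨Or.inr ⟨by omega, hp⟩, h⟩
  · intro p hp hdvd
    rw [hpQ p hp] at hdvd
    rcases hdvd with h | h
    · rw [h]
      rintro ⟨h1, h2⟩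
      apply hodd
      have e1 : u0 ≡ us [MOD 2] := hus.of_dvd (by norm_num)
      have e2 : v0 ≡ vs [MOD 2] := hvs.of_dvd (by norm_num)
      exact ⟨(e1.dvd_iff (dvd_refl 2)).1 h1, (e2.dvd_iff (dvd_refl 2)).1 h2⟩
    · exact (hcl p h).1
  · intro u v hu hv
    rw [hom_prod_ff b ha.ne']
    obtain ⟨h, hh1, hh2⟩ := h2 u v ((hu.of_dvd h128).trans hus) ((hv.of_dvd h128).trans hvs)
    refine ⟨h, hh1, ?_⟩
    have c2 : ¬ (2:ℤ) ∣ h := by
      intro hd
      apply hρ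
      have h3 : h ≡ ρ [ZMOD 2] := hh2.of_dvd (by norm_num)
      exact h3.dvd_iff.1 hd
    rw [hQd]
    push_cast
    refine IsCoprime.mul_right ?_ (IsCoprime.prod_right fun p hp => ?_)
    · have h4 : IsCoprime h 2 := by
        have : IsCoprime (2:ℤ) h := (Prime.coprime_iff_not_dvd Int.prime_two).2 c2
        exact this.symm
      have h5 : IsCoprime h (2 ^ 7) := h4.pow_right
      exact h5
    · have hpp := hPp p hp
      have hp' : Prime (p:ℤ) := Nat.prime_iff_prime_int.mp hpp.1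
      refine ((Prime.coprime_iff_not_dvd hp').2 ?_).symm
      intro hd
      have hpdQ : p ∣ Q := (hpQ p hpp.1).2 (Or.inr hp)
      refine (hcl p hp).2 u v (hu.of_dvd hpdQ) (hv.of_dvd hpdQ) ?_
      rw [hh1]
      exact hd.mul_left _
  · intro N s t hN hs ht i
    have hQN : (0:ℤ) < (Q:ℤ)^2 * (N:ℤ)^2 := by
      have : (0:ℤ) < Q := by exact_mod_cast hQ
      have : (0:ℤ) < N := by exact_mod_cast hN
      positivity
    have habs : |b| = |b| := rfl
    fin_cases i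
    · show 0 < hom (ff a b 0) _ _ ∧ hom (ff a b 0) _ _ ≤ _
      rw [hom_ff0 b ha.ne']
      have := size_bounds (a := a) (b := b) ha hQ hu0 hv0 hs ht a (-b) le_rfl (by linarith)
        (by rw [abs_neg]; linarith [abs_nonneg b])
      rw [sub_eq_add_neg, ← neg_mul]
      exact ⟨lt_of_lt_of_le hQN this.1, this.2⟩
    · show 0 < hom (ff a b 1) _ _ ∧ hom (ff a b 1) _ _ ≤ _
      rw [hom_ff1 b ha.ne']
      have := size_bounds (a := a) (b := b) ha hQ hu0 hv0 hs ht (2 * a) b (by linarith) le_rfl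
        (by linarith [abs_nonneg b])
      exact ⟨lt_of_lt_of_le hQN this.1, this.2⟩
    · show 0 < hom (ff a b 2) _ _ ∧ hom (ff a b 2) _ _ ≤ _
      rw [hom_ff2 b ha.ne']
      have := size_bounds (a := a) (b := b) ha hQ hu0 hv0 hs ht a (2 * b) le_rfl (by linarith)
        (by rw [abs_mul]; norm_num)
      exact ⟨lt_of_lt_of_le hQN this.1, this.2⟩
  · intro N s t hN hs ht
    rw [hom_prod_ff b ha.ne']
    have s0 := (size_bounds (a := a) (b := b) ha hQ hu0 hv0 hs ht a (-b) le_rfl (by linarith)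
        (by rw [abs_neg]; linarith [abs_nonneg b])).1
    have s1 := (size_bounds (a := a) (b := b) ha hQ hu0 hv0 hs ht (2 * a) b (by linarith) le_rfl
        (by linarith [abs_nonneg b])).1
    have s2 := (size_bounds (a := a) (b := b) ha hQ hu0 hv0 hs ht a (2 * b) le_rfl (by linarith)
        (by rw [abs_mul]; norm_num)).1
    have hq128 : (128:ℤ) ≤ Q := by
      have : 128 ≤ Q := Nat.le_of_dvd hQ h128
      exact_mod_cast this
    have hn1 : (1:ℤ) ≤ N := by exact_mod_cast hN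
    have hT : (N:ℤ)^2 * 128 ≤ (Q:ℤ)^2 * (N:ℤ)^2 := by
      have : (128:ℤ) ≤ (Q:ℤ)^2 := by nlinarith
      nlinarith [sq_nonneg (N:ℤ)]
    unfold GG
    rw [sub_eq_add_neg, ← neg_mul]
    have t0 := hT.trans s0
    have t1 := hT.trans s1
    have t2 := hT.trans s2
    have hN2 : (1:ℤ) ≤ (N:ℤ)^2 := by nlinarith
    have hwz : (w:ℤ) ≤ 128 := by exact_mod_cast hw2
    have hw0 : (0:ℤ) ≤ w := by positivity
    have hz0 : (0:ℤ) ≤ (N:ℤ)^2 * 128 := by positivity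
    calc (w:ℤ) * (N:ℤ)^3 ≤ 128 * (N:ℤ)^3 := mul_le_mul_of_nonneg_right hwz (by positivity)
      _ ≤ ((N:ℤ)^2 * 128) * ((N:ℤ)^2 * 128) * ((N:ℤ)^2 * 128) := by
          have h6 : (N:ℤ)^3 ≤ (N:ℤ)^6 := pow_le_pow_right₀ hn1 (by norm_num)
          nlinarith [pow_nonneg (by linarith : (0:ℤ) ≤ N) 6]
      _ ≤ _ := mul_le_mul (mul_le_mul t0 t1 hz0 (hz0.trans t0)) t2 hz0
          (mul_nonneg (hz0.trans t0) (hz0.trans t1))

end Pool.Agent.H549.FS
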