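import Pool.Agent.H549.FS.Distinct

/-! The form `(a v² - b u²) (2 a v² + b u²) (a v² + 2 b u²)`. -/

namespace Pool.Agent.H549.FS

open Polynomial Finset

/-- Clearing denominators in a Bezout identity. -/
theorem exists_bezout (F : ℤ[X]) (h : (F.map (Int.castRingHom ℚ)).Separable) :
    ∃ A B : ℤ[X], ∃ D : ℤ, D ≠ 0 ∧ A * F + B * derivative F = C D := by
  obtain ⟨a, b, hab⟩ := h
  obtain ⟨m, hmm, hm⟩ := IsLocalization.integerNormalization_spec (nonZeroDivisors ℤ) a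
  obtain ⟨n, hnn, hn⟩ := IsLocalization.integerNormalization_spec (nonZeroDivisors ℤ) b
  have hm0 : (m:ℤ) ≠ 0 := nonZeroDivisors.ne_zero hmm
  have hn0 : (n:ℤ) ≠ 0 := nonZeroDivisors.ne_zero hnn
  refine ⟨C (n:ℤ) * IsLocalization.integerNormalization (nonZeroDivisors ℤ) a,
    C (m:ℤ) * IsLocalization.integerNormalization (nonZeroDivisors ℤ) b, (m:ℤ) * n,
    mul_ne_zero hm0 hn0, ?_⟩
  apply Polynomial.map_injective (Int.castRingHom ℚ) Int.cast_injective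
  have e : algebraMap ℤ ℚ = Int.castRingHom ℚ := rfl
  rw [e] at hm hn
  simp only [Polynomial.map_add, Polynomial.map_mul, Polynomial.map_C]
  rw [hm, hn]
  rw [derivative_map] at hab
  have h1 : (C ((Int.castRingHom ℚ) (n:ℤ)) : ℚ[X]) * ((m : ℤ) • a) * (F.map (Int.castRingHom ℚ)) +
      C ((Int.castRingHom ℚ) (m:ℤ)) * ((n : ℤ) • b) * ((derivative F).map (Int.castRingHom ℚ)) =
      C ((Int.castRingHom ℚ) ((m:ℤ) * n)) * (a * (F.map (Int.castRingHom ℚ)) +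
        b * ((derivative F).map (Int.castRingHom ℚ))) := by
    have e1 : ((m : ℤ) • a : ℚ[X]) = C ((Int.castRingHom ℚ) (m:ℤ)) * a := by
      rw [zsmul_eq_mul]; simp
    have e2 : ((n : ℤ) • b : ℚ[X]) = C ((Int.castRingHom ℚ) (n:ℤ)) * b := by
      rw [zsmul_eq_mul]; simp
    rw [e1, e2, map_mul, C_mul]
    ring
  rw [hab, mul_one] at h1
  exact h1

/-- A diagonal quadratic form. -/
theorem hom_quad {α β : ℤ} (hα : α ≠ 0) (u v : ℤ) :
    hom (C α * X ^ 2 + C β) u v = α * v ^ 2 + β * u ^ 2 := by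
  have hd : (C α * X ^ 2 + C β : ℤ[X]).natDegree = 2 := by
    compute_degree!
  unfold hom
  rw [eval_eq_sum_range, natDegree_scaleRoots, hd]
  have c0 : (C α * X ^ 2 + C β : ℤ[X]).coeff 0 = β := by
    rw [coeff_add, coeff_C_mul, coeff_X_pow, coeff_C]; norm_num
  have c1 : (C α * X ^ 2 + C β : ℤ[X]).coeff 1 = 0 := by
    rw [coeff_add, coeff_C_mul, coeff_X_pow, coeff_C]; norm_num
  have c2 : (C α * X ^ 2 + C β : ℤ[X]).coeff 2 = α := by
    rw [coeff_add, coeff_C_mul, coeff_X_pow, coeff_C]; norm_num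
  simp only [coeff_scaleRoots, hd, Finset.sum_range_succ, Finset.sum_range_zero, c0, c1, c2]
  norm_num
  ring

theorem natDegree_quad {α β : ℤ} (hα : α ≠ 0) : (C α * X ^ 2 + C β : ℤ[X]).natDegree = 2 := by
  compute_degree!

theorem lc_quad {α β : ℤ} (hα : α ≠ 0) : (C α * X ^ 2 + C β : ℤ[X]).leadingCoeff = α := by
  rw [leadingCoeff, natDegree_quad hα, coeff_add, coeff_C_mul, coeff_X_pow, coeff_C]; norm_num

/-- The three forms. -/
noncomputable def ff (a b : ℤ) : Fin 3 → ℤ[X] :=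
  ![C a * X ^ 2 + C (-b), C (2 * a) * X ^ 2 + C b, C a * X ^ 2 + C (2 * b)]

/-- Their product. -/
def GG (a b u v : ℤ) : ℤ :=
  (a * v ^ 2 - b * u ^ 2) * (2 * a * v ^ 2 + b * u ^ 2) * (a * v ^ 2 + 2 * b * u ^ 2)

theorem hom_ff0 {a : ℤ} (b : ℤ) (ha : a ≠ 0) (u v : ℤ) :
    hom (ff a b 0) u v = a * v ^ 2 - b * u ^ 2 := by
  show hom (C a * X ^ 2 + C (-b)) u v = _
  rw [hom_quad ha]; ring
theorem hom_ff1 {a : ℤ} (b : ℤ) (ha : a ≠ 0) (u v : ℤ) :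
    hom (ff a b 1) u v = 2 * a * v ^ 2 + b * u ^ 2 := by
  show hom (C (2 * a) * X ^ 2 + C b) u v = _
  rw [hom_quad (by positivity)]
theorem hom_ff2 {a : ℤ} (b : ℤ) (ha : a ≠ 0) (u v : ℤ) :
    hom (ff a b 2) u v = a * v ^ 2 + 2 * b * u ^ 2 := by
  show hom (C a * X ^ 2 + C (2 * b)) u v = _
  rw [hom_quad ha]

theorem hom_prod_ff {a : ℤ} (b : ℤ) (ha : a ≠ 0) (u v : ℤ) :
    hom (∏ i, ff a b i) u v = GG a b u v := by
  rw [hom_prod, Fin.prod_univ_three, hom_ff0 b ha, hom_ff1 b ha, hom_ff2 b ha]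
  rfl

theorem natDegree_prod_ff {a : ℤ} (b : ℤ) (ha : a ≠ 0) : (∏ i, ff a b i).natDegree = 6 := by
  rw [Fin.prod_univ_three]
  have h0 : (ff a b 0).natDegree = 2 := natDegree_quad ha
  have h1 : (ff a b 1).natDegree = 2 := natDegree_quad (by positivity)
  have h2 : (ff a b 2).natDegree = 2 := natDegree_quad ha
  have n0 : ff a b 0 ≠ 0 := fun h => by rw [h] at h0; simp at h0
  have n1 : ff a b 1 ≠ 0 := fun h => by rw [h] at h1; simp at h1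
  have n2 : ff a b 2 ≠ 0 := fun h => by rw [h] at h2; simp at h2
  rw [natDegree_mul (mul_ne_zero n0 n1) n2, natDegree_mul n0 n1, h0, h1, h2]

theorem separable_ff {a b : ℤ} (ha : a ≠ 0) (hb : b ≠ 0) :
    ((∏ i, ff a b i).map (Int.castRingHom ℚ)).Separable := by
  have haq : (a:ℚ) ≠ 0 := by exact_mod_cast ha
  have hbq : (b:ℚ) ≠ 0 := by exact_mod_cast hb
  have m0 : (ff a b 0).map (Int.castRingHom ℚ) = C (a:ℚ) * X ^ 2 - C (b:ℚ) := by
    show (C a * X ^ 2 + C (-b)).map (Int.castRingHom ℚ) = _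
    simp [sub_eq_add_neg]
  have m1 : (ff a b 1).map (Int.castRingHom ℚ) = C (2 * (a:ℚ)) * X ^ 2 + C (b:ℚ) := by
    show (C (2 * a) * X ^ 2 + C b).map (Int.castRingHom ℚ) = _
    rw [Polynomial.map_add, Polynomial.map_mul, Polynomial.map_C, Polynomial.map_C,
      Polynomial.map_pow, Polynomial.map_X]
    simp only [eq_intCast, Int.cast_mul, Int.cast_ofNat]
  have m2 : (ff a b 2).map (Int.castRingHom ℚ) = C (a:ℚ) * X ^ 2 + C (2 * (b:ℚ)) := by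
    show (C a * X ^ 2 + C (2 * b)).map (Int.castRingHom ℚ) = _
    rw [Polynomial.map_add, Polynomial.map_mul, Polynomial.map_C, Polynomial.map_C,
      Polynomial.map_pow, Polynomial.map_X]
    simp only [eq_intCast, Int.cast_mul, Int.cast_ofNat]
  rw [Fin.prod_univ_three, Polynomial.map_mul, Polynomial.map_mul, m0, m1, m2]
  have hCC : ∀ x : ℚ, x ≠ 0 → (C x : ℚ[X]) * C (x⁻¹) = 1 := fun x hx => by
    rw [← C_mul, mul_inv_cancel₀ hx, C_1]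
  have hsep : ∀ α β : ℚ, α ≠ 0 → β ≠ 0 → (C α * X ^ 2 + C β : ℚ[X]).Separable := by
    intro α β hα hβ
    refine ⟨C β⁻¹, - (C β⁻¹ * C (1/2) * X), ?_⟩
    have h1 := hCC β hβ
    have h2 : (C (1/2) : ℚ[X]) * 2 = 1 := by
      rw [show (2:ℚ[X]) = C 2 from (map_ofNat C 2).symm, ← C_mul]; norm_num
    simp only [derivative_add, derivative_C_mul, derivative_X_pow, derivative_C, add_zero]
    simp only [Nat.cast_ofNat, Nat.add_one_sub_one, pow_one]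
    rw [show (C (2:ℚ) : ℚ[X]) = 2 from map_ofNat C 2]
    linear_combination h1 - C β⁻¹ * C α * X ^ 2 * h2
  have s0 : (C (a:ℚ) * X ^ 2 - C (b:ℚ) : ℚ[X]).Separable := by
    have := hsep a (-b) haq (neg_ne_zero.2 hbq)
    rwa [C_neg, ← sub_eq_add_neg] at this
  have s1 : (C (2 * (a:ℚ)) * X ^ 2 + C (b:ℚ) : ℚ[X]).Separable :=
    hsep _ _ (by positivity) hbq
  have s2 : (C (a:ℚ) * X ^ 2 + C (2 * (b:ℚ)) : ℚ[X]).Separable :=
    hsep _ _ haq (by positivity)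
  have h3b : (3 * (b:ℚ)) ≠ 0 := by positivity
  have hc := hCC _ h3b
  have c01 : IsCoprime (C (a:ℚ) * X ^ 2 - C (b:ℚ) : ℚ[X]) (C (2 * (a:ℚ)) * X ^ 2 + C (b:ℚ)) := by
    refine ⟨-2 * C (3 * (b:ℚ))⁻¹, C (3 * (b:ℚ))⁻¹, ?_⟩
    rw [C_mul, show (C (2:ℚ) : ℚ[X]) = 2 from map_ofNat C 2]
    rw [C_mul, show (C (3:ℚ) : ℚ[X]) = 3 from map_ofNat C 3] at hc
    linear_combination hc
  have c02 : IsCoprime (C (a:ℚ) * X ^ 2 - C (b:ℚ) : ℚ[X]) (C (a:ℚ) * X ^ 2 + C (2 * (b:ℚ))) := by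
    refine ⟨- C (3 * (b:ℚ))⁻¹, C (3 * (b:ℚ))⁻¹, ?_⟩
    rw [C_mul, show (C (2:ℚ) : ℚ[X]) = 2 from map_ofNat C 2]
    rw [C_mul, show (C (3:ℚ) : ℚ[X]) = 3 from map_ofNat C 3] at hc
    linear_combination hc
  have c12 : IsCoprime (C (2 * (a:ℚ)) * X ^ 2 + C (b:ℚ) : ℚ[X]) (C (a:ℚ) * X ^ 2 + C (2 * (b:ℚ))) := by
    refine ⟨- C (3 * (b:ℚ))⁻¹, 2 * C (3 * (b:ℚ))⁻¹, ?_⟩
    rw [C_mul, C_mul, show (C (2:ℚ) : ℚ[X]) = 2 from map_ofNat C 2]
    rw [C_mul, show (C (3:ℚ) : ℚ[X]) = 3 from map_ofNat C 3] at hc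
    linear_combination hc
  exact (s0.mul s1 c01).mul s2 (IsCoprime.mul_left c02 c12)

/-- The class at the odd primes, and a given class modulo `128`. -/
theorem exists_class (a b : ℤ) (hab : IsCoprime a b) (P : Finset ℕ)
    (hP : ∀ p ∈ P, p.Prime ∧ p ≠ 2) (us vs : ℕ) :
    ∃ u0 v0 : ℕ, u0 ≤ 128 * ∏ p ∈ P, p ∧ v0 ≤ 128 * ∏ p ∈ P, p ∧
      u0 ≡ us [MOD 128] ∧ v0 ≡ vs [MOD 128] ∧
      ∀ p ∈ P, ¬ (p ∣ u0 ∧ p ∣ v0) ∧
        ∀ u v : ℕ, u ≡ u0 [MOD p] → v ≡ v0 [MOD p] → ¬ (p:ℤ) ∣ GG a b u v := by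
  classical
  set A0 := ∏ p ∈ P.filter (fun p : ℕ => ¬ (p:ℤ) ∣ b), p with hA0
  set B0 := ∏ p ∈ P.filter (fun p : ℕ => (p:ℤ) ∣ b), p with hB0
  have hAB : B0 * A0 = ∏ p ∈ P, p := prod_filter_mul_prod_filter_not P _ _
  have c1 : Nat.Coprime 128 A0 := by
    rw [hA0]
    refine Nat.Coprime.prod_right fun p hp => ?_
    rw [mem_filter] at hp
    have h := hP p hp.1
    have : Nat.Coprime (2 ^ 7) p := Nat.Coprime.pow_left 7 ((Nat.coprime_primes Nat.prime_two h.1).2 h.2.symm)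
    exact this
  have c2 : Nat.Coprime 128 B0 := by
    rw [hB0]
    refine Nat.Coprime.prod_right fun p hp => ?_
    rw [mem_filter] at hp
    have h := hP p hp.1
    have : Nat.Coprime (2 ^ 7) p := Nat.Coprime.pow_left 7 ((Nat.coprime_primes Nat.prime_two h.1).2 h.2.symm)
    exact this
  have c3 : Nat.Coprime A0 B0 := by
    rw [hA0, hB0]
    refine Nat.Coprime.prod_left fun p hp => Nat.Coprime.prod_right fun q hq => ?_
    rw [mem_filter] at hp hq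
    refine (Nat.coprime_primes (hP p hp.1).1 (hP q hq.1).1).2 ?_
    rintro rfl
    exact hp.2 hq.2
  have c4 : Nat.Coprime 128 (A0 * B0) := Nat.Coprime.mul_right c1 c2
  obtain ⟨x1, hx1, hx2⟩ := Nat.chineseRemainder c3 1 0
  obtain ⟨y1, hy1, hy2⟩ := Nat.chineseRemainder c3 0 1
  obtain ⟨x, hxa, hxb⟩ := Nat.chineseRemainder c4 us x1
  obtain ⟨y, hya, hyb⟩ := Nat.chineseRemainder c4 vs y1
  have hQ : 0 < 128 * ∏ p ∈ P, p := by
    refine Nat.mul_pos (by norm_num) (prod_pos fun p hp => (hP p hp).1.pos)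
  have hxm : x % (128 * ∏ p ∈ P, p) ≡ x [MOD (128 * ∏ p ∈ P, p)] := Nat.mod_modEq _ _
  have hym : y % (128 * ∏ p ∈ P, p) ≡ y [MOD (128 * ∏ p ∈ P, p)] := Nat.mod_modEq _ _
  have d1 : 128 ∣ 128 * ∏ p ∈ P, p := Dvd.intro _ rfl
  have d2 : A0 * B0 ∣ 128 * ∏ p ∈ P, p := by
    rw [← hAB, mul_comm A0 B0]; exact Dvd.intro_left _ rfl
  refine ⟨x % (128 * ∏ p ∈ P, p), y % (128 * ∏ p ∈ P, p), (Nat.mod_lt _ hQ).le,
    (Nat.mod_lt _ hQ).le, (hxm.of_dvd d1).trans hxa, (hym.of_dvd d1).trans hya, ?_⟩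
  intro p hp
  have hpp := hP p hp
  have hp' : Prime (p:ℤ) := Nat.prime_iff_prime_int.mp hpp.1
  have hpQ : p ∣ 128 * ∏ p ∈ P, p := (Finset.dvd_prod_of_mem (fun p => p) hp).mul_left _
  by_cases hb : (p:ℤ) ∣ b
  · -- `u ≡ 0`, `v ≡ 1`
    have hpB : p ∣ B0 := by
      rw [hB0]; exact Finset.dvd_prod_of_mem (fun p => p) (mem_filter.2 ⟨hp, hb⟩)
    have hu : x % (128 * ∏ p ∈ P, p) ≡ 0 [MOD p] :=
      (hxm.of_dvd hpQ).trans ((hxb.of_dvd (hpB.mul_left _)).trans (hx2.of_dvd hpB))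
    have hv : y % (128 * ∏ p ∈ P, p) ≡ 1 [MOD p] :=
      (hym.of_dvd hpQ).trans ((hyb.of_dvd (hpB.mul_left _)).trans (hy2.of_dvd hpB))
    have hna : ¬ (p:ℤ) ∣ a := by
      intro h
      have := hab.isUnit_of_dvd' h hb
      exact hp'.not_isUnit this
    refine ⟨?_, ?_⟩
    · rintro ⟨_, h2⟩
      have h3 : (0:ℕ) ≡ 1 [MOD p] := ((Nat.modEq_zero_iff_dvd.2 h2).symm.trans hv)
      have h4 := (Nat.modEq_iff_dvd' (by omega)).1 h3
      have := hpp.1.one_lt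
      have := Nat.le_of_dvd (by omega) h4
      omega
    · intro u v hu' hv' hG
      have e1 : (p:ℤ) ∣ (u:ℤ) := by
        have := Nat.modEq_zero_iff_dvd.1 (hu'.trans hu)
        exact_mod_cast this
      have e2 : (p:ℤ) ∣ (v:ℤ) - 1 := by
        have := Nat.modEq_iff_dvd.1 (hv'.trans hv).symm
        exact_mod_cast this
      have e3 : (p:ℤ) ∣ 2 * a ^ 3 := by
        have h5 : (p:ℤ) ∣ GG a b u v - 2 * a ^ 3 * (v:ℤ) ^ 6 := by
          obtain ⟨k, hk⟩ := e1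
          refine ⟨k * ((-b * u) * (2 * a * v ^ 2 + b * u ^ 2) * (a * v ^ 2 + 2 * b * u ^ 2) +
            (a * v ^ 2) * (b * u) * (a * v ^ 2 + 2 * b * u ^ 2) +
            (a * v ^ 2) * (2 * a * v ^ 2) * (2 * b * u)), ?_⟩
          unfold GG
          linear_combination ((-b * u) * (2 * a * v ^ 2 + b * u ^ 2) * (a * v ^ 2 + 2 * b * u ^ 2) +
            (a * v ^ 2) * (b * u) * (a * v ^ 2 + 2 * b * u ^ 2) +
            (a * v ^ 2) * (2 * a * v ^ 2) * (2 * b * u)) * hk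
        have h6 : (p:ℤ) ∣ 2 * a ^ 3 * (v:ℤ) ^ 6 := by
          have := dvd_sub hG h5
          simpa using this
        have h7 : (p:ℤ) ∣ 2 * a ^ 3 * ((v:ℤ) ^ 6 - 1) := by
          refine Dvd.dvd.mul_left ?_ _
          have : (v:ℤ) ^ 6 - 1 = ((v:ℤ) - 1) * ((v:ℤ)^5 + v^4 + v^3 + v^2 + v + 1) := by ring
          rw [this]
          exact Dvd.dvd.mul_right e2 _
        have h8 := dvd_sub h6 h7
        have e : 2 * a ^ 3 * (v:ℤ) ^ 6 - 2 * a ^ 3 * ((v:ℤ) ^ 6 - 1) = 2 * a ^ 3 := by ring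
        rwa [e] at h8
      rcases hp'.dvd_or_dvd e3 with h9 | h9
      · have : p ∣ 2 := by exact_mod_cast h9
        exact hpp.2 ((Nat.prime_dvd_prime_iff_eq hpp.1 Nat.prime_two).1 this)
      · exact hna (hp'.dvd_of_dvd_pow h9)
  · -- `u ≡ 1`, `v ≡ 0`
    have hpA : p ∣ A0 := by
      rw [hA0]; exact Finset.dvd_prod_of_mem (fun p => p) (mem_filter.2 ⟨hp, hb⟩)
    have hu : x % (128 * ∏ p ∈ P, p) ≡ 1 [MOD p] :=
      (hxm.of_dvd hpQ).trans ((hxb.of_dvd (hpA.mul_right _)).trans (hx1.of_dvd hpA))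
    have hv : y % (128 * ∏ p ∈ P, p) ≡ 0 [MOD p] :=
      (hym.of_dvd hpQ).trans ((hyb.of_dvd (hpA.mul_right _)).trans (hy1.of_dvd hpA))
    refine ⟨?_, ?_⟩
    · rintro ⟨h2, _⟩
      have h3 : (0:ℕ) ≡ 1 [MOD p] := ((Nat.modEq_zero_iff_dvd.2 h2).symm.trans hu)
      have h4 := (Nat.modEq_iff_dvd' (by omega)).1 h3
      have := hpp.1.one_lt
      have := Nat.le_of_dvd (by omega) h4
      omega
    · intro u v hu' hv' hG
      have e1 : (p:ℤ) ∣ (v:ℤ) := by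
        have := Nat.modEq_zero_iff_dvd.1 (hv'.trans hv)
        exact_mod_cast this
      have e2 : (p:ℤ) ∣ (u:ℤ) - 1 := by
        have := Nat.modEq_iff_dvd.1 (hu'.trans hu).symm
        exact_mod_cast this
      have e3 : (p:ℤ) ∣ 2 * b ^ 3 := by
        have h5 : (p:ℤ) ∣ GG a b u v + 2 * b ^ 3 * (u:ℤ) ^ 6 := by
          obtain ⟨k, hk⟩ := e1
          refine ⟨k * ((a * v) * (2 * a * v ^ 2 + b * u ^ 2) * (a * v ^ 2 + 2 * b * u ^ 2) -
            (b * u ^ 2) * (2 * a * v) * (a * v ^ 2 + 2 * b * u ^ 2) -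
            (b * u ^ 2) * (b * u ^ 2) * (a * v)), ?_⟩
          unfold GG
          linear_combination ((a * v) * (2 * a * v ^ 2 + b * u ^ 2) * (a * v ^ 2 + 2 * b * u ^ 2) -
            (b * u ^ 2) * (2 * a * v) * (a * v ^ 2 + 2 * b * u ^ 2) -
            (b * u ^ 2) * (b * u ^ 2) * (a * v)) * hk
        have h6 : (p:ℤ) ∣ 2 * b ^ 3 * (u:ℤ) ^ 6 := by
          have := dvd_sub h5 hG
          simpa using this
        have h7 : (p:ℤ) ∣ 2 * b ^ 3 * ((u:ℤ) ^ 6 - 1) := by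
          refine Dvd.dvd.mul_left ?_ _
          have : (u:ℤ) ^ 6 - 1 = ((u:ℤ) - 1) * ((u:ℤ)^5 + u^4 + u^3 + u^2 + u + 1) := by ring
          rw [this]
          exact Dvd.dvd.mul_right e2 _
        have h8 := dvd_sub h6 h7
        have e : 2 * b ^ 3 * (u:ℤ) ^ 6 - 2 * b ^ 3 * ((u:ℤ) ^ 6 - 1) = 2 * b ^ 3 := by ring
        rwa [e] at h8
      rcases hp'.dvd_or_dvd e3 with h9 | h9
      · have : p ∣ 2 := by exact_mod_cast h9
        exact hpp.2 ((Nat.prime_dvd_prime_iff_eq hpp.1 Nat.prime_two).1 this)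
      · exact hb (hp'.dvd_of_dvd_pow h9)

end Pool.Agent.H549.FS
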