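import Mathlib

/-! Elementary facts on primes for the sieve: `π (C x) ≤ ε x` and `∑_{p ≤ y} log p / p ≤ log y + log 4`. -/

namespace Pool.Agent.H549.FS

open Finset Filter Real

/-- `π(x) ≤ ε x` for large `x`. -/
theorem primeCounting_le_eps {ε : ℝ} (hε : 0 < ε) :
    ∃ x₀ : ℝ, 1 ≤ x₀ ∧ ∀ n : ℕ, x₀ ≤ n → (Nat.primeCounting n : ℝ) ≤ ε * n := by
  have h1 := Chebyshev.eventually_primeCounting_le (ε := 1) one_pos
  have h2 : ∀ᶠ x : ℝ in atTop, (Real.log 4 + 1) / ε ≤ Real.log x :=
    Real.tendsto_log_atTop.eventually_ge_atTop _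
  obtain ⟨x₀, hx₀⟩ := (h1.and (h2.and (eventually_ge_atTop 2))).exists_forall_of_atTop
  refine ⟨max x₀ 1, le_max_right _ _, fun n hn => ?_⟩
  have hn' := hx₀ n ((le_max_left _ _).trans hn)
  obtain ⟨ha, hb, hc⟩ := hn'
  rw [Nat.floor_natCast] at ha
  refine ha.trans ?_
  have hlog : 0 < Real.log n := Real.log_pos (by linarith)
  rw [div_le_iff₀ hlog]
  rw [div_le_iff₀ hε] at hb
  have hn0 : (0:ℝ) ≤ n := by positivity
  nlinarith [mul_le_mul_of_nonneg_right hb hn0]

/-- A crude form of the first theorem of Mertens. -/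
theorem sum_log_div_le (y : ℕ) (hy : 1 ≤ y) :
    ∑ p ∈ (range (y + 1)).filter Nat.Prime, Real.log p / p ≤ Real.log y + Real.log 4 := by
  have hy0 : (0 : ℝ) < y := by exact_mod_cast hy
  -- log (y!) ≥ ∑ (y / p) log p
  have h1 : ∑ p ∈ (range (y + 1)).filter Nat.Prime, ((y / p : ℕ) : ℝ) * Real.log p
      ≤ Real.log (y.factorial) := by
    have hne : y.factorial ≠ 0 := Nat.factorial_ne_zero y
    have h2 : Real.log (y.factorial) =
        ∑ p ∈ y.factorial.primeFactors, (y.factorial.factorization p : ℝ) * Real.log p := by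
      conv_lhs => rw [← Nat.prod_factorization_pow_eq_self hne]
      rw [Finsupp.prod, Nat.cast_prod, Real.log_prod]
      · rw [Nat.support_factorization]
        refine sum_congr rfl fun p hp => ?_
        push_cast
        rw [Real.log_pow]
      · intro p hp
        have hp' : p.Prime := Nat.prime_of_mem_primeFactors (by simpa using hp)
        have := hp'.pos
        positivity
    rw [h2]
    have hsub : (range (y + 1)).filter Nat.Prime ⊆ y.factorial.primeFactors := by
      intro p hp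
      rw [mem_filter, mem_range] at hp
      rw [Nat.mem_primeFactors]
      exact ⟨hp.2, (hp.2.dvd_factorial).2 (by omega), hne⟩
    refine le_trans (sum_le_sum fun p hp => ?_) (sum_le_sum_of_subset_of_nonneg hsub ?_)
    · rw [mem_filter, mem_range] at hp
      have hpp := hp.2
      have hlogp : 0 ≤ Real.log p := Real.log_natCast_nonneg p
      refine mul_le_mul_of_nonneg_right ?_ hlogp
      have hb : Nat.log p y < Nat.log p y + 1 := Nat.lt_succ_self _
      have := Nat.factorization_factorial hpp hb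
      rw [this]
      have h1mem : (1:ℕ) ∈ Finset.Ico 1 (Nat.log p y + 1) := by
        rw [Finset.mem_Ico]
        refine ⟨le_refl _, ?_⟩
        have : 1 ≤ Nat.log p y := by
          exact Nat.log_pos hpp.one_lt (by omega)
        omega
      have h3 : y / p ≤ ∑ i ∈ Finset.Ico 1 (Nat.log p y + 1), y / p ^ i := by
        have := Finset.single_le_sum (f := fun i => y / p ^ i) (fun i _ => Nat.zero_le _) h1mem
        simpa using this
      exact_mod_cast h3
    · intro p _ _
      have hlogp : 0 ≤ Real.log p := Real.log_natCast_nonneg p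
      positivity
  have h3 : Real.log (y.factorial) ≤ y * Real.log y := by
    have : (y.factorial : ℝ) ≤ (y:ℝ) ^ y := by exact_mod_cast Nat.factorial_le_pow y
    calc Real.log (y.factorial) ≤ Real.log ((y:ℝ)^y) :=
          Real.log_le_log (by exact_mod_cast Nat.factorial_pos y) this
      _ = y * Real.log y := by rw [Real.log_pow]
  have h4 : ∑ p ∈ (range (y + 1)).filter Nat.Prime, Real.log p ≤ Real.log 4 * y := by
    have := Chebyshev.theta_le_log4_mul_x (x := (y:ℝ)) (by positivity)
    refine le_trans (le_of_eq ?_) this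
    rw [Chebyshev.theta_eq_sum_Icc, Nat.floor_natCast]
    refine sum_congr ?_ fun _ _ => rfl
    ext p
    simp only [mem_filter, mem_range, mem_Icc]
    constructor
    · rintro ⟨a, b⟩; exact ⟨⟨by omega, by omega⟩, b⟩
    · rintro ⟨⟨a, b⟩, c⟩; exact ⟨by omega, c⟩
  have h5 : (y : ℝ) * ∑ p ∈ (range (y + 1)).filter Nat.Prime, Real.log p / p
      ≤ ∑ p ∈ (range (y + 1)).filter Nat.Prime, ((y / p : ℕ) : ℝ) * Real.log p
        + ∑ p ∈ (range (y + 1)).filter Nat.Prime, Real.log p := by
    rw [mul_sum, ← sum_add_distrib]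
    refine sum_le_sum fun p hp => ?_
    rw [mem_filter, mem_range] at hp
    have hpp := hp.2
    have hp0 : (0:ℝ) < p := by exact_mod_cast hpp.pos
    have hlogp : 0 ≤ Real.log p := Real.log_natCast_nonneg p
    have h6 : (y : ℝ) / p ≤ ((y / p : ℕ) : ℝ) + 1 := by
      have := Nat.lt_div_mul_add (a := y) hpp.pos
      rw [div_le_iff₀ hp0]
      have h7 : (y : ℝ) < ((y / p : ℕ) : ℝ) * p + p := by exact_mod_cast this
      linarith
    calc (y:ℝ) * (Real.log p / p) = (y / p) * Real.log p := by ring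
      _ ≤ (((y / p : ℕ) : ℝ) + 1) * Real.log p := mul_le_mul_of_nonneg_right h6 hlogp
      _ = _ := by ring
  have h8 : (y : ℝ) * ∑ p ∈ (range (y + 1)).filter Nat.Prime, Real.log p / p
      ≤ y * (Real.log y + Real.log 4) := by
    nlinarith [h5, h1, h3, h4]
  exact le_of_mul_le_mul_left h8 hy0

/-- The sum of `log p` over the primes up to `y`. -/
theorem sum_log_le (y : ℕ) :
    ∑ p ∈ (range (y + 1)).filter Nat.Prime, Real.log p ≤ Real.log 4 * y := by
  have := Chebyshev.theta_le_log4_mul_x (x := (y:ℝ)) (by positivity)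
  refine le_trans (le_of_eq ?_) this
  rw [Chebyshev.theta_eq_sum_Icc, Nat.floor_natCast]
  refine sum_congr ?_ fun _ _ => rfl
  ext p
  simp only [mem_filter, mem_range, mem_Icc]
  constructor
  · rintro ⟨a, b⟩; exact ⟨⟨by omega, by omega⟩, b⟩
  · rintro ⟨⟨a, b⟩, c⟩; exact ⟨by omega, c⟩

/-- `∑_{z < n ≤ M} 1 / n² ≤ 1 / z`. -/
theorem sum_inv_sq_le (z M : ℕ) (hz : 1 ≤ z) :
    ∑ n ∈ Finset.Ioc z M, (1 : ℝ) / (n:ℝ) ^ 2 ≤ 1 / z := by
  rcases le_or_gt z M with h | h
  · have := sum_Ioc_inv_sq_le_sub (α := ℝ) (k := z) (n := M) (by omega) h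
    have h2 : ∑ n ∈ Finset.Ioc z M, (1 : ℝ) / (n:ℝ) ^ 2 = ∑ i ∈ Ioc z M, ((i : ℝ) ^ 2)⁻¹ := by
      refine sum_congr rfl fun _ _ => by rw [one_div]
    rw [h2]
    refine this.trans ?_
    rw [one_div]
    have : (0:ℝ) ≤ (M:ℝ)⁻¹ := by positivity
    linarith
  · rw [Finset.Ioc_eq_empty (by omega)]
    simp

end Pool.Agent.H549.FS
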