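import Pool.Agent.H549.FS.PairSys
import Pool.Agent.H549.FS.Local
import Pool.Agent.H549.FS.Defs

/-! Counting the squarefree `n` with `w n = GG a b u v`. -/

namespace Pool.Agent.H549.FS

open Polynomial Finset

theorem congr_of {n : ℕ} {p q t : ℤ} (hq : 0 < q) (hpq : q < p) (ht : t ≠ 0)
    (h : p * q * (p ^ 2 - q ^ 2) = n * t ^ 2) : IsCongruent n := by
  have hp : 0 < p := hq.trans hpq
  have hsq : 0 < p ^ 2 - q ^ 2 := by nlinarith
  have hpos : 0 < p * q * (p ^ 2 - q ^ 2) := by positivity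
  have htq : (0:ℚ) < ((|t| : ℤ) : ℚ) := by
    have : 0 < |t| := abs_pos.2 ht
    exact_mod_cast this
  have htt : ((|t| : ℤ) : ℚ) ^ 2 = (t:ℚ) ^ 2 := by
    have : |t| ^ 2 = t ^ 2 := sq_abs t
    exact_mod_cast this
  refine ⟨?_, ((p ^ 2 - q ^ 2 : ℤ) : ℚ) / (|t| : ℤ), ((2 * p * q : ℤ) : ℚ) / (|t| : ℤ),
    ((p ^ 2 + q ^ 2 : ℤ) : ℚ) / (|t| : ℤ), ?_, ?_, ?_, ?_, ?_⟩
  · rcases Nat.eq_zero_or_pos n with h0 | h0
    · rw [h, h0] at hpos
      simp at hpos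
    · exact h0
  · exact div_pos (by exact_mod_cast hsq) htq
  · exact div_pos (by exact_mod_cast (by positivity : 0 < 2 * p * q)) htq
  · exact div_pos (by exact_mod_cast (by positivity : 0 < p ^ 2 + q ^ 2)) htq
  · push_cast
    field_simp
    ring
  · have h4 : ((p:ℚ) * q * (p ^ 2 - q ^ 2)) = n * t ^ 2 := by exact_mod_cast h
    have e : ((p ^ 2 - q ^ 2 : ℤ) : ℚ) / (|t| : ℤ) * (((2 * p * q : ℤ) : ℚ) / (|t| : ℤ)) / 2
        = ((p:ℚ) * q * (p ^ 2 - q ^ 2)) / ((|t| : ℤ) : ℚ) ^ 2 := by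
      push_cast
      field_simp
    rw [e, h4, htt]
    have : (t:ℚ) ^ 2 ≠ 0 := by
      have : (t:ℚ) ≠ 0 := by exact_mod_cast ht
      positivity
    field_simp

/-- `w n` is a value of the form with positive factors. -/
def Rep (a b : ℤ) (w n : ℕ) : Prop :=
  ∃ u v : ℤ, 0 < u ∧ 0 < v ∧ 0 < a * v ^ 2 - b * u ^ 2 ∧ 0 < 2 * a * v ^ 2 + b * u ^ 2 ∧
    0 < a * v ^ 2 + 2 * b * u ^ 2 ∧ GG a b u v = w * n

theorem eval_zero_ff (a b : ℤ) : (∏ i, ff a b i).eval 0 = -2 * b ^ 3 := by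
  rw [Fin.prod_univ_three]
  simp only [eval_mul]
  have z0 : (ff a b 0).eval 0 = -b := by
    show (C a * X ^ 2 + C (-b)).eval 0 = _
    simp
  have z1 : (ff a b 1).eval 0 = b := by
    show (C (2 * a) * X ^ 2 + C b).eval 0 = _
    simp
  have z2 : (ff a b 2).eval 0 = 2 * b := by
    show (C a * X ^ 2 + C (2 * b)).eval 0 = _
    simp
  rw [z0, z1, z2]; ring

theorem eval_zero_ff' (a b : ℤ) : (derivative (∏ i, ff a b i)).eval 0 = 0 := by
  rw [Fin.prod_univ_three]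
  simp only [derivative_mul, eval_add, eval_mul]
  have z0 : (derivative (ff a b 0)).eval 0 = 0 := by
    show (derivative (C a * X ^ 2 + C (-b))).eval 0 = _
    simp
  have z1 : (derivative (ff a b 1)).eval 0 = 0 := by
    show (derivative (C (2 * a) * X ^ 2 + C b)).eval 0 = _
    simp
  have z2 : (derivative (ff a b 2)).eval 0 = 0 := by
    show (derivative (C a * X ^ 2 + C (2 * b))).eval 0 = _
    simp
  rw [z0, z1, z2]; ring

/-- The first congruent number. -/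
theorem Rep.congr_left {a b : ℤ} {w n k : ℕ} (h : Rep a b w n) {s : ℤ} (hs : s ≠ 0)
    (hk : 3 * a * (w * n) = k * s ^ 2) : IsCongruent k := by
  obtain ⟨u, v, hu, hv, h0, h1, h2, hG⟩ := h
  refine congr_of (p := 2 * a * v ^ 2 + b * u ^ 2) (q := a * v ^ 2 - b * u ^ 2) (t := s * v) h0
    (by linarith) (mul_ne_zero hs hv.ne') ?_
  have e : (2 * a * v ^ 2 + b * u ^ 2) * (a * v ^ 2 - b * u ^ 2) *
      ((2 * a * v ^ 2 + b * u ^ 2) ^ 2 - (a * v ^ 2 - b * u ^ 2) ^ 2) =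
      3 * a * GG a b u v * v ^ 2 := by unfold GG; ring
  rw [e, hG]
  linear_combination v ^ 2 * hk

/-- The second congruent number. -/
theorem Rep.congr_right {a b : ℤ} {w n k : ℕ} (h : Rep a b w n) (hb : b ≠ 0) {s : ℤ} (hs : s ≠ 0)
    (hk : 3 * |b| * (w * n) = k * s ^ 2) : IsCongruent k := by
  obtain ⟨u, v, hu, hv, h0, h1, h2, hG⟩ := h
  rcases lt_or_gt_of_ne hb with hneg | hpos
  · rw [abs_of_neg hneg] at hk
    have hbu : b * u ^ 2 < 0 := mul_neg_of_neg_of_pos hneg (by positivity)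
    refine congr_of (p := a * v ^ 2 - b * u ^ 2) (q := a * v ^ 2 + 2 * b * u ^ 2) (t := s * u) h2
      (by linarith) (mul_ne_zero hs hu.ne') ?_
    have e : (a * v ^ 2 - b * u ^ 2) * (a * v ^ 2 + 2 * b * u ^ 2) *
      ((a * v ^ 2 - b * u ^ 2) ^ 2 - (a * v ^ 2 + 2 * b * u ^ 2) ^ 2) =
      3 * (-b) * GG a b u v * u ^ 2 := by unfold GG; ring
    rw [e, hG]
    linear_combination u ^ 2 * hk
  · rw [abs_of_pos hpos] at hk
    have hbu : 0 < b * u ^ 2 := by positivity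
    refine congr_of (p := a * v ^ 2 + 2 * b * u ^ 2) (q := a * v ^ 2 - b * u ^ 2) (t := s * u) h0
      (by linarith) (mul_ne_zero hs hu.ne') ?_
    have e : (a * v ^ 2 + 2 * b * u ^ 2) * (a * v ^ 2 - b * u ^ 2) *
      ((a * v ^ 2 + 2 * b * u ^ 2) ^ 2 - (a * v ^ 2 - b * u ^ 2) ^ 2) =
      3 * b * GG a b u v * u ^ 2 := by unfold GG; ring
    rw [e, hG]
    linear_combination u ^ 2 * hk

/-- **Counting.** -/
theorem count_rep {a b : ℤ} (ha : 0 < a) (hb : b ≠ 0) (hab : IsCoprime a b) {w us vs : ℕ}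
    (hw : 0 < w) (hw2 : w ≤ 128) (hodd : ¬ (2 ∣ us ∧ 2 ∣ vs)) {ρ : ℤ} (hρ : ¬ (2:ℤ) ∣ ρ)
    (h2 : Loc a b w us vs ρ) :
    ∃ c : ℝ, 0 < c ∧ ∃ X₀ : ℝ, ∀ X : ℝ, X₀ ≤ X → ∃ T : Finset ℕ,
      c * X ^ (1 / 3 : ℝ) ≤ T.card ∧ ∀ n ∈ T, (n : ℝ) ≤ X ∧ Squarefree n ∧
        (n : ℤ) ≡ ρ [ZMOD 8] ∧ Nat.Coprime n (a * b).natAbs ∧ Nat.Coprime n 3 ∧ Rep a b w n := by
  classical
  obtain ⟨S, hSf, hSw, h128, hus, hvs⟩ := exists_sys a b ha hb hab w us vs hw hw2 hodd ρ hρ h2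
  obtain ⟨c, hc, N₀, hN₀⟩ := S.distinct
  set M0 : ℕ := S.Q * (S.U0 + S.V0 + 2) with hM0
  set C0 : ℝ := ((2 * |a| + 2 * |b| : ℤ) : ℝ) ^ 3 * (M0:ℝ) ^ 6 with hC0
  have hM0pos : 0 < M0 := Nat.mul_pos S.hQ (by omega)
  have habs : (0:ℤ) < 2 * |a| + 2 * |b| := by
    have := abs_pos.2 hb
    have := abs_nonneg a
    linarith
  have habsr : (0:ℝ) < ((2 * |a| + 2 * |b| : ℤ) : ℝ) := by exact_mod_cast habs
  have hM0r : (0:ℝ) < M0 := by exact_mod_cast hM0pos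
  have hC0pos : 0 < C0 := by positivity
  refine ⟨c / (4 * C0 ^ (1 / 3 : ℝ)), by positivity, max C0 (C0 * ((N₀:ℝ) + 1) ^ 6), fun X hX => ?_⟩
  have hX1 : C0 ≤ X := (le_max_left _ _).trans hX
  have hX2 : C0 * ((N₀:ℝ) + 1) ^ 6 ≤ X := (le_max_right _ _).trans hX
  have hXpos : 0 < X := hC0pos.trans_le hX1
  set Y : ℝ := (X / C0) ^ (1 / 6 : ℝ) with hY
  have hXC : 1 ≤ X / C0 := (one_le_div hC0pos).2 hX1
  have hY1 : 1 ≤ Y := Real.one_le_rpow hXC (by norm_num)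
  have hY6 : Y ^ 6 = X / C0 := by
    rw [hY, ← Real.rpow_natCast, ← Real.rpow_mul (by positivity)]
    norm_num
  set N : ℕ := ⌊Y⌋₊ with hN
  have hNY : (N:ℝ) ≤ Y := Nat.floor_le (by linarith)
  have hNY2 : Y < N + 1 := Nat.lt_floor_add_one _
  have hN1 : 1 ≤ N := by rw [hN, Nat.one_le_floor_iff]; exact hY1
  have hN1r : (1:ℝ) ≤ N := by exact_mod_cast hN1
  have hNN : N₀ ≤ N := by
    rw [hN]
    refine Nat.le_floor ?_
    have h3 : ((N₀:ℝ) + 1) ^ 6 ≤ Y ^ 6 := by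
      rw [hY6, le_div_iff₀ hC0pos]
      linarith
    have := (pow_le_pow_iff_left₀ (by positivity) (by linarith) (by norm_num : (6:ℕ) ≠ 0)).1 h3
    linarith
  obtain ⟨T, hT1, hT2⟩ := hN₀ N hNN
  refine ⟨T, ?_, ?_⟩
  · refine le_trans ?_ hT1
    have h3 : Y / 2 ≤ N := by linarith
    have h4 : (Y / 2) ^ 2 ≤ (N:ℝ) ^ 2 := pow_le_pow_left₀ (by linarith) h3 2
    have h5 : Y ^ 2 = X ^ (1 / 3 : ℝ) / C0 ^ (1 / 3 : ℝ) := by
      rw [hY, ← Real.rpow_natCast, ← Real.rpow_mul (by positivity), Real.div_rpow hXpos.le hC0pos.le]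
      norm_num
    calc c / (4 * C0 ^ (1 / 3 : ℝ)) * X ^ (1 / 3 : ℝ) = c * ((Y / 2) ^ 2) := by
          rw [div_pow, h5]
          field_simp
          norm_num
      _ ≤ c * (N:ℝ) ^ 2 := mul_le_mul_of_nonneg_left h4 hc.le
  · intro n hn
    obtain ⟨st, hst, rfl⟩ := hT2 n hn
    rw [S.mem_good] at hst
    obtain ⟨hbox, hcop, hsq⟩ := hst
    obtain ⟨hv1, hv2, _⟩ := S.val_spec hbox
    have hbox' := hbox
    rw [mem_product, mem_range, mem_range] at hbox'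
    have e1 : hom S.F (S.uu N st.1 : ℕ) (S.vv N st.2 : ℕ) =
        GG a b (S.uu N st.1 : ℕ) (S.vv N st.2 : ℕ) := by
      unfold Sys.F
      rw [hSf]
      exact hom_prod_ff b ha.ne' _ _
    rw [e1, hSw] at hv1
    have hupos : 0 < S.uu N st.1 := pt_pos S.hQ S.hU0 hN1
    have hvpos : 0 < S.vv N st.2 := pt_pos S.hQ S.hV0 hN1
    have huz : (0:ℤ) < (S.uu N st.1 : ℕ) := by exact_mod_cast hupos
    have hvz : (0:ℤ) < (S.vv N st.2 : ℕ) := by exact_mod_cast hvpos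
    have f0 := (S.hsize N st.1 st.2 hN1 hbox'.1 hbox'.2 0).1
    have f1 := (S.hsize N st.1 st.2 hN1 hbox'.1 hbox'.2 1).1
    have f2 := (S.hsize N st.1 st.2 hN1 hbox'.1 hbox'.2 2).1
    rw [hSf] at f0 f1 f2
    rw [hom_ff0 b ha.ne'] at f0
    rw [hom_ff1 b ha.ne'] at f1
    rw [hom_ff2 b ha.ne'] at f2
    set u : ℤ := ((S.uu N st.1 : ℕ) : ℤ) with hu
    set v : ℤ := ((S.vv N st.2 : ℕ) : ℤ) with hv
    have f0' : 0 < a * v ^ 2 - b * u ^ 2 := f0
    have f1' : 0 < 2 * a * v ^ 2 + b * u ^ 2 := f1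
    have f2' : 0 < a * v ^ 2 + 2 * b * u ^ 2 := f2
    have h3Q : 3 ∣ S.Q := S.hz 3 Nat.prime_three (by omega)
    refine ⟨?_, hsq, ?_, ?_, hv2.coprime_dvd_right h3Q, ⟨u, v, huz, hvz, f0', f1', f2', hv1⟩⟩
    · -- size
      have q1 : S.uu N st.1 ≤ M0 * N := by
        refine (pt_le S.hu0 hbox'.1).trans ?_
        rw [hM0]
        exact Nat.mul_le_mul_right _ (Nat.mul_le_mul_left _ (by omega))
      have q2 : S.vv N st.2 ≤ M0 * N := by
        refine (pt_le S.hv0 hbox'.2).trans ?_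
        rw [hM0]
        exact Nat.mul_le_mul_right _ (Nat.mul_le_mul_left _ (by omega))
      have q1z : u ≤ (M0:ℤ) * N := by rw [hu]; exact_mod_cast q1
      have q2z : v ≤ (M0:ℤ) * N := by rw [hv]; exact_mod_cast q2
      set W : ℤ := (M0:ℤ) * N with hW
      have hu2 : u ^ 2 ≤ W ^ 2 := pow_le_pow_left₀ huz.le q1z 2
      have hv2' : v ^ 2 ≤ W ^ 2 := pow_le_pow_left₀ hvz.le q2z 2
      have bd : ∀ α β : ℤ, |α| ≤ 2 * |a| → |β| ≤ 2 * |b| →
          α * v ^ 2 + β * u ^ 2 ≤ (2 * |a| + 2 * |b|) * W ^ 2 := by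
        intro α β hα hβ
        have h3 : α * v ^ 2 ≤ 2 * |a| * W ^ 2 := by
          calc α * v ^ 2 ≤ |α| * v ^ 2 := mul_le_mul_of_nonneg_right (le_abs_self α) (sq_nonneg v)
            _ ≤ 2 * |a| * W ^ 2 := mul_le_mul hα hv2' (sq_nonneg v) (by positivity)
        have h4 : β * u ^ 2 ≤ 2 * |b| * W ^ 2 := by
          calc β * u ^ 2 ≤ |β| * u ^ 2 := mul_le_mul_of_nonneg_right (le_abs_self β) (sq_nonneg u)
            _ ≤ 2 * |b| * W ^ 2 := mul_le_mul hβ hu2 (sq_nonneg u) (by positivity)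
        linarith
      have g0 := bd a (-b) (by linarith [abs_nonneg a]) (by rw [abs_neg]; linarith [abs_nonneg b])
      have g1 := bd (2 * a) b (by rw [abs_mul]; norm_num) (by linarith [abs_nonneg b])
      have g2 := bd a (2 * b) (by linarith [abs_nonneg a]) (by rw [abs_mul]; norm_num)
      have g0' : a * v ^ 2 - b * u ^ 2 ≤ (2 * |a| + 2 * |b|) * W ^ 2 := by linarith
      have hE : (0:ℤ) ≤ (2 * |a| + 2 * |b|) * W ^ 2 := by positivity
      have g3 : GG a b u v ≤ ((2 * |a| + 2 * |b|) * W ^ 2) * ((2 * |a| + 2 * |b|) * W ^ 2) *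
          ((2 * |a| + 2 * |b|) * W ^ 2) := by
        unfold GG
        exact mul_le_mul (mul_le_mul g0' g1 f1'.le hE) g2 f2'.le (mul_nonneg hE hE)
      have hwz : (1:ℤ) ≤ w := by exact_mod_cast hw
      have g4 : ((S.val N st : ℕ) : ℤ) ≤ (2 * |a| + 2 * |b|) ^ 3 * ((M0:ℤ)) ^ 6 * (N:ℤ) ^ 6 := by
        have h5 : ((S.val N st : ℕ) : ℤ) ≤ w * ((S.val N st : ℕ) : ℤ) := by
          have : (0:ℤ) ≤ ((S.val N st : ℕ) : ℤ) := by positivity
          nlinarith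
        refine h5.trans ?_
        rw [← hv1]
        refine g3.trans (le_of_eq ?_)
        rw [hW]; ring
      have g5 : ((S.val N st : ℕ) : ℝ) ≤ C0 * (N:ℝ) ^ 6 := by
        rw [hC0]
        exact_mod_cast g4
      refine g5.trans ?_
      have g6 : (N:ℝ) ^ 6 ≤ X / C0 := by
        rw [← hY6]; exact pow_le_pow_left₀ (by positivity) hNY 6
      calc C0 * (N:ℝ) ^ 6 ≤ C0 * (X / C0) := mul_le_mul_of_nonneg_left g6 hC0pos.le
        _ = X := by field_simp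
    · -- class
      have hu' : S.uu N st.1 ≡ us [MOD 128] := ((pt_modEq _ _ _ _ _).of_dvd h128).trans hus
      have hv' : S.vv N st.2 ≡ vs [MOD 128] := ((pt_modEq _ _ _ _ _).of_dvd h128).trans hvs
      obtain ⟨h, hh1, hh2⟩ := h2 _ _ hu' hv'
      have hwz : (w:ℤ) ≠ 0 := by exact_mod_cast hw.ne'
      have : ((S.val N st : ℕ) : ℤ) = h := by
        have h3 : (w:ℤ) * ((S.val N st : ℕ) : ℤ) = w * h := by rw [← hh1, ← hv1]
        exact mul_left_cancel₀ hwz h3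
      rw [this]; exact hh2
    · -- coprime to `a b`
      rw [Int.natAbs_mul]
      have key : ∀ x : ℤ, (∀ p : ℕ, p.Prime → p ∣ x.natAbs → p ∣ S.Q) → x ≠ 0 →
          Nat.Coprime (S.val N st) x.natAbs := by
        intro x hx hx0
        refine Nat.Coprime.symm ?_
        by_contra hnc
        obtain ⟨p, hp, h3, h4⟩ := Nat.Prime.not_coprime_iff_dvd.1 hnc
        exact Nat.not_coprime_of_dvd_of_dvd hp.one_lt h4 (hx p hp h3) hv2
      refine Nat.Coprime.mul_right (key a ?_ ha.ne') (key b ?_ hb)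
      · intro p hp hpa
        by_contra hpQ
        apply (S.hD p hp hpQ).2
        rw [hSf, Fin.prod_univ_three, leadingCoeff_mul, leadingCoeff_mul]
        have : (ff a b 0).leadingCoeff = a := lc_quad ha.ne'
        rw [this]
        have h5 : (p:ℤ) ∣ a := Int.natCast_dvd.2 hpa
        exact (h5.mul_right _).mul_right _
      · intro p hp hpb
        by_contra hpQ
        apply (S.hD p hp hpQ).1
        have h5 : (p:ℤ) ∣ b := Int.natCast_dvd.2 hpb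
        have h6 := congrArg (fun q => q.eval 0) S.hAB
        simp only [eval_add, eval_mul, eval_C] at h6
        rw [← h6]
        have h7 : (∏ i, S.f i).eval 0 = -2 * b ^ 3 := by rw [hSf]; exact eval_zero_ff a b
        have h8 : (derivative (∏ i, S.f i)).eval 0 = 0 := by rw [hSf]; exact eval_zero_ff' a b
        rw [h7, h8, mul_zero, add_zero]
        exact Dvd.dvd.mul_left (Dvd.dvd.mul_left (dvd_pow h5 (by norm_num)) _) _

end Pool.Agent.H549.FS
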