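import Pool.Agent.H549.FS.Count

/-! The two-variable squarefree sieve for products of binary forms of degree at most four. -/

namespace Pool.Agent.H549.FS

open Polynomial Finset

/-- The data of the sieve: forms `f i` of degree at most `4`, with separable product, a class
`(u0, v0)` modulo `Q`, a box, and a fixed divisor `w`. -/
structure Sys (ι : Type) [Fintype ι] where
  f : ι → ℤ[X]
  A : ℤ[X]
  B : ℤ[X]
  D : ℤ
  Q : ℕ
  u0 : ℕ
  v0 : ℕ
  U0 : ℕ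
  V0 : ℕ
  w : ℕ
  K : ℕ
  hQ : 0 < Q
  hu0 : u0 ≤ Q
  hv0 : v0 ≤ Q
  hU0 : 1 ≤ U0
  hV0 : 1 ≤ V0
  hw : 0 < w
  hK : 1 ≤ K
  hAB : A * (∏ i, f i) + B * derivative (∏ i, f i) = C D
  hD : ∀ p : ℕ, p.Prime → ¬ p ∣ Q → ¬ (p:ℤ) ∣ D ∧ ¬ (p:ℤ) ∣ (∏ i, f i).leadingCoeff
  hz : ∀ p : ℕ, p.Prime → p ≤ 16 * ((∏ i, f i).natDegree + 2) → p ∣ Q
  hcop : ∀ p : ℕ, p.Prime → p ∣ Q → ¬ (p ∣ u0 ∧ p ∣ v0)
  hdiv : ∀ u v : ℕ, u ≡ u0 [MOD Q] → v ≡ v0 [MOD Q] →
    ∃ h : ℤ, hom (∏ i, f i) u v = w * h ∧ IsCoprime h (Q:ℤ)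
  hsize : ∀ N s t : ℕ, 1 ≤ N → s < N → t < N → ∀ i,
    0 < hom (f i) (pt Q u0 U0 N s : ℕ) (pt Q v0 V0 N t : ℕ) ∧
    hom (f i) (pt Q u0 U0 N s : ℕ) (pt Q v0 V0 N t : ℕ) ≤ (K:ℤ) ^ 2 * (N:ℤ) ^ 4
  hlow : ∀ N s t : ℕ, 1 ≤ N → s < N → t < N →
    (w:ℤ) * (N:ℤ) ^ 3 ≤ hom (∏ i, f i) (pt Q u0 U0 N s : ℕ) (pt Q v0 V0 N t : ℕ)

namespace Sys

variable {ι : Type} [Fintype ι] (S : Sys ι)

/-- The product of the forms. -/
noncomputable def F : ℤ[X] := ∏ i, S.f i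

/-- First coordinate. -/
def uu (N s : ℕ) : ℕ := pt S.Q S.u0 S.U0 N s
/-- Second coordinate. -/
def vv (N t : ℕ) : ℕ := pt S.Q S.v0 S.V0 N t

theorem exists_val (N : ℕ) (st : ℕ × ℕ) :
    ∃ h : ℤ, hom S.F (S.uu N st.1 : ℕ) (S.vv N st.2 : ℕ) = S.w * h ∧ IsCoprime h (S.Q:ℤ) :=
  S.hdiv _ _ (pt_modEq _ _ _ _ _) (pt_modEq _ _ _ _ _)

/-- The value `hom F u v / w`. -/
noncomputable def val (N : ℕ) (st : ℕ × ℕ) : ℕ := (S.exists_val N st).choose.toNat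

theorem val_spec {N : ℕ} {st : ℕ × ℕ} (h : st ∈ range N ×ˢ range N) :
    hom S.F (S.uu N st.1 : ℕ) (S.vv N st.2 : ℕ) = S.w * (S.val N st : ℤ) ∧
      Nat.Coprime (S.val N st) S.Q ∧ N ^ 3 ≤ S.val N st := by
  rw [mem_product, mem_range, mem_range] at h
  have hN : 1 ≤ N := by omega
  obtain ⟨h1, h2⟩ := (S.exists_val N st).choose_spec
  have h3 := S.hlow N st.1 st.2 hN h.1 h.2
  have hw : (0:ℤ) < S.w := by exact_mod_cast S.hw
  have h4 : (N:ℤ)^3 ≤ (S.exists_val N st).choose := by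
    have : (S.w:ℤ) * (N:ℤ)^3 ≤ S.w * (S.exists_val N st).choose := by
      rw [← h1]; exact h3
    exact le_of_mul_le_mul_left this hw
  have h5 : (0:ℤ) ≤ (S.exists_val N st).choose := le_trans (by positivity) h4
  have h6 : ((S.val N st : ℕ) : ℤ) = (S.exists_val N st).choose := Int.toNat_of_nonneg h5
  refine ⟨?_, ?_, ?_⟩
  · rw [h6]; exact h1
  · rw [← h6] at h2
    exact Nat.isCoprime_iff_coprime.1 h2
  · have : ((N ^ 3 : ℕ) : ℤ) ≤ (S.val N st : ℕ) := by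
      rw [h6]; push_cast; exact h4
    exact_mod_cast this

/-- The good points: coprime coordinates and squarefree value. -/
noncomputable def good (N : ℕ) : Finset (ℕ × ℕ) := by
  classical
  exact (range N ×ˢ range N).filter (fun st =>
    Nat.Coprime (S.uu N st.1) (S.vv N st.2) ∧ Squarefree (S.val N st))

theorem mem_good {N : ℕ} {st : ℕ × ℕ} : st ∈ S.good N ↔ st ∈ range N ×ˢ range N ∧
    Nat.Coprime (S.uu N st.1) (S.vv N st.2) ∧ Squarefree (S.val N st) := by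
  classical
  unfold good
  rw [mem_filter]

/-- The constants. -/
def E1 : ℕ := S.Q * (S.U0 + 2)
def E2 : ℕ := S.Q * (S.U0 + 2) * (S.Q * (S.V0 + 2))
noncomputable def d : ℕ := (∏ i, S.f i).natDegree

theorem uu_le {N s : ℕ} (hs : s < N) : S.uu N s ≤ S.E1 * N := pt_le S.hu0 hs

/-- The set of bad points for `p`: both coordinates divisible. -/
def B1 (N p : ℕ) : Finset (ℕ × ℕ) :=
  (range N ×ˢ range N).filter (fun st => p ∣ S.uu N st.1 ∧ p ∣ S.vv N st.2)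
/-- `p²` divides the value and `p` does not divide the first coordinate. -/
noncomputable def B2 (N p : ℕ) : Finset (ℕ × ℕ) :=
  (range N ×ˢ range N).filter (fun st => ¬ (p:ℤ) ∣ (S.uu N st.1 : ℕ) ∧
    ((p:ℤ)^2) ∣ hom (∏ i, S.f i) (S.uu N st.1 : ℕ) (S.vv N st.2 : ℕ))
/-- `p²` divides the value, coordinates coprime. -/
noncomputable def B3 (N p : ℕ) : Finset (ℕ × ℕ) :=
  (range N ×ˢ range N).filter (fun st => Nat.Coprime (S.uu N st.1) (S.vv N st.2) ∧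
    ((p:ℤ)^2) ∣ hom (∏ i, S.f i) (S.uu N st.1 : ℕ) (S.vv N st.2 : ℕ))
/-- `p` divides the value and `p` does not divide the first coordinate. -/
noncomputable def B4 (N p : ℕ) : Finset (ℕ × ℕ) :=
  (range N ×ˢ range N).filter (fun st => ¬ (p:ℤ) ∣ (S.uu N st.1 : ℕ) ∧
    ((p:ℤ)^1) ∣ hom (∏ i, S.f i) (S.uu N st.1 : ℕ) (S.vv N st.2 : ℕ))

theorem card_B1 {N p : ℕ} (hp : p.Prime) (hpQ : ¬ p ∣ S.Q) :
    (S.B1 N p).card ≤ (N / p + 1) ^ 2 := by
  have hc : Nat.Coprime p S.Q := (Nat.Prime.coprime_iff_not_dvd hp).2 hpQ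
  have h1 : S.B1 N p = ((range N).filter (fun s => p ∣ pt S.Q S.u0 S.U0 N s)) ×ˢ
      ((range N).filter (fun s => p ∣ pt S.Q S.v0 S.V0 N s)) := by
    ext ⟨s, t⟩
    rw [B1, mem_filter, mem_product, mem_product, mem_filter, mem_filter]
    unfold uu vv
    tauto
  rw [h1, card_product, sq]
  exact Nat.mul_le_mul (card_dvd_pt hp.pos hc) (card_dvd_pt hp.pos hc)

theorem card_fib {N p k : ℕ} (hp : p.Prime) (hk : 1 ≤ k) (hpQ : ¬ p ∣ S.Q)
    (hlift : ∀ r s : ℤ, ((p:ℤ)^k) ∣ (∏ i, S.f i).eval r → ((p:ℤ)^k) ∣ (∏ i, S.f i).eval s →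
      (p:ℤ) ∣ s - r → ((p:ℤ)^k) ∣ s - r) :
    ((range N ×ˢ range N).filter (fun st : ℕ × ℕ => ¬ (p:ℤ) ∣ (S.uu N st.1 : ℕ) ∧
    ((p:ℤ)^k) ∣ hom (∏ i, S.f i) (S.uu N st.1 : ℕ) (S.vv N st.2 : ℕ))).card
      ≤ N * (S.d * (N / p ^ k + 1)) := by
  classical
  have h1 := card_le_mul_card_image_of_maps_to (f := fun st : ℕ × ℕ => st.1)
    (s := (range N ×ˢ range N).filter (fun st : ℕ × ℕ => ¬ (p:ℤ) ∣ (S.uu N st.1 : ℕ) ∧
    ((p:ℤ)^k) ∣ hom (∏ i, S.f i) (S.uu N st.1 : ℕ) (S.vv N st.2 : ℕ)))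
    (t := range N) (fun st hst => by
      rw [mem_filter, mem_product] at hst; exact hst.1.1) (S.d * (N / p ^ k + 1)) ?_
  · rw [card_range, mul_comm] at h1
    exact h1
  · intro s hs
    by_cases hu : (p:ℤ) ∣ (S.uu N s : ℕ)
    · rw [card_eq_zero.2]
      · exact Nat.zero_le _
      · rw [filter_eq_empty_iff]
        intro st hst
        rw [mem_filter] at hst
        rintro rfl
        exact hst.2.1 hu
    · have h2 := card_fiber (∏ i, S.f i) hp hk hpQ (S.hD p hp hpQ).2 hlift (S.uu N s : ℕ) hu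
        ((S.v0 + S.Q * (S.V0 * N) : ℕ) : ℤ) N
      refine le_trans ?_ h2
      refine card_le_card_of_injOn (fun st => st.2) ?_ ?_
      · intro st hst
        have hst' := hst
        simp only [coe_filter, mem_filter, mem_product, mem_range, Set.mem_ofPred_eq] at hst' ⊢
        obtain ⟨⟨⟨ha, hb⟩, hc, hd⟩, he⟩ := hst'
        subst he
        refine ⟨hb, ?_⟩
        have e : ((S.v0 + S.Q * (S.V0 * N) : ℕ) : ℤ) + (S.Q : ℤ) * (st.2 : ℕ)
            = ((S.vv N st.2 : ℕ) : ℤ) := by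
          unfold vv pt
          push_cast
          ring
        rw [e]
        exact hd
      · intro x hx y hy hxy
        have hx' := hx
        have hy' := hy
        simp only [coe_filter, mem_filter, Set.mem_ofPred_eq] at hx' hy'
        exact Prod.ext (hx'.2.trans hy'.2.symm) hxy

theorem card_B2 {N p : ℕ} (hp : p.Prime) (hpQ : ¬ p ∣ S.Q) :
    (S.B2 N p).card ≤ N * (S.d * (N / p ^ 2 + 1)) :=
  S.card_fib hp (by norm_num) hpQ fun _ _ hr hs hrs =>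
    root_lift S.hAB hp (S.hD p hp hpQ).1 hr hs hrs

theorem card_B4 {N p : ℕ} (hp : p.Prime) (hpQ : ¬ p ∣ S.Q) :
    (S.B4 N p).card ≤ N * (S.d * (N / p ^ 1 + 1)) :=
  S.card_fib hp le_rfl hpQ fun _ _ _ _ hrs => by simpa using hrs

theorem card_B3 {N p : ℕ} (hp : p.Prime) (hpQ : ¬ p ∣ S.Q) (hbig : S.E2 * N ^ 2 ≤ p ^ 2) :
    (S.B3 N p).card ≤ S.d :=
  card_big _ S.A S.B S.D S.hAB hp (S.hD p hp hpQ).1 (S.hD p hp hpQ).2 S.hQ S.hu0 S.hU0 S.hv0
    S.hV0 hbig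

theorem p_not_dvd_Q_of_both {N p : ℕ} (hp : p.Prime) {s t : ℕ} (h1 : p ∣ S.uu N s)
    (h2 : p ∣ S.vv N t) : ¬ p ∣ S.Q := by
  intro h
  apply S.hcop p hp h
  constructor
  · exact ((pt_modEq S.Q S.u0 S.U0 N s).of_dvd h).symm.dvd_iff (dvd_refl p) |>.2 h1
  · exact ((pt_modEq S.Q S.v0 S.V0 N t).of_dvd h).symm.dvd_iff (dvd_refl p) |>.2 h2

/-- Primes in `(a, b]`. -/
def PP (a b : ℕ) : Finset ℕ := (Finset.Ioc a b).filter Nat.Prime

theorem mem_PP {a b p : ℕ} : p ∈ PP a b ↔ (a < p ∧ p ≤ b) ∧ p.Prime := by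
  unfold PP
  rw [mem_filter, mem_Ioc]

theorem card_PP_le (a b : ℕ) : (PP a b).card ≤ Nat.primeCounting b := by
  rw [Nat.primeCounting, Nat.primeCounting', Nat.count_eq_card_filter_range]
  refine card_le_card fun p hp => ?_
  rw [mem_PP] at hp
  rw [mem_filter, mem_range]
  exact ⟨by omega, hp.2⟩

theorem gt_z {p : ℕ} (hp : p.Prime) (hpQ : ¬ p ∣ S.Q) : 16 * (S.d + 2) < p := by
  by_contra h
  exact hpQ (S.hz p hp (not_lt.1 h))

theorem E2_pos : 1 ≤ S.E2 := by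
  unfold E2
  have := S.hQ
  exact Nat.mul_pos (Nat.mul_pos this (by omega)) (Nat.mul_pos this (by omega))

theorem E1_pos : 1 ≤ S.E1 := by
  unfold E1
  have := S.hQ
  exact Nat.mul_pos this (by omega)

theorem bad_subset [DecidableEq ι] (N : ℕ) : (range N ×ˢ range N) \ S.good N ⊆
    ((PP (16 * (S.d + 2)) (S.E1 * N)).filter (fun p => ¬ p ∣ S.Q)).biUnion (S.B1 N) ∪
    ((PP (16 * (S.d + 2)) (S.E2 * N)).filter (fun p => ¬ p ∣ S.Q)).biUnion (S.B2 N) ∪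
    ((PP (S.E2 * N) (S.K * N ^ 2)).filter (fun p => ¬ p ∣ S.Q)).biUnion (S.B3 N) := by
  classical
  intro st hst
  rw [mem_sdiff, mem_good] at hst
  obtain ⟨hbox, hng⟩ := hst
  have hbox' := hbox
  rw [mem_product, mem_range, mem_range] at hbox'
  have hN : 1 ≤ N := by omega
  rw [mem_union, mem_union]
  by_cases hc : Nat.Coprime (S.uu N st.1) (S.vv N st.2)
  · have hnsq : ¬ Squarefree (S.val N st) := fun h => hng ⟨hbox, hc, h⟩
    rw [Nat.squarefree_iff_prime_squarefree] at hnsq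
    push Not at hnsq
    obtain ⟨p, hp, hpv⟩ := hnsq
    obtain ⟨hv1, hv2, _⟩ := S.val_spec hbox
    have hpQ : ¬ p ∣ S.Q := by
      intro h
      exact Nat.not_coprime_of_dvd_of_dvd hp.one_lt ((Dvd.intro _ rfl).trans hpv) h hv2
    have hpF : ((p:ℤ)^2) ∣ hom (∏ i, S.f i) (S.uu N st.1 : ℕ) (S.vv N st.2 : ℕ) := by
      have h1 : ((p:ℤ)^2) ∣ (S.val N st : ℤ) := by
        rw [sq]; exact_mod_cast hpv
      have h2 : hom (∏ i, S.f i) (S.uu N st.1 : ℕ) (S.vv N st.2 : ℕ) = S.w * (S.val N st : ℤ) := hv1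
      rw [h2]
      exact Dvd.dvd.mul_left h1 _
    obtain ⟨hpD, hplc⟩ := S.hD p hp hpQ
    have hu := not_dvd_left _ hp hplc hc ((dvd_pow_self _ two_ne_zero).trans hpF)
    have hgz := S.gt_z hp hpQ
    by_cases hple : p ≤ S.E2 * N
    · left; right
      rw [mem_biUnion]
      refine ⟨p, ?_, ?_⟩
      · rw [mem_filter, mem_PP]
        exact ⟨⟨⟨hgz, hple⟩, hp⟩, hpQ⟩
      · rw [B2, mem_filter]
        exact ⟨hbox, hu, hpF⟩
    · right
      rw [mem_biUnion]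
      refine ⟨p, ?_, ?_⟩
      · rw [mem_filter, mem_PP]
        refine ⟨⟨⟨by omega, ?_⟩, hp⟩, hpQ⟩
        obtain ⟨i, hi⟩ := sq_dvd_factor S.f S.A S.B S.D S.hAB hp hpD hplc hc hpF
        obtain ⟨hs1, hs2⟩ := S.hsize N st.1 st.2 hN hbox'.1 hbox'.2 i
        have h3 := (Int.le_of_dvd hs1 hi).trans hs2
        have h4 : p ^ 2 ≤ (S.K * N ^ 2) ^ 2 := by
          have : ((p:ℤ))^2 ≤ ((S.K:ℤ) * (N:ℤ) ^ 2) ^ 2 := by
            calc ((p:ℤ))^2 ≤ (S.K:ℤ) ^ 2 * (N:ℤ) ^ 4 := h3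
              _ = _ := by ring
          exact_mod_cast this
        exact (Nat.pow_le_pow_iff_left two_ne_zero).1 h4
      · rw [B3, mem_filter]
        exact ⟨hbox, hc, hpF⟩
  · left; left
    obtain ⟨p, hp, h1, h2⟩ := Nat.Prime.not_coprime_iff_dvd.1 hc
    have hpQ := S.p_not_dvd_Q_of_both hp h1 h2
    rw [mem_biUnion]
    refine ⟨p, ?_, ?_⟩
    · rw [mem_filter, mem_PP]
      refine ⟨⟨⟨S.gt_z hp hpQ, ?_⟩, hp⟩, hpQ⟩
      exact (Nat.le_of_dvd (pt_pos S.hQ S.hU0 hN) h1).trans (S.uu_le hbox'.1)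
    · rw [B1, mem_filter]
      exact ⟨hbox, h1, h2⟩

theorem sum_PP_le (z M : ℕ) (hz : 1 ≤ z) :
    ∑ p ∈ PP z M, (1 : ℝ) / (p:ℝ) ^ 2 ≤ 1 / z := by
  refine le_trans (sum_le_sum_of_subset_of_nonneg (filter_subset _ _) ?_) (sum_inv_sq_le z M hz)
  intro i _ _
  positivity

/-- At least `7/8` of the points of the box are good. -/
theorem card_good : ∃ N₀ : ℕ, ∀ N : ℕ, N₀ ≤ N → (7 / 8 : ℝ) * (N:ℝ) ^ 2 ≤ (S.good N).card := by
  classical
  set T : ℝ := 2 * S.E1 + S.d * S.E2 + S.d * S.K + 1 with hT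
  have hTpos : 0 < T := by positivity
  obtain ⟨x₀, hx1, hx₀⟩ := primeCounting_le_eps (ε := 1 / (16 * T)) (by positivity)
  refine ⟨⌈x₀⌉₊ + 1, fun N hN => ?_⟩
  have hNx : x₀ ≤ N := by
    have h1 : x₀ ≤ ⌈x₀⌉₊ := Nat.le_ceil x₀
    have h2 : ((⌈x₀⌉₊ + 1 : ℕ) : ℝ) ≤ N := by exact_mod_cast hN
    push_cast at h2
    linarith
  have hN1 : 1 ≤ N := by omega
  have hNr : (1:ℝ) ≤ N := by exact_mod_cast hN1
  -- the three sums
  have hd0 : (0:ℝ) ≤ S.d := by positivity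
  have hz1 : 1 ≤ 16 * (S.d + 2) := by omega
  have hsub := S.bad_subset N
  have hcard := card_le_card hsub
  have hgs : S.good N ⊆ range N ×ˢ range N := fun st hst => ((S.mem_good).1 hst).1
  have hbox : ((range N ×ˢ range N) \ S.good N).card + (S.good N).card = N ^ 2 := by
    rw [card_sdiff_add_card_eq_card hgs, card_product, card_range, sq]
  -- bound 1
  have b1 : ((((PP (16 * (S.d + 2)) (S.E1 * N)).filter (fun p => ¬ p ∣ S.Q)).biUnion (S.B1 N)).card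
      : ℝ) ≤ 2 * (N:ℝ)^2 / (16 * (S.d + 2)) + 2 * (1 / (16 * T) * (S.E1 * N)) := by
    have h1 : (((PP (16 * (S.d + 2)) (S.E1 * N)).filter (fun p => ¬ p ∣ S.Q)).biUnion (S.B1 N)).card
        ≤ ∑ p ∈ (PP (16 * (S.d + 2)) (S.E1 * N)).filter (fun p => ¬ p ∣ S.Q), (N / p + 1) ^ 2 := by
      refine card_biUnion_le.trans (sum_le_sum fun p hp => ?_)
      rw [mem_filter, mem_PP] at hp
      exact S.card_B1 hp.1.2 hp.2
    have h2 : ((∑ p ∈ (PP (16 * (S.d + 2)) (S.E1 * N)).filter (fun p => ¬ p ∣ S.Q),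
        (N / p + 1) ^ 2 : ℕ) : ℝ) ≤
        ∑ p ∈ PP (16 * (S.d + 2)) (S.E1 * N), (2 * (N:ℝ)^2 * (1 / (p:ℝ)^2) + 2) := by
      push_cast
      refine (sum_le_sum_of_subset_of_nonneg (filter_subset _ _) fun _ _ _ => by positivity).trans
        (sum_le_sum fun p hp => ?_)
      rw [mem_PP] at hp
      have hp0 : (0:ℝ) < p := by exact_mod_cast hp.2.pos
      have h3 : ((N / p : ℕ) : ℝ) ≤ (N:ℝ) / p := Nat.cast_div_le
      have h4 : (0:ℝ) ≤ ((N / p : ℕ) : ℝ) := by positivity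
      have h5 : (((N / p : ℕ) : ℝ) + 1) ^ 2 ≤ 2 * ((N:ℝ) / p) ^ 2 + 2 := by
        have h6 : ((N / p : ℕ) : ℝ) ^ 2 ≤ ((N:ℝ) / p) ^ 2 := by
          exact pow_le_pow_left₀ h4 h3 2
        nlinarith [sq_nonneg (((N / p : ℕ) : ℝ) - 1)]
      calc _ ≤ 2 * ((N:ℝ) / p) ^ 2 + 2 := h5
        _ = _ := by field_simp
    have h7 : ∑ p ∈ PP (16 * (S.d + 2)) (S.E1 * N), (2 * (N:ℝ)^2 * (1 / (p:ℝ)^2) + 2)
        ≤ 2 * (N:ℝ)^2 * (1 / (16 * (S.d + 2))) + 2 * (1 / (16 * T) * (S.E1 * N)) := by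
      rw [sum_add_distrib, ← mul_sum, sum_const, nsmul_eq_mul]
      have h8 := sum_PP_le (16 * (S.d + 2)) (S.E1 * N) hz1
      have h9 : ((PP (16 * (S.d + 2)) (S.E1 * N)).card : ℝ) ≤ 1 / (16 * T) * (S.E1 * N) := by
        have h10 : ((PP (16 * (S.d + 2)) (S.E1 * N)).card : ℝ) ≤ Nat.primeCounting (S.E1 * N) := by
          exact_mod_cast card_PP_le _ _
        refine h10.trans ?_
        have h11 := hx₀ (S.E1 * N) (by
          push_cast
          have : (1:ℝ) ≤ S.E1 := by exact_mod_cast S.E1_pos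
          nlinarith)
        push_cast at h11
        exact h11
      push_cast at h8
      have h12 : (0:ℝ) ≤ 2 * (N:ℝ)^2 := by positivity
      have := mul_le_mul_of_nonneg_left h8 h12
      linarith
    have h13 : (((((PP (16 * (S.d + 2)) (S.E1 * N)).filter (fun p => ¬ p ∣ S.Q)).biUnion
        (S.B1 N)).card : ℕ) : ℝ) ≤ _ := (Nat.cast_le (α := ℝ)).2 h1
    refine h13.trans (h2.trans (h7.trans (le_of_eq ?_)))
    ring
  -- bound 2
  have b2 : ((((PP (16 * (S.d + 2)) (S.E2 * N)).filter (fun p => ¬ p ∣ S.Q)).biUnion (S.B2 N)).card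
      : ℝ) ≤ S.d * (N:ℝ)^2 / (16 * (S.d + 2)) + N * S.d * (1 / (16 * T) * (S.E2 * N)) := by
    have h1 : (((PP (16 * (S.d + 2)) (S.E2 * N)).filter (fun p => ¬ p ∣ S.Q)).biUnion (S.B2 N)).card
        ≤ ∑ p ∈ (PP (16 * (S.d + 2)) (S.E2 * N)).filter (fun p => ¬ p ∣ S.Q),
          N * (S.d * (N / p ^ 2 + 1)) := by
      refine card_biUnion_le.trans (sum_le_sum fun p hp => ?_)
      rw [mem_filter, mem_PP] at hp
      exact S.card_B2 hp.1.2 hp.2
    have h2 : ((∑ p ∈ (PP (16 * (S.d + 2)) (S.E2 * N)).filter (fun p => ¬ p ∣ S.Q),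
        N * (S.d * (N / p ^ 2 + 1)) : ℕ) : ℝ) ≤
        ∑ p ∈ PP (16 * (S.d + 2)) (S.E2 * N), (S.d * (N:ℝ)^2 * (1 / (p:ℝ)^2) + N * S.d) := by
      push_cast
      refine (sum_le_sum_of_subset_of_nonneg (filter_subset _ _) fun _ _ _ => by positivity).trans
        (sum_le_sum fun p hp => ?_)
      rw [mem_PP] at hp
      have hp0 : (0:ℝ) < p := by exact_mod_cast hp.2.pos
      have h3 : ((N / p ^ 2 : ℕ) : ℝ) ≤ (N:ℝ) / (p:ℝ) ^ 2 := by
        have := Nat.cast_div_le (α := ℝ) (m := N) (n := p ^ 2)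
        push_cast at this
        exact this
      have h4 : (N:ℝ) * (S.d * (((N / p ^ 2 : ℕ) : ℝ) + 1)) ≤
          (N:ℝ) * (S.d * ((N:ℝ) / (p:ℝ) ^ 2 + 1)) := by
        refine mul_le_mul_of_nonneg_left (mul_le_mul_of_nonneg_left (by linarith) hd0) (by positivity)
      calc _ ≤ (N:ℝ) * (S.d * ((N:ℝ) / (p:ℝ) ^ 2 + 1)) := h4
        _ = _ := by field_simp
    have h7 : ∑ p ∈ PP (16 * (S.d + 2)) (S.E2 * N), (S.d * (N:ℝ)^2 * (1 / (p:ℝ)^2) + N * S.d)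
        ≤ S.d * (N:ℝ)^2 * (1 / (16 * (S.d + 2))) + (1 / (16 * T) * (S.E2 * N)) * (N * S.d) := by
      rw [sum_add_distrib, ← mul_sum, sum_const, nsmul_eq_mul]
      have h8 := sum_PP_le (16 * (S.d + 2)) (S.E2 * N) hz1
      have h9 : ((PP (16 * (S.d + 2)) (S.E2 * N)).card : ℝ) ≤ 1 / (16 * T) * (S.E2 * N) := by
        have h10 : ((PP (16 * (S.d + 2)) (S.E2 * N)).card : ℝ) ≤ Nat.primeCounting (S.E2 * N) := by
          exact_mod_cast card_PP_le _ _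
        refine h10.trans ?_
        have h11 := hx₀ (S.E2 * N) (by
          push_cast
          have : (1:ℝ) ≤ S.E2 := by exact_mod_cast S.E2_pos
          nlinarith)
        push_cast at h11
        exact h11
      push_cast at h8
      have h12 : (0:ℝ) ≤ S.d * (N:ℝ)^2 := by positivity
      have h13 := mul_le_mul_of_nonneg_left h8 h12
      have h14 : (0:ℝ) ≤ N * S.d := by positivity
      have h15 := mul_le_mul_of_nonneg_right h9 h14
      linarith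
    have h13 : (((((PP (16 * (S.d + 2)) (S.E2 * N)).filter (fun p => ¬ p ∣ S.Q)).biUnion
        (S.B2 N)).card : ℕ) : ℝ) ≤ _ := (Nat.cast_le (α := ℝ)).2 h1
    refine h13.trans (h2.trans (h7.trans (le_of_eq ?_)))
    ring
  -- bound 3
  have b3 : ((((PP (S.E2 * N) (S.K * N ^ 2)).filter (fun p => ¬ p ∣ S.Q)).biUnion (S.B3 N)).card
      : ℝ) ≤ S.d * (1 / (16 * T) * (S.K * N ^ 2)) := by
    have h1 : (((PP (S.E2 * N) (S.K * N ^ 2)).filter (fun p => ¬ p ∣ S.Q)).biUnion (S.B3 N)).card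
        ≤ (PP (S.E2 * N) (S.K * N ^ 2)).card * S.d := by
      refine card_biUnion_le.trans ?_
      refine (sum_le_sum (g := fun _ => S.d) fun p hp => ?_).trans ?_
      · rw [mem_filter, mem_PP] at hp
        refine S.card_B3 hp.1.2 hp.2 ?_
        have h2 : S.E2 * N ≤ p := hp.1.1.1.le
        calc S.E2 * N ^ 2 ≤ S.E2 ^ 2 * N ^ 2 :=
              Nat.mul_le_mul_right _ (Nat.le_self_pow two_ne_zero _)
          _ = (S.E2 * N) ^ 2 := by ring
          _ ≤ p ^ 2 := Nat.pow_le_pow_left h2 2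
      · rw [sum_const, smul_eq_mul]
        exact Nat.mul_le_mul_right _ (card_le_card (filter_subset _ _))
    have h9 : ((PP (S.E2 * N) (S.K * N ^ 2)).card : ℝ) ≤ 1 / (16 * T) * (S.K * N ^ 2) := by
      have h10 : ((PP (S.E2 * N) (S.K * N ^ 2)).card : ℝ) ≤ Nat.primeCounting (S.K * N ^ 2) := by
        exact_mod_cast card_PP_le _ _
      refine h10.trans ?_
      have h11 := hx₀ (S.K * N ^ 2) (by
        push_cast
        have : (1:ℝ) ≤ S.K := by exact_mod_cast S.hK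
        nlinarith [mul_le_mul_of_nonneg_right this (by positivity : (0:ℝ) ≤ (N:ℝ)^2)])
      push_cast at h11
      exact h11
    have h13 : (((((PP (S.E2 * N) (S.K * N ^ 2)).filter (fun p => ¬ p ∣ S.Q)).biUnion
        (S.B3 N)).card : ℕ) : ℝ) ≤ ((PP (S.E2 * N) (S.K * N ^ 2)).card * S.d : ℕ) :=
      (Nat.cast_le (α := ℝ)).2 h1
    push_cast at h13
    nlinarith [mul_le_mul_of_nonneg_right h9 hd0]
  have hall : (((range N ×ˢ range N) \ S.good N).card : ℝ) ≤ (N:ℝ)^2 / 8 := by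
    have h1 : (((range N ×ˢ range N) \ S.good N).card : ℝ) ≤
      ((((PP (16 * (S.d + 2)) (S.E1 * N)).filter (fun p => ¬ p ∣ S.Q)).biUnion (S.B1 N)).card : ℝ)
      + ((((PP (16 * (S.d + 2)) (S.E2 * N)).filter (fun p => ¬ p ∣ S.Q)).biUnion (S.B2 N)).card : ℝ)
      + ((((PP (S.E2 * N) (S.K * N ^ 2)).filter (fun p => ¬ p ∣ S.Q)).biUnion (S.B3 N)).card : ℝ) := by
      have h2 := hcard.trans ((card_union_le _ _).trans
        (Nat.add_le_add_right (card_union_le _ _) _))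
      exact_mod_cast h2
    have h3 : 2 * (N:ℝ)^2 / (16 * (S.d + 2)) + S.d * (N:ℝ)^2 / (16 * (S.d + 2)) = (N:ℝ)^2 / 16 := by
      have : (S.d + 2 : ℝ) ≠ 0 := by positivity
      field_simp
      ring
    have h4 : 2 * (1 / (16 * T) * (S.E1 * N)) + N * S.d * (1 / (16 * T) * (S.E2 * N)) +
        S.d * (1 / (16 * T) * (S.K * N ^ 2)) ≤ (N:ℝ)^2 / 16 := by
      have h5 : (S.E1:ℝ) * N ≤ S.E1 * N ^ 2 := by
        have : (0:ℝ) ≤ S.E1 := by positivity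
        nlinarith [mul_nonneg this (by positivity : (0:ℝ) ≤ (N:ℝ))]
      have h6 : (0:ℝ) ≤ 1 / (16 * T) := by positivity
      have h7 : 2 * (1 / (16 * T) * (S.E1 * N)) + N * S.d * (1 / (16 * T) * (S.E2 * N)) +
        S.d * (1 / (16 * T) * (S.K * N ^ 2)) ≤
          1 / (16 * T) * ((2 * S.E1 + S.d * S.E2 + S.d * S.K) * N ^ 2) := by
        have := mul_le_mul_of_nonneg_left h5 h6
        nlinarith
      refine h7.trans ?_
      have h8 : (2 * S.E1 + S.d * S.E2 + S.d * S.K : ℝ) ≤ T := by rw [hT]; linarith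
      have h9 : 1 / (16 * T) * ((2 * S.E1 + S.d * S.E2 + S.d * S.K) * (N:ℝ) ^ 2) ≤
          1 / (16 * T) * (T * (N:ℝ) ^ 2) := by
        refine mul_le_mul_of_nonneg_left (mul_le_mul_of_nonneg_right h8 (by positivity)) h6
      refine h9.trans (le_of_eq ?_)
      field_simp
    linarith
  have hb : ((((range N ×ˢ range N) \ S.good N).card + (S.good N).card : ℕ) : ℝ) = (N:ℝ) ^ 2 := by
    rw [hbox]; push_cast; ring
  push_cast at hb
  linarith

end Sys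

end Pool.Agent.H549.FS
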