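import Pool.Agent.H549.FS.Distinct
import Pool.Agent.H549.FS.Pairs

/-! The forms `λ σ² + μ τ²` with `a σ² + b τ² = (a + b) ρ²`. -/

namespace Pool.Agent.H549.FS

open Polynomial Finset

section field

variable (a b : ℚ)

/-- First coordinate of the conic. -/
noncomputable def qS : ℚ[X] := C a * X ^ 2 + C (2 * b) * X - C b
/-- Second coordinate of the conic. -/
noncomputable def qT : ℚ[X] := C a * X ^ 2 - C (2 * a) * X - C b
/-- Third coordinate of the conic. -/
noncomputable def qR : ℚ[X] := C a * X ^ 2 + C b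

/-- The form. -/
noncomputable def qF (l m : ℚ) : ℚ[X] := C l * qS a b ^ 2 + C m * qT a b ^ 2

variable {a b}

theorem two_eq : (2 : ℚ[X]) = C 2 := (map_ofNat C 2).symm

theorem qconic : qF a b a b = C (a + b) * qR a b ^ 2 := by
  unfold qF qS qT qR
  simp only [C_mul, C_add, ← two_eq]
  ring

theorem qST (hb : b ≠ 0) (hab : a + b ≠ 0) : IsCoprime (qS a b) (qT a b) := by
  have h : (C (2 * b * (a + b)) : ℚ[X]) * C ((2 * b * (a + b))⁻¹) = 1 := by
    rw [← C_mul, mul_inv_cancel₀ (mul_ne_zero (mul_ne_zero two_ne_zero hb) hab), C_1]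
  refine ⟨C ((2 * b * (a + b))⁻¹) * (C a * X - C (2 * a)),
    C ((2 * b * (a + b))⁻¹) * (- C a * X - C (2 * b)), ?_⟩
  have e : (C a * X - C (2 * a)) * qS a b + (- C a * X - C (2 * b)) * qT a b =
      C (2 * b * (a + b)) := by
    unfold qS qT
    simp only [C_mul, C_add, ← two_eq]
    ring
  linear_combination C ((2 * b * (a + b))⁻¹) * e + h

theorem qpair (hb : b ≠ 0) (hab : a + b ≠ 0) {l m l' m' : ℚ}
    (hd : l * m' - l' * m ≠ 0) : IsCoprime (qF a b l m) (qF a b l' m') := by
  obtain ⟨A, B, hAB⟩ := (qST hb hab).pow (m := 2) (n := 2)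
  have h : (C (l * m' - l' * m) : ℚ[X]) * C ((l * m' - l' * m)⁻¹) = 1 := by
    rw [← C_mul, mul_inv_cancel₀ hd, C_1]
  refine ⟨C ((l * m' - l' * m)⁻¹) * (A * C m' - B * C l'),
    C ((l * m' - l' * m)⁻¹) * (B * C l - A * C m), ?_⟩
  have e : (A * C m' - B * C l') * qF a b l m + (B * C l - A * C m) * qF a b l' m' =
      C (l * m' - l' * m) * (A * qS a b ^ 2 + B * qT a b ^ 2) := by
    unfold qF
    simp only [C_mul, C_sub]
    ring
  rw [hAB, mul_one] at e
  linear_combination C ((l * m' - l' * m)⁻¹) * e + h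

theorem qsep (hb : b ≠ 0) (hab : a + b ≠ 0) {l m : ℚ} (hl : l ≠ 0) (hm : m ≠ 0)
    (hd : l * b - a * m ≠ 0) : (qF a b l m).Separable := by
  obtain ⟨α, β, hαβ⟩ := qST hb hab
  have h1 : IsCoprime (qF a b l m) (C (a + b) * qR a b ^ 2) := by
    rw [← qconic]; exact qpair hb hab hd
  have h2 : IsCoprime (qF a b l m) (qR a b) := by
    have := (IsCoprime.mul_right_iff.1 h1).2
    exact (IsCoprime.pow_right_iff (by norm_num)).1 this
  obtain ⟨P, Q, hPQ⟩ := h2
  have dS : derivative (qS a b) = C (2 * a) * X + C (2 * b) := by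
    unfold qS
    simp only [derivative_sub, derivative_add, derivative_C_mul, derivative_X_pow, derivative_C,
      derivative_X]
    push_cast
    simp only [C_mul, ← two_eq]
    ring
  have dT : derivative (qT a b) = C (2 * a) * X - C (2 * a) := by
    unfold qT
    simp only [derivative_sub, derivative_C_mul, derivative_X_pow, derivative_C,
      derivative_X]
    push_cast
    simp only [C_mul, ← two_eq]
    ring
  have dF : derivative (qF a b l m) = 2 * C l * qS a b * derivative (qS a b) +
      2 * C m * qT a b * derivative (qT a b) := by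
    unfold qF
    simp only [derivative_add, derivative_C_mul, derivative_pow]
    simp only [Nat.cast_ofNat, Nat.add_one_sub_one, pow_one, ← two_eq]
    ring
  have hW : qS a b * derivative (qT a b) - derivative (qS a b) * qT a b =
      2 * C (a + b) * qR a b := by
    rw [dS, dT]
    unfold qS qT qR
    simp only [C_mul, C_add, ← two_eq]
    ring
  -- `σ ρ` and `τ ρ`
  have k1 : 4 * C (a + b) * C l * (qS a b * qR a b) =
      2 * derivative (qT a b) * qF a b l m - qT a b * derivative (qF a b l m) := by
    rw [dF]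
    have : (2 * derivative (qT a b) * qF a b l m - qT a b * (2 * C l * qS a b * derivative (qS a b) +
      2 * C m * qT a b * derivative (qT a b))) = 2 * C l * qS a b *
        (qS a b * derivative (qT a b) - derivative (qS a b) * qT a b) := by
      unfold qF; ring
    rw [this, hW]; ring
  have k2 : 4 * C (a + b) * C m * (qT a b * qR a b) =
      qS a b * derivative (qF a b l m) - 2 * derivative (qS a b) * qF a b l m := by
    rw [dF]
    have : (qS a b * (2 * C l * qS a b * derivative (qS a b) +
      2 * C m * qT a b * derivative (qT a b)) - 2 * derivative (qS a b) * qF a b l m) =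
        2 * C m * qT a b * (qS a b * derivative (qT a b) - derivative (qS a b) * qT a b) := by
      unfold qF; ring
    rw [this, hW]; ring
  have hk : (C (4 * (a + b) * l * m) : ℚ[X]) * C ((4 * (a + b) * l * m)⁻¹) = 1 := by
    rw [← C_mul, mul_inv_cancel₀ (by
      exact mul_ne_zero (mul_ne_zero (mul_ne_zero four_ne_zero hab) hl) hm), C_1]
  have h4 : (C (4 * (a + b) * l * m) : ℚ[X]) = 4 * C (a + b) * C l * C m := by
    rw [C_mul, C_mul, C_mul]
    rw [show (C (4:ℚ) : ℚ[X]) = 4 from map_ofNat C 4]
  rw [h4] at hk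
  -- `ρ` in the ideal
  refine ⟨P + Q * C ((4 * (a + b) * l * m)⁻¹) * (α * C m * 2 * derivative (qT a b) -
    β * C l * 2 * derivative (qS a b)), Q * C ((4 * (a + b) * l * m)⁻¹) * (-(α * C m * qT a b) +
    β * C l * qS a b), ?_⟩
  set κ : ℚ[X] := C ((4 * (a + b) * l * m)⁻¹) with hκ
  have e1 : (4 * C (a + b) * C l * C m) * qR a b = α * C m * (2 * derivative (qT a b) * qF a b l m
      - qT a b * derivative (qF a b l m)) + β * C l * (qS a b * derivative (qF a b l m)
      - 2 * derivative (qS a b) * qF a b l m) := by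
    rw [← k1, ← k2]
    linear_combination (-(4 * C (a + b) * C l * C m * qR a b)) * hαβ
  linear_combination hPQ - Q * κ * e1 + Q * qR a b * hk

end field

end Pool.Agent.H549.FS
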