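import Pool.Agent.H549.FS.Tri1

/-! The integral quartic forms and the sieve system of the triples. -/

namespace Pool.Agent.H549.FS

open Polynomial Finset

/-- A quartic form. -/
theorem hom_quartic {c4 c3 c2 c1 c0 : ℤ} (h : c4 ≠ 0) (u v : ℤ) :
    hom (C c4 * X ^ 4 + C c3 * X ^ 3 + C c2 * X ^ 2 + C c1 * X + C c0) u v =
      c4 * v ^ 4 + c3 * v ^ 3 * u + c2 * v ^ 2 * u ^ 2 + c1 * v * u ^ 3 + c0 * u ^ 4 := by
  have hd : (C c4 * X ^ 4 + C c3 * X ^ 3 + C c2 * X ^ 2 + C c1 * X + C c0 : ℤ[X]).natDegree = 4 := by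
    compute_degree!
  unfold hom
  rw [eval_eq_sum_range, natDegree_scaleRoots, hd]
  have k0 : (C c4 * X ^ 4 + C c3 * X ^ 3 + C c2 * X ^ 2 + C c1 * X + C c0 : ℤ[X]).coeff 0 = c0 := by
    simp only [coeff_add, coeff_C_mul, coeff_X_pow, coeff_X, coeff_C]; norm_num
  have k1 : (C c4 * X ^ 4 + C c3 * X ^ 3 + C c2 * X ^ 2 + C c1 * X + C c0 : ℤ[X]).coeff 1 = c1 := by
    simp only [coeff_add, coeff_C_mul, coeff_X_pow, coeff_X, coeff_C]; norm_num
  have k2 : (C c4 * X ^ 4 + C c3 * X ^ 3 + C c2 * X ^ 2 + C c1 * X + C c0 : ℤ[X]).coeff 2 = c2 := by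
    simp only [coeff_add, coeff_C_mul, coeff_X_pow, coeff_X, coeff_C]; norm_num
  have k3 : (C c4 * X ^ 4 + C c3 * X ^ 3 + C c2 * X ^ 2 + C c1 * X + C c0 : ℤ[X]).coeff 3 = c3 := by
    simp only [coeff_add, coeff_C_mul, coeff_X_pow, coeff_X, coeff_C]; norm_num
  have k4 : (C c4 * X ^ 4 + C c3 * X ^ 3 + C c2 * X ^ 2 + C c1 * X + C c0 : ℤ[X]).coeff 4 = c4 := by
    simp only [coeff_add, coeff_C_mul, coeff_X_pow, coeff_X, coeff_C]; norm_num
  simp only [coeff_scaleRoots, hd, Finset.sum_range_succ, Finset.sum_range_zero, k0, k1, k2, k3, k4]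
  norm_num
  ring

theorem natDegree_quartic {c4 c3 c2 c1 c0 : ℤ} (h : c4 ≠ 0) :
    (C c4 * X ^ 4 + C c3 * X ^ 3 + C c2 * X ^ 2 + C c1 * X + C c0 : ℤ[X]).natDegree = 4 := by
  compute_degree!

theorem lc_quartic {c4 c3 c2 c1 c0 : ℤ} (h : c4 ≠ 0) :
    (C c4 * X ^ 4 + C c3 * X ^ 3 + C c2 * X ^ 2 + C c1 * X + C c0 : ℤ[X]).leadingCoeff = c4 := by
  rw [leadingCoeff, natDegree_quartic h]
  simp only [coeff_add, coeff_C_mul, coeff_X_pow, coeff_X, coeff_C]; norm_num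

/-- The integral form `λ σ² + μ τ²`. -/
noncomputable def tF (a b l m : ℤ) : ℤ[X] :=
  C (a ^ 2 * (l + m)) * X ^ 4 + C (4 * a * b * l - 4 * a ^ 2 * m) * X ^ 3 +
    C (l * (4 * b ^ 2 - 2 * a * b) + m * (4 * a ^ 2 - 2 * a * b)) * X ^ 2 +
    C (-4 * b ^ 2 * l + 4 * a * b * m) * X + C (b ^ 2 * (l + m))

/-- `σ`. -/
def sS (a b u v : ℤ) : ℤ := a * v ^ 2 + 2 * b * u * v - b * u ^ 2
/-- `τ`. -/
def sT (a b u v : ℤ) : ℤ := a * v ^ 2 - 2 * a * u * v - b * u ^ 2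
/-- `ρ`. -/
def sR (a b u v : ℤ) : ℤ := a * v ^ 2 + b * u ^ 2

/-- The value of the form. -/
def tV (a b l m u v : ℤ) : ℤ := l * sS a b u v ^ 2 + m * sT a b u v ^ 2

theorem hom_tF {a b l m : ℤ} (ha : a ≠ 0) (hlm : l + m ≠ 0) (u v : ℤ) :
    hom (tF a b l m) u v = tV a b l m u v := by
  unfold tF
  rw [hom_quartic (mul_ne_zero (pow_ne_zero 2 ha) hlm)]
  unfold tV sS sT
  ring

theorem tV_conic (a b u v : ℤ) : tV a b a b u v = (a + b) * sR a b u v ^ 2 := by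
  unfold tV sS sT sR
  ring

theorem map_tF (a b l m : ℤ) :
    (tF a b l m).map (Int.castRingHom ℚ) = qF (a:ℚ) b l m := by
  unfold tF qF qS qT
  have hc : ∀ x : ℤ, (Int.castRingHom ℚ) x = (x:ℚ) := fun x => rfl
  simp only [Polynomial.map_add, Polynomial.map_mul, Polynomial.map_C, Polynomial.map_pow,
    Polynomial.map_X, hc]
  push_cast
  simp only [C_mul, C_add, C_sub, C_neg, C_pow, ← two_eq]
  rw [show (C (4:ℚ) : ℚ[X]) = 4 from map_ofNat C 4]
  ring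

/-- The three forms. -/
noncomputable def tf (a b : ℤ) : Fin 3 → ℤ[X] :=
  ![tF a b (2 * a) b, tF a b a (2 * b), tF a b a (-b)]

/-- The leading coefficient of the product. -/
def tL (a b : ℤ) : ℤ := (a ^ 2 * (2 * a + b)) * (a ^ 2 * (a + 2 * b)) * (a ^ 2 * (a - b))

/-- The value of the product. -/
def tH (a b u v : ℤ) : ℤ := tV a b (2 * a) b u v * tV a b a (2 * b) u v * tV a b a (-b) u v

theorem hom_prod_tf {a b : ℤ} (hb : 0 < b) (hab : b < a) (u v : ℤ) :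
    hom (∏ i, tf a b i) u v = tH a b u v := by
  have ha : a ≠ 0 := by omega
  rw [hom_prod, Fin.prod_univ_three]
  show hom (tF a b (2 * a) b) u v * hom (tF a b a (2 * b)) u v * hom (tF a b a (-b)) u v = _
  rw [hom_tF ha (by omega), hom_tF ha (by omega), hom_tF ha (by omega)]
  rfl

theorem lc_prod_tf {a b : ℤ} (hb : 0 < b) (hab : b < a) :
    (∏ i, tf a b i).leadingCoeff = tL a b := by
  have ha : a ≠ 0 := by omega
  have h2 : a ^ 2 ≠ 0 := pow_ne_zero 2 ha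
  rw [Fin.prod_univ_three]
  show (tF a b (2 * a) b * tF a b a (2 * b) * tF a b a (-b)).leadingCoeff = _
  rw [leadingCoeff_mul, leadingCoeff_mul]
  unfold tF
  rw [lc_quartic (mul_ne_zero h2 (by omega)), lc_quartic (mul_ne_zero h2 (by omega)),
    lc_quartic (mul_ne_zero h2 (by omega))]
  unfold tL
  ring

theorem tL_pos {a b : ℤ} (hb : 0 < b) (hab : b < a) : 0 < tL a b := by
  unfold tL
  have : 0 < a - b := by omega
  have : 0 < a := by omega
  positivity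

theorem natDegree_prod_tf {a b : ℤ} (hb : 0 < b) (hab : b < a) :
    (∏ i, tf a b i).natDegree = 12 := by
  have ha : a ≠ 0 := by omega
  have h2 : a ^ 2 ≠ 0 := pow_ne_zero 2 ha
  rw [Fin.prod_univ_three]
  have h0 : (tf a b 0).natDegree = 4 := natDegree_quartic (mul_ne_zero h2 (by omega))
  have h1 : (tf a b 1).natDegree = 4 := natDegree_quartic (mul_ne_zero h2 (by omega))
  have h2 : (tf a b 2).natDegree = 4 := natDegree_quartic (mul_ne_zero h2 (by omega))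
  have n0 : tf a b 0 ≠ 0 := fun h => by rw [h] at h0; simp at h0
  have n1 : tf a b 1 ≠ 0 := fun h => by rw [h] at h1; simp at h1
  have n2 : tf a b 2 ≠ 0 := fun h => by rw [h] at h2; simp at h2
  rw [natDegree_mul (mul_ne_zero n0 n1) n2, natDegree_mul n0 n1, h0, h1, h2]

theorem separable_tf {a b : ℤ} (hb : 0 < b) (hab : b < a) :
    ((∏ i, tf a b i).map (Int.castRingHom ℚ)).Separable := by
  have hbq : (0:ℚ) < b := by exact_mod_cast hb
  have habq : (b:ℚ) < a := by exact_mod_cast hab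
  have haq : (0:ℚ) < a := hbq.trans habq
  have hs : (a:ℚ) + b ≠ 0 := by positivity
  rw [Fin.prod_univ_three, Polynomial.map_mul, Polynomial.map_mul]
  have m0 : (tf a b 0).map (Int.castRingHom ℚ) = qF (a:ℚ) b (2 * a) b := by
    show (tF a b (2 * a) b).map (Int.castRingHom ℚ) = _
    rw [map_tF]; push_cast; rfl
  have m1 : (tf a b 1).map (Int.castRingHom ℚ) = qF (a:ℚ) b a (2 * b) := by
    show (tF a b a (2 * b)).map (Int.castRingHom ℚ) = _
    rw [map_tF]; push_cast; rfl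
  have m2 : (tf a b 2).map (Int.castRingHom ℚ) = qF (a:ℚ) b a (-b) := by
    show (tF a b a (-b)).map (Int.castRingHom ℚ) = _
    rw [map_tF]; push_cast; rfl
  rw [m0, m1, m2]
  have hpab : (0:ℚ) < a * b := by positivity
  have s0 : (qF (a:ℚ) b (2 * a) b).Separable := by
    refine qsep hbq.ne' hs (by positivity) hbq.ne' ?_
    have : 2 * (a:ℚ) * b - a * b = a * b := by ring
    rw [this]; exact hpab.ne'
  have s1 : (qF (a:ℚ) b a (2 * b)).Separable := by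
    refine qsep hbq.ne' hs haq.ne' (by positivity) ?_
    have : (a:ℚ) * b - a * (2 * b) = -(a * b) := by ring
    rw [this]; exact neg_ne_zero.2 hpab.ne'
  have s2 : (qF (a:ℚ) b a (-b)).Separable := by
    refine qsep hbq.ne' hs haq.ne' (neg_ne_zero.2 hbq.ne') ?_
    have : (a:ℚ) * b - a * (-b) = 2 * (a * b) := by ring
    rw [this]; exact (by positivity : (0:ℚ) < 2 * (a * b)).ne'
  have c01 : IsCoprime (qF (a:ℚ) b (2 * a) b) (qF (a:ℚ) b a (2 * b)) := by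
    refine qpair hbq.ne' hs ?_
    have : 2 * (a:ℚ) * (2 * b) - a * b = 3 * (a * b) := by ring
    rw [this]; exact (by positivity : (0:ℚ) < 3 * (a * b)).ne'
  have c02 : IsCoprime (qF (a:ℚ) b (2 * a) b) (qF (a:ℚ) b a (-b)) := by
    refine qpair hbq.ne' hs ?_
    have : 2 * (a:ℚ) * (-b) - a * b = -(3 * (a * b)) := by ring
    rw [this]; exact neg_ne_zero.2 (by positivity : (0:ℚ) < 3 * (a * b)).ne'
  have c12 : IsCoprime (qF (a:ℚ) b a (2 * b)) (qF (a:ℚ) b a (-b)) := by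
    refine qpair hbq.ne' hs ?_
    have : (a:ℚ) * (-b) - a * (2 * b) = -(3 * (a * b)) := by ring
    rw [this]; exact neg_ne_zero.2 (by positivity : (0:ℚ) < 3 * (a * b)).ne'
  exact (s0.mul s1 c01).mul s2 (IsCoprime.mul_left c02 c12)

/-- Bounds for the forms. -/
theorem t_bounds {a b u v : ℤ} (hb : 0 < b) (hab : b < a) (hu : 0 < u) (huv : 4 * u ≤ v) :
    0 < sS a b u v ∧ 0 < sT a b u v ∧ 0 < sR a b u v ∧
    (v ^ 4 ≤ tV a b (2 * a) b u v ∧ tV a b (2 * a) b u v ≤ (2 * a + 2 * b) * (a + 2 * b) ^ 2 * v ^ 4) ∧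
    (v ^ 4 ≤ tV a b a (2 * b) u v ∧ tV a b a (2 * b) u v ≤ (2 * a + 2 * b) * (a + 2 * b) ^ 2 * v ^ 4) ∧
    (v ^ 4 ≤ tV a b a (-b) u v ∧ tV a b a (-b) u v ≤ (2 * a + 2 * b) * (a + 2 * b) ^ 2 * v ^ 4) := by
  have ha : 0 < a := hb.trans hab
  have hv : 0 < v := by linarith
  have huv' : u ≤ v := by linarith
  have hv2 : 0 < v ^ 2 := by positivity
  have huu : u * u ≤ u * v := mul_le_mul_of_nonneg_left huv' hu.le
  have huv4 : 4 * (u * v) ≤ v ^ 2 := by nlinarith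
  have huu16 : 16 * u ^ 2 ≤ v ^ 2 := by nlinarith
  have huv1 : 0 < u * v := mul_pos hu hv
  have hS1 : a * v ^ 2 ≤ sS a b u v := by
    unfold sS
    have : 0 ≤ b * (2 * (u * v) - u * u) := mul_nonneg hb.le (by linarith)
    nlinarith
  have hS2 : sS a b u v ≤ (a + 2 * b) * v ^ 2 := by
    unfold sS
    have h1 : b * (2 * (u * v)) ≤ b * (2 * v ^ 2) := mul_le_mul_of_nonneg_left (by linarith) hb.le
    have h2 : 0 ≤ b * u ^ 2 := by positivity
    nlinarith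
  have hT1 : 0 < sT a b u v := by
    unfold sT
    have h1 : a * (2 * (u * v)) ≤ a * (v ^ 2 / 2) + a * (v ^ 2 - v ^ 2 / 2) := by nlinarith
    have h3 : 2 * (a * (2 * (u * v))) ≤ a * v ^ 2 := by nlinarith
    have h4 : 16 * (b * u ^ 2) ≤ b * v ^ 2 := by nlinarith
    have h5 : b * v ^ 2 ≤ a * v ^ 2 := mul_le_mul_of_nonneg_right hab.le hv2.le
    have h6 : 0 < a * v ^ 2 := by positivity
    nlinarith
  have hT2 : sT a b u v ≤ a * v ^ 2 := by
    unfold sT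
    have h1 : 0 < a * (u * v) := by positivity
    have h2 : 0 < b * u ^ 2 := by positivity
    nlinarith
  have hav : 0 < a * v ^ 2 := by positivity
  have hR : 0 < sR a b u v := by unfold sR; positivity
  have hS0 : 0 < sS a b u v := lt_of_lt_of_le hav hS1
  have hSS1 : (a * v ^ 2) ^ 2 ≤ sS a b u v ^ 2 := pow_le_pow_left₀ hav.le hS1 2
  have hSS2 : sS a b u v ^ 2 ≤ ((a + 2 * b) * v ^ 2) ^ 2 := pow_le_pow_left₀ hS0.le hS2 2
  have hTT1 : 0 ≤ sT a b u v ^ 2 := sq_nonneg _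
  have hTT2 : sT a b u v ^ 2 ≤ (a * v ^ 2) ^ 2 := pow_le_pow_left₀ hT1.le hT2 2
  have hTT3 : sT a b u v ^ 2 ≤ ((a + 2 * b) * v ^ 2) ^ 2 := hTT2.trans (hSS1.trans hSS2)
  have ha1 : 1 ≤ a := ha
  have ha2 : 1 ≤ a ^ 2 := by nlinarith
  have hv4 : (a * v ^ 2) ^ 2 = a ^ 2 * v ^ 4 := by ring
  have hv4' : ((a + 2 * b) * v ^ 2) ^ 2 = (a + 2 * b) ^ 2 * v ^ 4 := by ring
  rw [hv4] at hSS1 hTT2
  rw [hv4'] at hSS2 hTT3
  have hv4p : 0 < v ^ 4 := by positivity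
  have hlow : v ^ 4 ≤ a ^ 2 * v ^ 4 := by nlinarith
  set W := (a + 2 * b) ^ 2 * v ^ 4 with hW
  have hWp : 0 < W := by positivity
  have up : ∀ l m : ℤ, 0 ≤ l → l ≤ 2 * a → m ≤ 2 * b →
      tV a b l m u v ≤ (2 * a + 2 * b) * (a + 2 * b) ^ 2 * v ^ 4 := by
    intro l m hl0 hl hm
    unfold tV
    have h1 : l * sS a b u v ^ 2 ≤ 2 * a * W :=
      mul_le_mul hl hSS2 (sq_nonneg _) (by positivity)
    have h2 : m * sT a b u v ^ 2 ≤ 2 * b * W := by
      have h3 : m * sT a b u v ^ 2 ≤ 2 * b * sT a b u v ^ 2 :=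
        mul_le_mul_of_nonneg_right hm hTT1
      have h4 : 2 * b * sT a b u v ^ 2 ≤ 2 * b * W :=
        mul_le_mul_of_nonneg_left hTT3 (by positivity)
      exact h3.trans h4
    calc l * sS a b u v ^ 2 + m * sT a b u v ^ 2 ≤ 2 * a * W + 2 * b * W := add_le_add h1 h2
      _ = (2 * a + 2 * b) * (a + 2 * b) ^ 2 * v ^ 4 := by rw [hW]; ring
  refine ⟨hS0, hT1, hR, ⟨?_, up _ _ (by positivity) le_rfl (by linarith)⟩,
    ⟨?_, up _ _ (by positivity) (by linarith) le_rfl⟩,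
    ⟨?_, up _ _ (by positivity) (by linarith) (by linarith)⟩⟩
  · unfold tV
    have h1 : 0 ≤ b * sT a b u v ^ 2 := by positivity
    have h2 : a ^ 2 * v ^ 4 ≤ 2 * a * sS a b u v ^ 2 := by
      calc a ^ 2 * v ^ 4 ≤ sS a b u v ^ 2 := hSS1
        _ ≤ 2 * a * sS a b u v ^ 2 := by nlinarith [sq_nonneg (sS a b u v)]
    linarith
  · unfold tV
    have h1 : 0 ≤ 2 * b * sT a b u v ^ 2 := by positivity
    have h2 : a ^ 2 * v ^ 4 ≤ a * sS a b u v ^ 2 := by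
      calc a ^ 2 * v ^ 4 ≤ sS a b u v ^ 2 := hSS1
        _ ≤ a * sS a b u v ^ 2 := by nlinarith [sq_nonneg (sS a b u v)]
    linarith
  · unfold tV
    have h1 : a * (a ^ 2 * v ^ 4) ≤ a * sS a b u v ^ 2 := mul_le_mul_of_nonneg_left hSS1 ha.le
    have h2 : b * sT a b u v ^ 2 ≤ b * (a ^ 2 * v ^ 4) := mul_le_mul_of_nonneg_left hTT2 hb.le
    have h3 : a ^ 2 * v ^ 4 ≤ (a - b) * (a ^ 2 * v ^ 4) := by
      have : 1 ≤ a - b := by omega
      nlinarith [mul_pos (by positivity : 0 < a ^ 2) hv4p]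
    nlinarith

end Pool.Agent.H549.FS
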