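import Pool.Agent.H549.FS.Tri2
import Pool.Agent.H549.FS.Rep

/-! The sieve system of the triples, and the count. -/

namespace Pool.Agent.H549.FS

open Polynomial Finset

theorem pt_lb {Q a b N s : ℕ} : Q * (b * N) ≤ pt Q a b N s := by
  unfold pt
  have : Q * (b * N) ≤ Q * (b * N + s) := Nat.mul_le_mul_left _ (by omega)
  omega

/-- The sieve system. -/
theorem exists_tsys {a b : ℤ} (hb : 0 < b) (hab : b < a) :
    ∃ S : Sys (Fin 3), S.f = tf a b ∧ (S.w : ℤ) = tL a b ∧ S.w ∣ S.Q ∧ S.U0 = 1 ∧ S.V0 = 12 := by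
  classical
  obtain ⟨A, B, D, hD0, hAB⟩ := exists_bezout (∏ i, tf a b i) (separable_tf hb hab)
  have hL := tL_pos hb hab
  have ha : 0 < a := hb.trans hab
  obtain ⟨w, hw⟩ : ∃ w : ℕ, (w:ℤ) = tL a b := ⟨(tL a b).toNat, Int.toNat_of_nonneg hL.le⟩
  have hw0 : 0 < w := by
    have : (0:ℤ) < w := by rw [hw]; exact hL
    exact_mod_cast this
  obtain ⟨R, hR0, hR⟩ : ∃ R : ℕ, 0 < R ∧ ∀ p : ℕ, p.Prime → p ≤ 224 → p ∣ R :=
    ⟨Nat.factorial 224, Nat.factorial_pos _, fun p hp h => (Nat.Prime.dvd_factorial hp).2 h⟩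
  set P : ℕ := w * D.natAbs * R with hP
  have hP0 : 0 < P := by
    refine Nat.mul_pos (Nat.mul_pos hw0 (Int.natAbs_pos.2 hD0)) hR0
  set Q : ℕ := w * P with hQd
  have hQ : 0 < Q := Nat.mul_pos hw0 hP0
  have hwP : w ∣ P := by rw [hP, mul_assoc]; exact Dvd.intro _ rfl
  have hPQ : P ∣ Q := Dvd.intro_left _ rfl
  have hwQ : w ∣ Q := Dvd.intro _ rfl
  have hwleQ : w ≤ Q := Nat.le_of_dvd hQ hwQ
  have hdeg := natDegree_prod_tf hb hab
  have hlc := lc_prod_tf hb hab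
  have hub : ∀ N s t : ℕ, 1 ≤ N → s < N → t < N →
      (0:ℤ) < (pt Q 0 1 N s : ℕ) ∧ 4 * ((pt Q 0 1 N s : ℕ):ℤ) ≤ (pt Q 1 12 N t : ℕ) ∧
      ((pt Q 1 12 N t : ℕ) : ℤ) ≤ (Q * 14 : ℕ) * N ∧ (Q:ℤ) * N ≤ (pt Q 1 12 N t : ℕ) := by
    intro N s t hN hs ht
    have h1 : 0 < pt Q 0 1 N s := pt_pos hQ le_rfl hN
    have h2 : pt Q 0 1 N s ≤ Q * (1 + 2) * N := pt_le (Nat.zero_le _) hs
    have h3 : Q * (12 * N) ≤ pt Q 1 12 N t := pt_lb
    have h4 : pt Q 1 12 N t ≤ Q * (12 + 2) * N := pt_le hQ ht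
    refine ⟨by exact_mod_cast h1, ?_, by exact_mod_cast h4, ?_⟩
    · have : 4 * pt Q 0 1 N s ≤ pt Q 1 12 N t := by
        calc 4 * pt Q 0 1 N s ≤ 4 * (Q * (1 + 2) * N) := Nat.mul_le_mul_left _ h2
          _ = Q * (12 * N) := by ring
          _ ≤ _ := h3
      exact_mod_cast this
    · have : Q * N ≤ pt Q 1 12 N t := by
        calc Q * N ≤ 12 * (Q * N) := by omega
          _ = Q * (12 * N) := by ring
          _ ≤ _ := h3
      exact_mod_cast this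
  refine ⟨{
    f := tf a b
    A := A
    B := B
    D := D
    Q := Q
    u0 := 0
    v0 := 1
    U0 := 1
    V0 := 12
    w := w
    K := ((2 * a + 2 * b) * (a + 2 * b)).toNat * (Q * 14) ^ 2
    hQ := hQ
    hu0 := Nat.zero_le _
    hv0 := hQ
    hU0 := le_rfl
    hV0 := by norm_num
    hw := hw0
    hK := ?_
    hAB := hAB
    hD := ?_
    hz := ?_
    hcop := ?_
    hdiv := ?_
    hsize := ?_
    hlow := ?_ }, rfl, hw, hwQ, rfl, rfl⟩
  · have h1 : 0 < (2 * a + 2 * b) * (a + 2 * b) := by positivity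
    have h2 : 0 < ((2 * a + 2 * b) * (a + 2 * b)).toNat := by omega
    exact Nat.mul_pos h2 (by positivity)
  · intro p hp hnQ
    rw [hlc]
    constructor
    · intro h
      apply hnQ
      refine Dvd.dvd.trans ?_ hPQ
      rw [hP]
      exact Dvd.dvd.mul_right (Dvd.dvd.mul_left (Int.natCast_dvd.1 h) _) _
    · intro h
      apply hnQ
      rw [← hw] at h
      exact (Int.natCast_dvd_natCast.1 h).trans hwQ
  · intro p hp hle
    rw [hdeg] at hle
    refine Dvd.dvd.trans ?_ hPQ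
    rw [hP]
    exact Dvd.dvd.mul_left (hR p hp (by omega)) _
  · intro p hp _ h
    exact hp.one_lt.ne' (Nat.dvd_one.1 h.2)
  · intro u v hu hv
    have hud : (Q:ℤ) ∣ (u:ℤ) := by
      have := Nat.modEq_zero_iff_dvd.1 hu
      exact_mod_cast this
    have hv1 : (Q:ℤ) ∣ (v:ℤ) - 1 := by
      have := Nat.modEq_iff_dvd.1 hv.symm
      exact_mod_cast this
    have h1 := hom_zero_left (∏ i, tf a b i) (Q:ℤ) u v hud
    rw [hlc, hdeg, ← hw] at h1
    obtain ⟨k, hk⟩ := h1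
    refine ⟨(v:ℤ) ^ 12 + (P:ℤ) * k, ?_, ?_⟩
    · rw [hQd] at hk
      push_cast at hk
      linear_combination hk
    · -- `≡ 1` modulo `P`
      have h2 : (P:ℤ) ∣ ((v:ℤ) ^ 12 + (P:ℤ) * k) - 1 := by
        have h3 : (P:ℤ) ∣ (v:ℤ) - 1 := (Int.natCast_dvd_natCast.2 hPQ).trans hv1
        have h4 : (v:ℤ) - 1 ∣ (v:ℤ) ^ 12 - 1 := by
          have := sub_dvd_pow_sub_pow (v:ℤ) 1 12
          simpa using this
        have h5 : ((v:ℤ) ^ 12 + (P:ℤ) * k) - 1 = ((v:ℤ)^12 - 1) + (P:ℤ) * k := by ring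
        rw [h5]
        exact dvd_add (h3.trans h4) (Dvd.intro _ rfl)
      have h6 : IsCoprime ((v:ℤ) ^ 12 + (P:ℤ) * k) (P:ℤ) := by
        obtain ⟨c, hc⟩ := h2
        exact ⟨1, -c, by linear_combination hc⟩
      have h7 : IsCoprime ((v:ℤ) ^ 12 + (P:ℤ) * k) (w:ℤ) := by
        obtain ⟨c, hc⟩ := hwP
        have : (P:ℤ) = (w:ℤ) * c := by exact_mod_cast hc
        rw [this] at h6 ⊢
        exact (IsCoprime.mul_right_iff.1 h6).1
      rw [hQd]
      push_cast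
      exact IsCoprime.mul_right h7 h6
  · intro N s t hN hs ht i
    obtain ⟨k1, k2, k3, k4⟩ := hub N s t hN hs ht
    obtain ⟨_, _, _, g0, g1, g2⟩ := t_bounds hb hab k1 k2
    set u : ℤ := ((pt Q 0 1 N s : ℕ) : ℤ) with hu
    set v : ℤ := ((pt Q 1 12 N t : ℕ) : ℤ) with hv
    have hv0 : 0 < v := by linarith
    have hv4 : 0 < v ^ 4 := by positivity
    have hcomb : (2 * a + 2 * b) * (a + 2 * b) ^ 2 * v ^ 4 ≤
        (((((2 * a + 2 * b) * (a + 2 * b)).toNat * (Q * 14) ^ 2 : ℕ)) : ℤ) ^ 2 * (N:ℤ) ^ 4 := by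
      have e1 : ((((2 * a + 2 * b) * (a + 2 * b)).toNat : ℕ) : ℤ) = (2 * a + 2 * b) * (a + 2 * b) :=
        Int.toNat_of_nonneg (by positivity)
      rw [Nat.cast_mul, e1]
      have h1 : v ^ 4 ≤ (((Q * 14 : ℕ) : ℤ) * N) ^ 4 := pow_le_pow_left₀ hv0.le k3 4
      have h2 : (2 * a + 2 * b) ≤ (2 * a + 2 * b) ^ 2 := by nlinarith
      have h3 : (2 * a + 2 * b) * (a + 2 * b) ^ 2 ≤ (2 * a + 2 * b) ^ 2 * (a + 2 * b) ^ 2 :=
        mul_le_mul_of_nonneg_right h2 (sq_nonneg _)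
      calc (2 * a + 2 * b) * (a + 2 * b) ^ 2 * v ^ 4
          ≤ ((2 * a + 2 * b) ^ 2 * (a + 2 * b) ^ 2) * (((Q * 14 : ℕ) : ℤ) * N) ^ 4 :=
            mul_le_mul h3 h1 hv4.le (by positivity)
        _ = _ := by push_cast; ring
    have hpos : ∀ x : ℤ, v ^ 4 ≤ x → 0 < x := fun x hx => lt_of_lt_of_le hv4 hx
    fin_cases i
    · show 0 < hom (tF a b (2 * a) b) _ _ ∧ hom (tF a b (2 * a) b) _ _ ≤ _
      rw [hom_tF ha.ne' (by omega)]
      exact ⟨hpos _ g0.1, g0.2.trans hcomb⟩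
    · show 0 < hom (tF a b a (2 * b)) _ _ ∧ hom (tF a b a (2 * b)) _ _ ≤ _
      rw [hom_tF ha.ne' (by omega)]
      exact ⟨hpos _ g1.1, g1.2.trans hcomb⟩
    · show 0 < hom (tF a b a (-b)) _ _ ∧ hom (tF a b a (-b)) _ _ ≤ _
      rw [hom_tF ha.ne' (by omega)]
      exact ⟨hpos _ g2.1, g2.2.trans hcomb⟩
  · intro N s t hN hs ht
    obtain ⟨k1, k2, k3, k4⟩ := hub N s t hN hs ht
    obtain ⟨_, _, _, g0, g1, g2⟩ := t_bounds hb hab k1 k2
    rw [hom_prod_tf hb hab]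
    set u : ℤ := ((pt Q 0 1 N s : ℕ) : ℤ) with hu
    set v : ℤ := ((pt Q 1 12 N t : ℕ) : ℤ) with hv
    have hv0 : 0 < v := by linarith
    have hv4 : 0 < v ^ 4 := by positivity
    have hn1 : (1:ℤ) ≤ N := by exact_mod_cast hN
    have hq1 : (1:ℤ) ≤ Q := by exact_mod_cast hQ
    have hwq : (w:ℤ) ≤ Q := by exact_mod_cast hwleQ
    have h1 : v ^ 4 * v ^ 4 * v ^ 4 ≤ tH a b u v := by
      unfold tH
      exact mul_le_mul (mul_le_mul g0.1 g1.1 hv4.le (hv4.le.trans g0.1)) g2.1 hv4.le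
        (mul_nonneg (hv4.le.trans g0.1) (hv4.le.trans g1.1))
    refine le_trans ?_ h1
    have h2 : ((Q:ℤ) * N) ^ 12 ≤ v ^ 12 := pow_le_pow_left₀ (by positivity) k4 12
    have h3 : (Q:ℤ) * (N:ℤ) ^ 3 ≤ ((Q:ℤ) * N) ^ 12 := by
      rw [mul_pow]
      refine mul_le_mul ?_ ?_ (by positivity) (by positivity)
      · calc (Q:ℤ) = (Q:ℤ) ^ 1 := (pow_one _).symm
          _ ≤ (Q:ℤ) ^ 12 := pow_le_pow_right₀ hq1 (by norm_num)
      · exact pow_le_pow_right₀ hn1 (by norm_num)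
    calc (w:ℤ) * (N:ℤ)^3 ≤ (Q:ℤ) * (N:ℤ) ^ 3 := mul_le_mul_of_nonneg_right hwq (by positivity)
      _ ≤ ((Q:ℤ) * N) ^ 12 := h3
      _ ≤ v ^ 12 := h2
      _ = v ^ 4 * v ^ 4 * v ^ 4 := by ring

/-- `3 w = g q²` with `g` squarefree. -/
theorem exists_sqfree_part (n : ℕ) (hn : 0 < n) : ∃ g q : ℕ, 0 < g ∧ 0 < q ∧ Squarefree g ∧
    n = g * q ^ 2 := by
  obtain ⟨g, q, h1, h2⟩ := Nat.sq_mul_squarefree n
  have hq : 0 < q := by
    rcases Nat.eq_zero_or_pos q with h | h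
    · rw [h] at h1; simp at h1; omega
    · exact h
  exact ⟨g, q, Nat.pos_of_ne_zero h2.ne_zero, hq, h2, by rw [← h1]; ring⟩

/-- The squarefree `m` for which the three multiples are congruent. -/
def TriSet (k₁ k₂ k₃ : ℕ) (X : ℝ) : Set ℕ :=
  {m : ℕ | (m : ℝ) ≤ X ∧ Squarefree m ∧ IsCongruent (k₁ * m) ∧ IsCongruent (k₂ * m) ∧
    IsCongruent (k₃ * m)}

/-- **Counting.** -/
theorem count_tri {a b : ℕ} (hb : 0 < b) (hab : b < a) :
    ∃ c : ℝ, 0 < c ∧ ∃ X₀ : ℝ, ∀ X : ℝ, X₀ ≤ X →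
      c * X ^ (1 / 6 : ℝ) ≤ (Set.ncard (TriSet a b (a + b) X) : ℝ) := by
  classical
  have hbz : (0:ℤ) < b := by exact_mod_cast hb
  have habz : (b:ℤ) < a := by exact_mod_cast hab
  have haz : (0:ℤ) < a := hbz.trans habz
  obtain ⟨S, hSf, hSw, hwQ, hU, hV⟩ := exists_tsys hbz habz
  obtain ⟨c, hc, N₀, hN₀⟩ := S.distinct
  obtain ⟨g, q, hg, hq, hgs, hgq⟩ := exists_sqfree_part (3 * S.w) (by have := S.hw; omega)
  set M0 : ℕ := S.Q * (S.V0 + 2) with hM0
  set E : ℤ := (2 * a + 2 * b) * (a + 2 * b) ^ 2 with hE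
  have hE0 : (0:ℤ) < E := by rw [hE]; positivity
  set C0 : ℝ := g * ((E:ℝ) ^ 3 * (M0:ℝ) ^ 12) with hC0
  have hM0pos : 0 < M0 := Nat.mul_pos S.hQ (by omega)
  have hEr : (0:ℝ) < (E:ℝ) := by exact_mod_cast hE0
  have hM0r : (0:ℝ) < M0 := by exact_mod_cast hM0pos
  have hgr : (0:ℝ) < g := by exact_mod_cast hg
  have hC0pos : 0 < C0 := by positivity
  refine ⟨c / (4 * C0 ^ (1 / 6 : ℝ)), by positivity, max C0 (C0 * ((N₀:ℝ) + 1) ^ 12), fun X hX => ?_⟩
  have hX1 : C0 ≤ X := (le_max_left _ _).trans hX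
  have hX2 : C0 * ((N₀:ℝ) + 1) ^ 12 ≤ X := (le_max_right _ _).trans hX
  have hXpos : 0 < X := hC0pos.trans_le hX1
  set Y : ℝ := (X / C0) ^ (1 / 12 : ℝ) with hY
  have hXC : 1 ≤ X / C0 := (one_le_div hC0pos).2 hX1
  have hY1 : 1 ≤ Y := Real.one_le_rpow hXC (by norm_num)
  have hY6 : Y ^ 12 = X / C0 := by
    rw [hY, ← Real.rpow_natCast, ← Real.rpow_mul (by positivity)]
    norm_num
  set N : ℕ := ⌊Y⌋₊ with hN
  have hNY : (N:ℝ) ≤ Y := Nat.floor_le (by linarith)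
  have hNY2 : Y < N + 1 := Nat.lt_floor_add_one _
  have hN1 : 1 ≤ N := by rw [hN, Nat.one_le_floor_iff]; exact hY1
  have hN1r : (1:ℝ) ≤ N := by exact_mod_cast hN1
  have hNN : N₀ ≤ N := by
    rw [hN]
    refine Nat.le_floor ?_
    have h3 : ((N₀:ℝ) + 1) ^ 12 ≤ Y ^ 12 := by
      rw [hY6, le_div_iff₀ hC0pos]
      linarith
    have := (pow_le_pow_iff_left₀ (by positivity) (by linarith) (by norm_num : (12:ℕ) ≠ 0)).1 h3
    linarith
  obtain ⟨T, hT1, hT2⟩ := hN₀ N hNN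
  have hfin : (TriSet a b (a + b) X).Finite := by
    refine (Set.finite_Iic ⌊X⌋₊).subset ?_
    intro m hm
    exact Nat.le_floor hm.1
  have hinj : Function.Injective (fun n : ℕ => g * n) := by
    intro x y hxy
    exact Nat.eq_of_mul_eq_mul_left hg hxy
  have hsub : ((T.image (fun n => g * n) : Finset ℕ) : Set ℕ) ⊆ TriSet a b (a + b) X := by
    intro m hm
    rw [Finset.mem_coe, mem_image] at hm
    obtain ⟨n, hn, rfl⟩ := hm
    obtain ⟨st, hst, rfl⟩ := hT2 n hn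
    rw [S.mem_good] at hst
    obtain ⟨hbox, hcop, hsq⟩ := hst
    obtain ⟨hv1, hv2, _⟩ := S.val_spec hbox
    have hbox' := hbox
    rw [mem_product, mem_range, mem_range] at hbox'
    have e1 : hom S.F (S.uu N st.1 : ℕ) (S.vv N st.2 : ℕ) =
        tH a b (S.uu N st.1 : ℕ) (S.vv N st.2 : ℕ) := by
      unfold Sys.F
      rw [hSf]
      exact hom_prod_tf hbz habz _ _
    rw [e1] at hv1
    have hupos : 0 < S.uu N st.1 := pt_pos S.hQ S.hU0 hN1
    have huz : (0:ℤ) < (S.uu N st.1 : ℕ) := by exact_mod_cast hupos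
    have q2 : S.vv N st.2 ≤ M0 * N := pt_le S.hv0 hbox'.2
    have q3 : 4 * S.uu N st.1 ≤ S.vv N st.2 := by
      have h2 : S.uu N st.1 ≤ S.Q * (S.U0 + 2) * N := pt_le S.hu0 hbox'.1
      have h3 : S.Q * (S.V0 * N) ≤ S.vv N st.2 := pt_lb
      rw [hU] at h2
      rw [hV] at h3
      calc 4 * S.uu N st.1 ≤ 4 * (S.Q * (1 + 2) * N) := Nat.mul_le_mul_left _ h2
          _ = S.Q * (12 * N) := by ring
          _ ≤ _ := h3
    have q3z : 4 * ((S.uu N st.1 : ℕ) : ℤ) ≤ (S.vv N st.2 : ℕ) := by exact_mod_cast q3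
    obtain ⟨t1, t2, t3, g0, g1, g2⟩ := t_bounds hbz habz huz q3z
    set u : ℤ := ((S.uu N st.1 : ℕ) : ℤ) with hu
    set v : ℤ := ((S.vv N st.2 : ℕ) : ℤ) with hv
    have hvp : 0 < v := by linarith
    have hv4 : 0 < v ^ 4 := by positivity
    have f0 : 0 < tV a b (2 * a) b u v := hv4.trans_le g0.1
    have f1 : 0 < tV a b a (2 * b) u v := hv4.trans_le g1.1
    have f2 : 0 < tV a b a (-b) u v := hv4.trans_le g2.1
    have q2z : v ≤ (M0:ℤ) * N := by rw [hv]; exact_mod_cast q2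
    -- the key relation
    have hkey : 3 * tH a b u v = ((g * S.val N st : ℕ) : ℤ) * (q:ℤ) ^ 2 := by
      rw [hv1]
      have : (3:ℤ) * S.w = g * q ^ 2 := by exact_mod_cast hgq
      push_cast
      linear_combination ((S.val N st : ℕ) : ℤ) * this
    have hqz : (q:ℤ) ≠ 0 := by exact_mod_cast hq.ne'
    -- coprimality of `g` and the value
    have h3Q : 3 ∣ S.Q := S.hz 3 Nat.prime_three (by omega)
    have hgv : Nat.Coprime g (S.val N st) := by
      refine Nat.Coprime.coprime_dvd_left (?_ : g ∣ 3 * S.w) (Nat.Coprime.mul_left ?_ ?_)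
      · rw [hgq]; exact Dvd.intro _ rfl
      · exact (hv2.coprime_dvd_right h3Q).symm
      · exact (hv2.coprime_dvd_right hwQ).symm
    have hval : 3 * (tH a b u v) = 3 * (tV a b (2 * a) b u v * tV a b a (2 * b) u v *
      tV a b a (-b) u v) := rfl
    refine ⟨?_, ?_, ?_, ?_, ?_⟩
    · -- size
      have g5 : tH a b u v ≤ E ^ 3 * (M0:ℤ) ^ 12 * (N:ℤ) ^ 12 := by
        have hEv : 0 ≤ E * v ^ 4 := by positivity
        have h1 : tH a b u v ≤ (E * v ^ 4) * (E * v ^ 4) * (E * v ^ 4) := by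
          unfold tH
          exact mul_le_mul (mul_le_mul g0.2 g1.2 f1.le hEv) g2.2 f2.le (mul_nonneg hEv hEv)
        have h2 : v ^ 12 ≤ ((M0:ℤ) * N) ^ 12 := pow_le_pow_left₀ hvp.le q2z 12
        have h3 : (E * v ^ 4) * (E * v ^ 4) * (E * v ^ 4) = E ^ 3 * v ^ 12 := by ring
        rw [h3] at h1
        refine h1.trans ?_
        calc E ^ 3 * v ^ 12 ≤ E ^ 3 * ((M0:ℤ) * N) ^ 12 := mul_le_mul_of_nonneg_left h2 (by positivity)
          _ = _ := by ring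
      have hwz : (1:ℤ) ≤ S.w := by exact_mod_cast S.hw
      have g6 : ((S.val N st : ℕ) : ℤ) ≤ E ^ 3 * (M0:ℤ) ^ 12 * (N:ℤ) ^ 12 := by
        have h5 : ((S.val N st : ℕ) : ℤ) ≤ S.w * ((S.val N st : ℕ) : ℤ) := by
          have : (0:ℤ) ≤ ((S.val N st : ℕ) : ℤ) := by positivity
          nlinarith
        refine h5.trans ?_
        rw [← hv1]
        exact g5
      have g7 : ((S.val N st : ℕ) : ℝ) ≤ (E:ℝ) ^ 3 * (M0:ℝ) ^ 12 * (N:ℝ) ^ 12 := by
        exact_mod_cast g6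
      have g8 : (N:ℝ) ^ 12 ≤ X / C0 := by
        rw [← hY6]; exact pow_le_pow_left₀ (by positivity) hNY 12
      push_cast
      calc (g:ℝ) * ((S.val N st : ℕ) : ℝ) ≤ g * ((E:ℝ) ^ 3 * (M0:ℝ) ^ 12 * (N:ℝ) ^ 12) :=
            mul_le_mul_of_nonneg_left g7 hgr.le
        _ = C0 * (N:ℝ) ^ 12 := by rw [hC0]; ring
        _ ≤ C0 * (X / C0) := mul_le_mul_of_nonneg_left g8 hC0pos.le
        _ = X := by field_simp
    · exact (Nat.squarefree_mul hgv).2 ⟨hgs, hsq⟩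
    · -- `a m`
      refine congr_of (p := tV a b (2 * a) b u v) (q := tV a b a (-b) u v)
        (t := q * sS a b u v) f2 ?_ (mul_ne_zero hqz t1.ne') ?_
      · have : tV a b (2 * a) b u v - tV a b a (-b) u v = tV a b a (2 * b) u v := by
          unfold tV; ring
        linarith
      · have e2 : tV a b (2 * a) b u v * tV a b a (-b) u v *
            (tV a b (2 * a) b u v ^ 2 - tV a b a (-b) u v ^ 2) =
            (3 * tH a b u v) * (a * sS a b u v ^ 2) := by unfold tH tV; ring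
        rw [e2, hkey]
        push_cast
        ring
    · -- `b m`
      refine congr_of (p := tV a b a (2 * b) u v) (q := tV a b a (-b) u v)
        (t := q * sT a b u v) f2 ?_ (mul_ne_zero hqz t2.ne') ?_
      · have e3 : tV a b a (2 * b) u v - tV a b a (-b) u v = 3 * b * sT a b u v ^ 2 := by
          unfold tV; ring
        have : 0 < 3 * (b:ℤ) * sT a b u v ^ 2 := by positivity
        linarith
      · have e2 : tV a b a (2 * b) u v * tV a b a (-b) u v *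
            (tV a b a (2 * b) u v ^ 2 - tV a b a (-b) u v ^ 2) =
            (3 * tH a b u v) * (b * sT a b u v ^ 2) := by unfold tH tV; ring
        rw [e2, hkey]
        push_cast
        ring
    · -- `(a + b) m`
      refine congr_of (p := tV a b (2 * a) b u v) (q := tV a b a (2 * b) u v)
        (t := q * sR a b u v) f1 ?_ (mul_ne_zero hqz t3.ne') ?_
      · have e3 : tV a b (2 * a) b u v - tV a b a (2 * b) u v = tV a b a (-b) u v := by
          unfold tV; ring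
        linarith
      · have e4 : tV a b (2 * a) b u v ^ 2 - tV a b a (2 * b) u v ^ 2 =
            3 * (tV a b a b u v) * tV a b a (-b) u v := by unfold tV; ring
        have e2 : tV a b (2 * a) b u v * tV a b a (2 * b) u v *
            (tV a b (2 * a) b u v ^ 2 - tV a b a (2 * b) u v ^ 2) =
            (3 * tH a b u v) * ((a + b) * sR a b u v ^ 2) := by
          rw [e4, tV_conic]
          unfold tH
          ring
        rw [e2, hkey]
        push_cast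
        ring
  have hcard : (T.card : ℝ) ≤ (Set.ncard (TriSet a b (a + b) X) : ℝ) := by
    have h3 := Set.ncard_le_ncard hsub hfin
    rw [Set.ncard_coe_finset, card_image_of_injective _ hinj] at h3
    exact_mod_cast h3
  refine le_trans ?_ (hT1.trans hcard)
  have h3 : Y / 2 ≤ N := by linarith
  have h4 : (Y / 2) ^ 2 ≤ (N:ℝ) ^ 2 := pow_le_pow_left₀ (by linarith) h3 2
  have h5 : Y ^ 2 = X ^ (1 / 6 : ℝ) / C0 ^ (1 / 6 : ℝ) := by
    rw [hY, ← Real.rpow_natCast, ← Real.rpow_mul (by positivity), Real.div_rpow hXpos.le hC0pos.le]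
    norm_num
  calc c / (4 * C0 ^ (1 / 6 : ℝ)) * X ^ (1 / 6 : ℝ) = c * ((Y / 2) ^ 2) := by
        rw [div_pow, h5]
        field_simp
        norm_num
    _ ≤ c * (N:ℝ) ^ 2 := mul_le_mul_of_nonneg_left h4 hc.le

end Pool.Agent.H549.FS
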