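import Pool.Agent.H549.FS.Tri3

/-! The triples, for every solvable ternary equation. -/

namespace Pool.Agent.H549.FS

open Finset

/-- Scaling a triangle. -/
theorem IsCongruent.of_mul_sq {n s : ℕ} (hs : 0 < s) (h : IsCongruent (n * s ^ 2)) :
    IsCongruent n := by
  obtain ⟨h0, a, b, c, ha, hb, hc, h1, h2⟩ := h
  have hsq : (0:ℚ) < s := by exact_mod_cast hs
  refine ⟨Nat.pos_of_mul_pos_right h0, a / s, b / s, c / s, by positivity, by positivity,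
    by positivity, ?_, ?_⟩
  · field_simp
    exact h1
  · push_cast at h2
    field_simp
    linarith

theorem TriSet.mono {k₁ k₂ k₃ a b c : ℕ} {X : ℝ} (h₁ : ∃ s : ℕ, 0 < s ∧ a = k₁ * s ^ 2)
    (h₂ : ∃ s : ℕ, 0 < s ∧ b = k₂ * s ^ 2) (h₃ : ∃ s : ℕ, 0 < s ∧ c = k₃ * s ^ 2) :
    TriSet a b c X ⊆ TriSet k₁ k₂ k₃ X := by
  have key : ∀ {k a m : ℕ}, (∃ s : ℕ, 0 < s ∧ a = k * s ^ 2) → IsCongruent (a * m) →
      IsCongruent (k * m) := by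
    rintro k a m ⟨s, hs, rfl⟩ h
    have : k * s ^ 2 * m = k * m * s ^ 2 := by ring
    rw [this] at h
    exact h.of_mul_sq hs
  rintro m ⟨m1, m2, m3, m4, m5⟩
  exact ⟨m1, m2, key h₁ m3, key h₂ m4, key h₃ m5⟩

theorem TriSet.finite (a b c : ℕ) (X : ℝ) : (TriSet a b c X).Finite := by
  refine (Set.finite_Iic ⌊X⌋₊).subset ?_
  intro m hm
  exact Nat.le_floor hm.1

theorem TriSet.swap (a b c : ℕ) (X : ℝ) : TriSet a b c X = TriSet b a c X := by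
  ext m
  unfold TriSet
  simp only [Set.mem_ofPred_eq]
  tauto

/-- **Triples.** -/
theorem triples {k₁ k₂ k₃ : ℕ} (h₁ : 0 < k₁) (h₂ : 0 < k₂) {x y z : ℕ} (hx : 0 < x) (hy : 0 < y)
    (hz : 0 < z) (h : k₁ * x ^ 2 + k₂ * y ^ 2 = k₃ * z ^ 2) :
    ∃ c : ℝ, 0 < c ∧ ∃ X₀ : ℝ, ∀ X : ℝ, X₀ ≤ X →
      c * X ^ (1 / 6 : ℝ) ≤ (Set.ncard (TriSet k₁ k₂ k₃ X) : ℝ) := by
  have main : ∀ {k₁ k₂ k₃ : ℕ}, 0 < k₁ → 0 < k₂ → ∀ {x y z : ℕ}, 0 < x → 0 < y → 0 < z →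
      k₁ * x ^ 2 + k₂ * y ^ 2 = k₃ * z ^ 2 → k₂ * y ^ 2 < k₁ * x ^ 2 →
      ∃ c : ℝ, 0 < c ∧ ∃ X₀ : ℝ, ∀ X : ℝ, X₀ ≤ X →
      c * X ^ (1 / 6 : ℝ) ≤ (Set.ncard (TriSet k₁ k₂ k₃ X) : ℝ) := by
    intro k₁ k₂ k₃ h₁ h₂ x y z hx hy hz h hlt
    obtain ⟨c, hc, X₀, hX₀⟩ := count_tri (a := k₁ * x ^ 2) (b := k₂ * y ^ 2) (by positivity) hlt
    refine ⟨c, hc, X₀, fun X hX => (hX₀ X hX).trans ?_⟩
    have := Set.ncard_le_ncard (TriSet.mono (X := X) ⟨x, hx, rfl⟩ ⟨y, hy, rfl⟩ ⟨z, hz, h⟩)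
      (TriSet.finite k₁ k₂ k₃ X)
    exact_mod_cast this
  rcases lt_trichotomy (k₂ * y ^ 2) (k₁ * x ^ 2) with hlt | heq | hgt
  · exact main h₁ h₂ hx hy hz h hlt
  · refine main h₁ h₂ (x := 7 * x) (y := y) (z := 5 * z) (by omega) hy (by omega) ?_ ?_
    · have : k₁ * (7 * x) ^ 2 = 49 * (k₁ * x ^ 2) := by ring
      rw [this]
      have : k₃ * (5 * z) ^ 2 = 25 * (k₃ * z ^ 2) := by ring
      rw [this, ← h, heq]
      ring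
    · rw [heq]
      have : k₁ * (7 * x) ^ 2 = 49 * (k₁ * x ^ 2) := by ring
      rw [this]
      have : 0 < k₁ * x ^ 2 := by positivity
      omega
  · obtain ⟨c, hc, X₀, hX₀⟩ := main h₂ h₁ hy hx hz (by rw [add_comm]; exact h) hgt
    refine ⟨c, hc, X₀, fun X hX => ?_⟩
    rw [TriSet.swap]
    exact hX₀ X hX

end Pool.Agent.H549.FS
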